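import Mathlib

/-!
# Random sieve (helper6), part 11: the final inequality
-/

set_option autoImplicit false

namespace Pool.Agent.L7h6.TX

theorem fin_bound (k : ℕ) (a1 a2 c8 : ℝ) (ha1 : 0 ≤ a1) (ha2 : 0 ≤ a2) (hc8 : 0 < c8)
    (L Λ x N M ρ m0 m1 Ξ η e ζ Jc Uc q : ℝ) (_hL : 1 ≤ L) (hΛ : 1 ≤ Λ) (hx : 0 < x) (hx1 : x ≤ 1) (hN : 0 ≤ N)
    (hM : 0 ≤ M) (hρ : 0 < ρ) (hMρ : M ≤ Λ * ρ) (hm0 : c8 ≤ m0 * x) (hm0' : 0 < m0) (hm1 : 0 ≤ m1) (hm1' : m1 * x ≤ Λ)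
    (hΞ : 0 ≤ Ξ) (hΞ' : Ξ ≤ Λ) (_hη : 0 ≤ η) (hηζ : η ≤ ζ) (he : 0 ≤ e) (heζ : e ≤ ζ * N) (hJ : 0 ≤ Jc) (hJ' : Jc ≤ L ^ 2)
    (hUc : e * Uc ≤ ζ * N) (hq : 0 ≤ q) (hqζ : q ≤ ζ) (hζ : 0 ≤ ζ) (hUc0 : 0 ≤ Uc) :
    k * (a1 * N / m0 ^ k + (4 * Jc) ^ (2 * k) * (η * N + e)) +
      (2 * M / (ρ * m0)) ^ (2 * k) * (Ξ * N * (a2 * m1 ^ k) +
        Jc ^ (2 * k) * (N * q * Ξ ^ 2 + η * N * Ξ + e * Uc)) ≤
    (k * (a1 / c8 ^ k + 2 * 4 ^ (2 * k)) + (2 / c8) ^ (2 * k) * (a2 + 3)) * (Λ ^ (3 * k + 2) * (x ^ k + L ^ (4 * k) * ζ)) * N := by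
  have hL0 : 0 ≤ L := by linarith
  have h1 : a1 * N / m0 ^ k ≤ a1 / c8 ^ k * x ^ k * N := by
    rw [div_le_iff₀ (by positivity)]
    have g1 : c8 ^ k ≤ (m0 * x) ^ k := pow_le_pow_left₀ hc8.le hm0 k
    rw [mul_pow] at g1
    have g2 : a1 / c8 ^ k * x ^ k * N * m0 ^ k = a1 * N * (m0 ^ k * x ^ k / c8 ^ k) := by ring
    rw [g2]
    have g3 : 1 ≤ m0 ^ k * x ^ k / c8 ^ k := by
      rw [one_le_div (by positivity)]
      exact g1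
    have g4 : 0 ≤ a1 * N := by positivity
    nlinarith
  have h2 : (4 * Jc) ^ (2 * k) * (η * N + e) ≤ 2 * 4 ^ (2 * k) * (L ^ (4 * k) * ζ) * N := by
    have g1 : (4 * Jc) ^ (2 * k) ≤ (4 * L ^ 2) ^ (2 * k) := pow_le_pow_left₀ (by positivity) (by linarith) _
    have g2 : η * N + e ≤ 2 * (ζ * N) := by
      have := mul_le_mul_of_nonneg_right hηζ hN
      linarith
    have g3 : (4 * L ^ 2) ^ (2 * k) = 4 ^ (2 * k) * L ^ (4 * k) := by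
      rw [mul_pow, ← pow_mul]
      congr 2
      ring
    rw [g3] at g1
    calc (4 * Jc) ^ (2 * k) * (η * N + e) ≤ (4 ^ (2 * k) * L ^ (4 * k)) * (2 * (ζ * N)) :=
          mul_le_mul g1 g2 (by positivity) (by positivity)
      _ = _ := by ring
  have h3 : (2 * M / (ρ * m0)) ^ (2 * k) ≤ (2 / c8) ^ (2 * k) * (Λ ^ (2 * k) * x ^ (2 * k)) := by
    rw [← mul_pow, ← mul_pow]
    apply pow_le_pow_left₀ (by positivity)
    rw [div_le_iff₀ (by positivity)]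
    have g1 : 2 / c8 * (Λ * x) * (ρ * m0) = 2 * (Λ * ρ) * ((m0 * x) / c8) := by ring
    rw [g1]
    have g2 : 1 ≤ (m0 * x) / c8 := by
      rw [one_le_div hc8]
      exact hm0
    have g3 : 0 ≤ Λ * ρ := by positivity
    nlinarith
  have h4 : x ^ k * m1 ^ k ≤ Λ ^ k := by
    rw [← mul_pow]
    exact pow_le_pow_left₀ (by positivity) (by linarith) k
  have h5 : Ξ * N * (a2 * m1 ^ k) * x ^ (2 * k) ≤ a2 * (Λ ^ (k + 1) * x ^ k) * N := by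
    have g1 : Ξ * N * (a2 * m1 ^ k) * x ^ (2 * k) = a2 * N * (Ξ * (x ^ k * m1 ^ k)) * x ^ k := by
      rw [two_mul, pow_add]
      ring
    rw [g1]
    have g2 : Ξ * (x ^ k * m1 ^ k) ≤ Λ * Λ ^ k := mul_le_mul hΞ' h4 (by positivity) (by linarith)
    calc a2 * N * (Ξ * (x ^ k * m1 ^ k)) * x ^ k ≤ a2 * N * (Λ * Λ ^ k) * x ^ k := by
          apply mul_le_mul_of_nonneg_right _ (by positivity)
          exact mul_le_mul_of_nonneg_left g2 (by positivity)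
      _ = _ := by ring
  have hx2 : x ^ (2 * k) ≤ 1 := pow_le_one₀ hx.le hx1
  have h6 : Jc ^ (2 * k) * (N * q * Ξ ^ 2 + η * N * Ξ + e * Uc) * x ^ (2 * k) ≤ 3 * (Λ ^ 2 * (L ^ (4 * k) * ζ)) * N := by
    have g1 : Jc ^ (2 * k) ≤ L ^ (4 * k) := by
      have := pow_le_pow_left₀ hJ hJ' (2 * k)
      rw [← pow_mul] at this
      rwa [show 4 * k = 2 * (2 * k) by ring]
    have g2 : N * q * Ξ ^ 2 ≤ N * ζ * Λ ^ 2 := by
      apply mul_le_mul (mul_le_mul_of_nonneg_left hqζ hN) (pow_le_pow_left₀ hΞ hΞ' 2) (by positivity) (by positivity)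
    have g3 : η * N * Ξ ≤ N * ζ * Λ ^ 2 := by
      have : η * N * Ξ ≤ ζ * N * Λ := mul_le_mul (mul_le_mul_of_nonneg_right hηζ hN) hΞ' hΞ (by positivity)
      have g4 : Λ ≤ Λ ^ 2 := by nlinarith
      have g5 : 0 ≤ N * ζ := by positivity
      nlinarith
    have g4 : e * Uc ≤ N * ζ * Λ ^ 2 := by
      have g5 : 1 ≤ Λ ^ 2 := by nlinarith
      have g6 : 0 ≤ N * ζ := by positivity
      nlinarith
    have g5 : N * q * Ξ ^ 2 + η * N * Ξ + e * Uc ≤ 3 * (N * ζ * Λ ^ 2) := by linarith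
    have g6 : 0 ≤ N * q * Ξ ^ 2 + η * N * Ξ + e * Uc := by positivity
    calc Jc ^ (2 * k) * (N * q * Ξ ^ 2 + η * N * Ξ + e * Uc) * x ^ (2 * k) ≤
        Jc ^ (2 * k) * (N * q * Ξ ^ 2 + η * N * Ξ + e * Uc) * 1 := mul_le_mul_of_nonneg_left hx2 (by positivity)
      _ ≤ L ^ (4 * k) * (3 * (N * ζ * Λ ^ 2)) := by
          rw [mul_one]
          exact mul_le_mul g1 g5 g6 (by positivity)
      _ = _ := by ring
  have hin : 0 ≤ Ξ * N * (a2 * m1 ^ k) + Jc ^ (2 * k) * (N * q * Ξ ^ 2 + η * N * Ξ + e * Uc) := by positivity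
  have h7 : (2 * M / (ρ * m0)) ^ (2 * k) * (Ξ * N * (a2 * m1 ^ k) +
        Jc ^ (2 * k) * (N * q * Ξ ^ 2 + η * N * Ξ + e * Uc)) ≤
      (2 / c8) ^ (2 * k) * Λ ^ (2 * k) * (a2 * (Λ ^ (k + 1) * x ^ k) * N + 3 * (Λ ^ 2 * (L ^ (4 * k) * ζ)) * N) := by
    refine (mul_le_mul_of_nonneg_right h3 hin).trans ?_
    have g1 : (2 / c8) ^ (2 * k) * (Λ ^ (2 * k) * x ^ (2 * k)) * (Ξ * N * (a2 * m1 ^ k) +
        Jc ^ (2 * k) * (N * q * Ξ ^ 2 + η * N * Ξ + e * Uc)) =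
        (2 / c8) ^ (2 * k) * Λ ^ (2 * k) * (Ξ * N * (a2 * m1 ^ k) * x ^ (2 * k) +
          Jc ^ (2 * k) * (N * q * Ξ ^ 2 + η * N * Ξ + e * Uc) * x ^ (2 * k)) := by ring
    rw [g1]
    exact mul_le_mul_of_nonneg_left (add_le_add h5 h6) (by positivity)
  -- collect
  obtain ⟨T, hT⟩ : ∃ T, T = Λ ^ (3 * k + 2) * (x ^ k + L ^ (4 * k) * ζ) := ⟨_, rfl⟩
  have hxk : 0 < x ^ k := by positivity
  have hLz : 0 ≤ L ^ (4 * k) * ζ := by positivity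
  have p1 : 1 ≤ Λ ^ (3 * k + 2) := one_le_pow₀ hΛ
  have t1 : x ^ k ≤ T := by rw [hT]; nlinarith
  have t2 : L ^ (4 * k) * ζ ≤ T := by rw [hT]; nlinarith
  have t3 : Λ ^ (2 * k) * (Λ ^ (k + 1) * x ^ k) ≤ T := by
    rw [hT, ← mul_assoc, ← pow_add]
    apply mul_le_mul (pow_le_pow_right₀ hΛ (by omega)) (by linarith) hxk.le (by positivity)
  have t4 : Λ ^ (2 * k) * (Λ ^ 2 * (L ^ (4 * k) * ζ)) ≤ T := by
    rw [hT, ← mul_assoc, ← pow_add]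
    apply mul_le_mul (pow_le_pow_right₀ hΛ (by omega)) (by linarith) hLz (by positivity)
  rw [← hT]
  have hk0 : (0 : ℝ) ≤ k := Nat.cast_nonneg k
  have u1 : (k : ℝ) * (a1 * N / m0 ^ k + (4 * Jc) ^ (2 * k) * (η * N + e)) ≤ k * (a1 / c8 ^ k + 2 * 4 ^ (2 * k)) * T * N := by
    have v1 : a1 / c8 ^ k * x ^ k * N ≤ a1 / c8 ^ k * T * N :=
      mul_le_mul_of_nonneg_right (mul_le_mul_of_nonneg_left t1 (by positivity)) hN
    have v2 : 2 * 4 ^ (2 * k) * (L ^ (4 * k) * ζ) * N ≤ 2 * 4 ^ (2 * k) * T * N :=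
      mul_le_mul_of_nonneg_right (mul_le_mul_of_nonneg_left t2 (by positivity)) hN
    calc (k : ℝ) * (a1 * N / m0 ^ k + (4 * Jc) ^ (2 * k) * (η * N + e)) ≤
        k * (a1 / c8 ^ k * T * N + 2 * 4 ^ (2 * k) * T * N) :=
          mul_le_mul_of_nonneg_left (add_le_add (h1.trans v1) (h2.trans v2)) hk0
      _ = _ := by ring
  have u2 : (2 / c8) ^ (2 * k) * Λ ^ (2 * k) * (a2 * (Λ ^ (k + 1) * x ^ k) * N + 3 * (Λ ^ 2 * (L ^ (4 * k) * ζ)) * N) ≤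
      (2 / c8) ^ (2 * k) * (a2 + 3) * T * N := by
    have e1 : (2 / c8) ^ (2 * k) * Λ ^ (2 * k) * (a2 * (Λ ^ (k + 1) * x ^ k) * N + 3 * (Λ ^ 2 * (L ^ (4 * k) * ζ)) * N) =
        (2 / c8) ^ (2 * k) * (a2 * (Λ ^ (2 * k) * (Λ ^ (k + 1) * x ^ k)) + 3 * (Λ ^ (2 * k) * (Λ ^ 2 * (L ^ (4 * k) * ζ)))) * N := by
      ring
    have e2 : (2 / c8) ^ (2 * k) * (a2 + 3) * T * N = (2 / c8) ^ (2 * k) * (a2 * T + 3 * T) * N := by ring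
    rw [e1, e2]
    apply mul_le_mul_of_nonneg_right _ hN
    apply mul_le_mul_of_nonneg_left _ (by positivity)
    exact add_le_add (mul_le_mul_of_nonneg_left t3 ha2) (mul_le_mul_of_nonneg_left t4 (by norm_num))
  calc _ ≤ k * (a1 / c8 ^ k + 2 * 4 ^ (2 * k)) * T * N + (2 / c8) ^ (2 * k) * (a2 + 3) * T * N :=
        add_le_add u1 (h7.trans u2)
    _ = _ := by ring

end Pool.Agent.L7h6.TX
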