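import Pool.Agent.L7h6.TX.St2

/-!
# Random sieve (helper6), part 9: one residue class
-/

set_option autoImplicit false

namespace Pool.Agent.L7h6.TX

open Finset
open Pool.Agent.H373R2.T7
open Pool.Agent.L7h6.EX (wt wt_eq wt_nonneg wt_union sum_sup)

lemma ww_center {cL : Finset ℕ → ℝ} {U : Finset (Finset ℕ)} (hU0 : ∅ ∈ U) (ρ : ℝ) (v : ℕ) :
    ww (fun u => cL u - (if u = ∅ then ρ else 0)) U v = ww cL U v - ρ := by
  classical
  unfold ww
  have h1 : ∀ u ∈ U, (cL u - (if u = ∅ then ρ else 0)) * (if (∏ p ∈ u, p) ∣ v then (1 : ℝ) else 0) =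
      cL u * (if (∏ p ∈ u, p) ∣ v then 1 else 0) - (if u = ∅ then ρ else 0) := by
    intro u _
    by_cases hu : u = ∅
    · subst hu
      simp
    · simp [hu]
  rw [Finset.sum_congr rfl h1, Finset.sum_sub_distrib, Finset.sum_ite_eq' U ∅ (fun _ => ρ), if_pos hU0]

lemma cheb {N m : ℕ} {F : ℕ → ℝ} {a T : ℝ} (ha : 0 < a) (hF : ∀ l ∈ Icc 1 N, 0 ≤ F l) {P : ℕ → Prop}
    [DecidablePred P] (hP : ∀ l ∈ Icc 1 N, P l → a ≤ F l) (hT : ∑ l ∈ Icc 1 N, F l ≤ T) (_ : m = m) :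
    (((Icc 1 N).filter P).card : ℝ) ≤ T / a := by
  rw [le_div_iff₀ ha]
  refine le_trans ?_ hT
  calc (((Icc 1 N).filter P).card : ℝ) * a = ∑ l ∈ (Icc 1 N).filter P, a := by
        rw [Finset.sum_const, nsmul_eq_mul]
    _ ≤ ∑ l ∈ (Icc 1 N).filter P, F l := Finset.sum_le_sum fun l hl => by
        rw [mem_filter] at hl
        exact hP l hl.1 hl.2
    _ ≤ _ := Finset.sum_le_sum_of_subset_of_nonneg (filter_subset _ _) fun l hl _ => hF l hl

open Classical in
/-- one class -/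
theorem loc {N W β y z κ H L2 k : ℕ} {η e M K θ V m0 m1 ρ : ℝ} (hC : Cnt N W β y z κ η e) (hη : 0 ≤ η) (he : 0 ≤ e)
    (hM0 : 0 ≤ M) (hyz : y ≤ z) (hz : 0 < z)
    {B : Finset ℕ} (hB : ∀ p ∈ B, p.Prime ∧ z < p ∧ H < p ∧ ¬ p ∣ W) {cL : Finset ℕ → ℝ} {U : Finset (Finset ℕ)}
    (hU : ∀ u ∈ U, u ⊆ B) (hU0 : ∅ ∈ U) (hUL : ∀ u ∈ U, u.card ≤ L2) (hM : ∀ u ∈ U, |cL u| + |ρ| ≤ M)
    (hρ : ρ = ∑ u ∈ U, cL u * wt u) (hρ0 : 0 < ρ)
    (hlow : ∀ v : ℕ, ww cL U v ≤ if ∀ p ∈ B, ¬ p ∣ v then 1 else 0)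
    {J : Finset ℕ} (hJ : ∀ j ∈ J, j ≤ H) (Jb : Fin k → Finset ℕ)
    (hJb : ∀ i, Jb i ⊆ J) (hdis : ∀ i i', i ≠ i' → Disjoint (Jb i) (Jb i')) (hκ : 2 * k ≤ κ)
    (hV : 0 ≤ V) (hV1 : V ≤ 1) (hK : 0 ≤ K) (hθ : 0 < θ) (hm0 : 1 ≤ m0) (hθm : 1 ≤ θ ^ 2 * m0) (hm1 : ∀ i, m0 ≤ (Jb i).card * V)
    (hm2 : J.card * V ≤ m1) (hm3 : m0 ≤ J.card * V)
    (hE : ∀ J' ⊆ J, ∀ lam : ℝ, |lam| ≤ θ → EL (Lst (y + 1) (z - y)) (fun S => Real.exp (lam * S.card)) J' ≤
      Real.exp (J'.card * V * (lam + K * lam ^ 2))) :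
    (((Icc 1 N).filter (fun l => ∀ j ∈ J, (∀ p ∈ pz z, y < p → ¬ p ∣ W * l + β + j) →
      ¬ ∀ p ∈ B, ¬ p ∣ W * l + β + j)).card : ℝ) ≤
      k * (4 ^ k * ((2 * k).factorial * (2 * Real.exp K)) * N / m0 ^ k + (4 * J.card : ℝ) ^ (2 * k) * (η * N + e)) +
      (2 * M / (ρ * m0)) ^ (2 * k) * ((∏ p ∈ B, (1 + 2 ^ (2 * k) / (p : ℝ))) * N *
        (k.factorial * Real.exp (1 + K) * m1 ^ k) +
        (J.card : ℝ) ^ (2 * k) * (N * ((2 * k * L2 : ℝ) / z) * (∏ p ∈ B, (1 + 2 ^ (2 * k) / (p : ℝ))) ^ 2 +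
          η * N * (∏ p ∈ B, (1 + 2 ^ (2 * k) / (p : ℝ))) + e * (U.card : ℝ) ^ (2 * k))) := by
  obtain ⟨c, hc⟩ : ∃ c : Finset ℕ → ℝ, c = fun u => cL u - (if u = ∅ then ρ else 0) := ⟨_, rfl⟩
  have hcM : ∀ u ∈ U, |c u| ≤ M := by
    intro u hu
    refine le_trans ?_ (hM u hu)
    rw [hc]
    simp only []
    refine (abs_sub _ _).trans ?_
    apply add_le_add le_rfl
    split_ifs
    · exact le_rfl
    · rw [abs_zero]
      exact abs_nonneg _
  have hcen : ∑ u ∈ U, c u * wt u = 0 := by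
    rw [hc]
    have h1 : ∀ u ∈ U, (cL u - (if u = ∅ then ρ else 0)) * wt u = cL u * wt u - (if u = ∅ then ρ else 0) := by
      intro u _
      by_cases hu : u = ∅
      · subst hu
        simp [wt]
      · simp [hu]
    rw [Finset.sum_congr rfl h1, Finset.sum_sub_distrib, Finset.sum_ite_eq' U ∅ (fun _ => ρ), if_pos hU0, ← hρ, sub_self]
  have hblocks := blocks hC hη he hM0 hyz hz hB hU hU0 hUL hcM hcen hJ Jb hJb hdis hκ
  obtain ⟨Bad, hBad⟩ : ∃ Bad : ℕ → Prop, Bad = fun l => ∀ j ∈ J, (∀ p ∈ pz z, y < p → ¬ p ∣ W * l + β + j) →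
      ¬ ∀ p ∈ B, ¬ p ∣ W * l + β + j := ⟨_, rfl⟩
  obtain ⟨P1, hP1⟩ : ∃ P1 : Fin k → ℕ → Prop, P1 = fun i l =>
    ((Sv W β y z (Jb i) l).card : ℝ) < (Jb i).card * V / 2 := ⟨_, rfl⟩
  obtain ⟨P2, hP2⟩ : ∃ P2 : ℕ → Prop, P2 = fun l => ∀ i, (ρ * m0 / 2) ^ 2 ≤ (∑ j ∈ Jb i, YY W β y z c U J j l) ^ 2 :=
    ⟨_, rfl⟩
  have hsub : (Icc 1 N).filter Bad ⊆ (univ.biUnion fun i => (Icc 1 N).filter (P1 i)) ∪ (Icc 1 N).filter P2 := by
    intro l hl
    rw [mem_filter] at hl
    rw [mem_union, mem_biUnion]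
    by_cases h : ∃ i, P1 i l
    · obtain ⟨i, hi⟩ := h
      exact Or.inl ⟨i, mem_univ i, mem_filter.2 ⟨hl.1, hi⟩⟩
    · right
      push Not at h
      rw [mem_filter]
      refine ⟨hl.1, ?_⟩
      rw [hP2]
      intro i
      have h1 := h i
      rw [hP1] at h1
      simp only [not_lt] at h1
      have h2 : ∑ j ∈ Jb i, YY W β y z c U J j l ≤ -(ρ * (Sv W β y z (Jb i) l).card) := by
        have h3 : ∀ j ∈ Jb i, YY W β y z c U J j l ≤ if j ∈ Sv W β y z (Jb i) l then -ρ else 0 := by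
          intro j hj
          unfold YY
          have h4 : j ∈ Sv W β y z J l ↔ j ∈ Sv W β y z (Jb i) l := by
            unfold Sv
            rw [mem_filter, mem_filter]
            exact ⟨fun g => ⟨hj, g.2⟩, fun g => ⟨hJb i hj, g.2⟩⟩
          by_cases h5 : j ∈ Sv W β y z (Jb i) l
          · rw [if_pos (h4.2 h5), if_pos h5, hc, ww_center hU0]
            have h6 := hlow (W * l + β + j)
            have h7 : ¬ ∀ p ∈ B, ¬ p ∣ W * l + β + j := by
              have h8 := hl.2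
              rw [hBad] at h8
              apply h8 j (hJb i hj)
              unfold Sv at h5
              exact (mem_filter.1 h5).2
            rw [if_neg h7] at h6
            linarith
          · rw [if_neg (fun g => h5 (h4.1 g)), if_neg h5]
        refine (Finset.sum_le_sum h3).trans (le_of_eq ?_)
        rw [← Finset.sum_filter]
        have h9 : (Jb i).filter (fun j => j ∈ Sv W β y z (Jb i) l) = Sv W β y z (Jb i) l := by
          ext j
          rw [mem_filter]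
          exact ⟨fun g => g.2, fun g => ⟨Sv_sub W β y z (Jb i) l g, g⟩⟩
        rw [h9, Finset.sum_const, nsmul_eq_mul]
        ring
      have h10 : ρ * m0 / 2 ≤ ρ * (Sv W β y z (Jb i) l).card := by
        have := hm1 i
        nlinarith
      have h11 : 0 ≤ ρ * m0 / 2 := by positivity
      nlinarith
  have hcardle : (((Icc 1 N).filter Bad).card : ℝ) ≤ ∑ i, (((Icc 1 N).filter (P1 i)).card : ℝ) +
      (((Icc 1 N).filter P2).card : ℝ) := by
    have h1 := (card_le_card hsub).trans (card_union_le _ _)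
    have h2 : (univ.biUnion fun i => (Icc 1 N).filter (P1 i)).card ≤ ∑ i, ((Icc 1 N).filter (P1 i)).card := card_biUnion_le
    have h3 : ((Icc 1 N).filter Bad).card ≤ ∑ i, ((Icc 1 N).filter (P1 i)).card + ((Icc 1 N).filter P2).card :=
      h1.trans (Nat.add_le_add_right h2 _)
    exact_mod_cast h3
  rw [hBad] at hcardle
  refine le_trans (le_of_eq (by congr!)) (hcardle.trans ?_)
  have hm0' : 0 < m0 := by linarith
  have hJ0 : (0 : ℝ) ≤ J.card := Nat.cast_nonneg _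
  apply add_le_add
  · -- the blocks with few numbers
    have h1 : ∀ i ∈ (univ : Finset (Fin k)), (((Icc 1 N).filter (P1 i)).card : ℝ) ≤
        4 ^ k * ((2 * k).factorial * (2 * Real.exp K)) * N / m0 ^ k + (4 * J.card : ℝ) ^ (2 * k) * (η * N + e) := by
      intro i _
      obtain ⟨mu, hmu⟩ : ∃ mu, mu = ((Jb i).card : ℝ) * V := ⟨_, rfl⟩
      have hmu0 : m0 ≤ mu := by rw [hmu]; exact hm1 i
      have hmu1 : 1 ≤ mu := hm0.trans hmu0
      have hmuθ : 1 ≤ θ ^ 2 * mu := hθm.trans (mul_le_mul_of_nonneg_left hmu0 (by positivity))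
      have h2 := tr1 hyz hC (Jb i) (mu := mu) (by linarith) hκ
      have h3 := (mom hmu1 hθ hmuθ hK (fun lam hlam => by rw [hmu]; exact hE (Jb i) (hJb i) lam hlam) k).1
      have hJi : ((Jb i).card : ℝ) ≤ J.card := by exact_mod_cast card_le_card (hJb i)
      have hmuJ : mu ≤ J.card := by
        rw [hmu]
        calc ((Jb i).card : ℝ) * V ≤ J.card * 1 := mul_le_mul hJi hV1 hV hJ0
          _ = _ := mul_one _
      have h4 : ∑ l ∈ Icc 1 N, (((Sv W β y z (Jb i) l).card : ℝ) - mu) ^ (2 * k) ≤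
          N * ((2 * k).factorial * (2 * Real.exp K) * mu ^ k) + (2 * J.card : ℝ) ^ (2 * k) * (η * N + e) := by
        refine h2.trans ?_
        apply add_le_add
        · exact mul_le_mul_of_nonneg_left h3 (Nat.cast_nonneg _)
        · apply mul_le_mul_of_nonneg_right _ (by positivity)
          exact pow_le_pow_left₀ (by positivity) (by linarith) _
      have h5 := cheb (m := 0) (a := (mu / 2) ^ (2 * k)) (P := P1 i) (by positivity)
        (fun l _ => by rw [pow_mul]; positivity) (fun l _ hl => by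
          rw [hP1] at hl
          simp only [← hmu] at hl
          have h6 : (mu / 2) ^ (2 * k) ≤ |((Sv W β y z (Jb i) l).card : ℝ) - mu| ^ (2 * k) := by
            apply pow_le_pow_left₀ (by positivity)
            rw [abs_of_nonpos (by linarith)]
            linarith
          rw [pow_mul |_|, sq_abs, ← pow_mul] at h6
          exact h6) h4 rfl
      refine h5.trans ?_
      rw [add_div]
      apply add_le_add
      · have h7 : (mu / 2) ^ (2 * k) = mu ^ k * mu ^ k / 4 ^ k := by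
          rw [div_pow, ← pow_add, pow_mul 2, show k + k = 2 * k by ring]
          norm_num
        rw [h7]
        have hmk : 0 < mu ^ k := by positivity
        have h8 : (N : ℝ) * ((2 * k).factorial * (2 * Real.exp K) * mu ^ k) / (mu ^ k * mu ^ k / 4 ^ k) =
            4 ^ k * ((2 * k).factorial * (2 * Real.exp K)) * N / mu ^ k := by
          field_simp
        rw [h8]
        apply div_le_div_of_nonneg_left (by positivity) (by positivity)
        exact pow_le_pow_left₀ hm0'.le hmu0 k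
      · rw [div_le_iff₀ (by positivity)]
        have h9 : (1 / 2 : ℝ) ^ (2 * k) ≤ (mu / 2) ^ (2 * k) := pow_le_pow_left₀ (by norm_num) (by linarith) _
        have h10 : (4 * J.card : ℝ) ^ (2 * k) * (η * N + e) * (1 / 2 : ℝ) ^ (2 * k) = (2 * J.card : ℝ) ^ (2 * k) * (η * N + e) := by
          rw [mul_right_comm, ← mul_pow]
          congr 2
          ring
        rw [← h10]
        exact mul_le_mul_of_nonneg_left h9 (by positivity)
    refine (Finset.sum_le_sum h1).trans (le_of_eq ?_)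
    rw [Finset.sum_const, card_univ, Fintype.card_fin, nsmul_eq_mul]
  · -- the products
    have hmuJ1 : 1 ≤ (J.card : ℝ) * V := hm0.trans hm3
    have h3 := (mom hmuJ1 hθ (hθm.trans (mul_le_mul_of_nonneg_left hm3 (by positivity))) hK
      (fun lam hlam => hE J (Subset.refl J) lam hlam) k).2
    have hΞ0 : 0 ≤ ∏ p ∈ B, (1 + 2 ^ (2 * k) / (p : ℝ)) := Finset.prod_nonneg fun p _ => by positivity
    have hm10 : 0 ≤ m1 := by linarith
    have h4 : EL (Lst (y + 1) (z - y)) (fun S => (S.card : ℝ) ^ k) J ≤ k.factorial * Real.exp (1 + K) * m1 ^ k := by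
      refine h3.trans ?_
      apply mul_le_mul_of_nonneg_left _ (by positivity)
      exact pow_le_pow_left₀ (by linarith) hm2 k
    have h5 : ∑ l ∈ Icc 1 N, ∏ i, (∑ j ∈ Jb i, YY W β y z c U J j l) ^ 2 ≤
      M ^ (2 * k) * ((∏ p ∈ B, (1 + 2 ^ (2 * k) / (p : ℝ))) * N *
        (k.factorial * Real.exp (1 + K) * m1 ^ k) +
        (J.card : ℝ) ^ (2 * k) * (N * ((2 * k * L2 : ℝ) / z) * (∏ p ∈ B, (1 + 2 ^ (2 * k) / (p : ℝ))) ^ 2 +
          η * N * (∏ p ∈ B, (1 + 2 ^ (2 * k) / (p : ℝ))) + e * (U.card : ℝ) ^ (2 * k))) := by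
      refine hblocks.trans ?_
      apply mul_le_mul_of_nonneg_left _ (by positivity)
      apply add_le_add _ le_rfl
      exact mul_le_mul_of_nonneg_left h4 (by positivity)
    have h6 := cheb (m := 0) (a := ((ρ * m0 / 2) ^ 2) ^ k) (P := P2) (by positivity)
      (fun l _ => Finset.prod_nonneg fun i _ => sq_nonneg _) (fun l _ hl => by
        rw [hP2] at hl
        calc ((ρ * m0 / 2) ^ 2) ^ k = ∏ _i : Fin k, (ρ * m0 / 2) ^ 2 := by
              rw [Finset.prod_const, card_univ, Fintype.card_fin]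
          _ ≤ _ := Finset.prod_le_prod (fun _ _ => sq_nonneg _) (fun i _ => hl i)) h5 rfl
    refine h6.trans (le_of_eq ?_)
    have e1 : (2 * M / (ρ * m0)) ^ (2 * k) = M ^ (2 * k) / (ρ * m0 / 2) ^ (2 * k) := by
      rw [← div_pow]
      congr 1
      field_simp
    rw [e1, ← pow_mul]
    exact mul_div_right_comm _ _ _

end Pool.Agent.L7h6.TX
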