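import Mathlib

/-!
# Random sieve (helper6), part 13: parameters
-/

set_option autoImplicit false

namespace Pool.Agent.L7h6.TX

open Filter Real

lemma tendL : Tendsto (fun X : ℕ => log (X : ℝ)) atTop atTop := tendsto_log_atTop.comp tendsto_natCast_atTop_atTop

/-- powers of logarithms are small -/
lemma loglog_small (a : ℝ) (ha : 0 < a) (C : ℝ) (D : ℕ) :
    ∀ᶠ L : ℝ in atTop, C * (log L) ^ D ≤ L ^ a := by
  have h := isLittleO_log_rpow_rpow_atTop (s := a) (D : ℝ) ha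
  have h2 := h.bound (show 0 < 1 / (|C| + 1) by positivity)
  filter_upwards [h2, eventually_ge_atTop 1] with L hL hL1
  rw [rpow_natCast, norm_of_nonneg (pow_nonneg (log_nonneg hL1) D), norm_of_nonneg (by positivity)] at hL
  have h3 : 0 ≤ (log L) ^ D := pow_nonneg (log_nonneg hL1) D
  calc C * (log L) ^ D ≤ (|C| + 1) * (log L) ^ D := by
        apply mul_le_mul_of_nonneg_right _ h3
        linarith [le_abs_self C]
    _ ≤ (|C| + 1) * (1 / (|C| + 1) * L ^ a) := mul_le_mul_of_nonneg_left hL (by positivity)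
    _ = L ^ a := by field_simp

structure Pars (t0 y0 C0 x0 Cf k D : ℕ) (ε G L : ℝ) (X y h b z J2 : ℕ) : Prop where
  y0y : y0 ≤ y
  y2 : 2 ≤ y
  yh : y ^ t0 ≤ h
  yL : (y : ℝ) ≤ L
  hL : (k : ℝ) * h ≤ L ^ (1 + ε)
  Lh : L ^ (1 + ε) ≤ 2 * k * h
  hL2 : (k : ℝ) * h ≤ L ^ 2
  Cb : C0 ≤ b
  lb : log L ≤ b
  l1 : 1 ≤ log L
  hb : (1 / 2 : ℝ) ^ b ≤ L ^ (-G)
  xz : x0 ≤ z
  cz : 2 * Cf ≤ z
  yz : y ≤ z
  hz : k * h ≤ z
  z1 : L / (128 * C0 * b) ≤ log z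
  z2 : log z ≤ L / (64 * C0 * b)
  z3 : (z : ℝ) ^ (8 * (C0 * b)) ≤ (X : ℝ) ^ (1 / 8 : ℝ)
  z4 : L ^ (G + 3) ≤ z
  zZ : z ≤ 2 ^ 2 ^ J2
  Z1 : L / (2 * D) ≤ log ((2 ^ 2 ^ J2 : ℕ) : ℝ)
  Z2 : (2 ^ 2 ^ J2) ^ D ≤ X
  J2b : (J2 : ℝ) + 3 ≤ 6 * b
  hyz : ((k * h : ℕ) : ℝ) * log ((k * h : ℕ) : ℝ) ≤ y * log z
  W4 : (4 : ℝ) ^ y ≤ (X : ℝ) ^ (1 / 8 : ℝ)

lemma pJ2 {D X : ℕ} (hD : 1 ≤ D) (hX2 : 2 ^ (2 * D) ≤ X) :
    ∃ J2 : ℕ, log X / (2 * D) ≤ log ((2 ^ 2 ^ J2 : ℕ) : ℝ) ∧ (2 ^ 2 ^ J2) ^ D ≤ X ∧ (2 : ℝ) ^ J2 ≤ 2 * log X := by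
  have hDr : (1 : ℝ) ≤ D := by exact_mod_cast hD
  have hXpos : 0 < X := lt_of_lt_of_le (Nat.two_pow_pos _) hX2
  have hXr : (0 : ℝ) < X := by exact_mod_cast hXpos
  obtain ⟨n, hn⟩ : ∃ n, n = Nat.log 2 X := ⟨_, rfl⟩
  have hn1 : 2 ^ n ≤ X := by rw [hn]; exact Nat.pow_log_le_self 2 hXpos.ne'
  have hn2 : X < 2 ^ (n + 1) := by rw [hn]; exact Nat.lt_pow_succ_log_self (by norm_num) X
  have hnD : 2 * D ≤ n := by rw [hn]; exact Nat.le_log_of_pow_le (by norm_num) hX2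
  obtain ⟨q, hq⟩ : ∃ q, q = n / D := ⟨_, rfl⟩
  have hq1 : q * D ≤ n := by rw [hq]; exact Nat.div_mul_le_self n D
  have hq2 : n < (q + 1) * D := by
    rw [hq]
    have := Nat.lt_div_mul_add (a := n) (b := D) (by omega)
    rw [add_mul, one_mul]
    exact this
  have hq0 : q ≠ 0 := by
    intro h0
    rw [h0, zero_add, one_mul] at hq2
    omega
  obtain ⟨J2, hJ2⟩ : ∃ J2, J2 = Nat.log 2 q := ⟨_, rfl⟩
  have hJ1 : 2 ^ J2 ≤ q := by rw [hJ2]; exact Nat.pow_log_le_self 2 hq0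
  have hJ3 : q + 1 ≤ 2 ^ (J2 + 1) := by rw [hJ2]; exact Nat.lt_pow_succ_log_self (by norm_num) q
  have hl2 : 0 < log 2 := log_pos (by norm_num)
  have hl2'' : 1 / 2 ≤ log 2 := by have := log_two_gt_d9; linarith
  have hLn : log X ≤ (n + 1) * log 2 := by
    have h1 : (X : ℝ) ≤ (2 : ℝ) ^ (n + 1) := by exact_mod_cast hn2.le
    have h2 := log_le_log hXr h1
    rw [log_pow] at h2
    push_cast at h2
    exact h2
  have hnL : (n : ℝ) * log 2 ≤ log X := by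
    have h1 : (2 : ℝ) ^ n ≤ X := by exact_mod_cast hn1
    have h2 := log_le_log (by positivity) h1
    rwa [log_pow] at h2
  have hZlog : log ((2 ^ 2 ^ J2 : ℕ) : ℝ) = 2 ^ J2 * log 2 := by
    push_cast
    rw [log_pow]
    push_cast
    rfl
  refine ⟨J2, ?_, ?_, ?_⟩
  · rw [hZlog, div_le_iff₀ (by positivity)]
    have h1 : n + 1 ≤ 2 ^ J2 * (2 * D) := by
      have h2 : (q + 1) * D ≤ 2 ^ (J2 + 1) * D := Nat.mul_le_mul_right D hJ3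
      calc n + 1 ≤ (q + 1) * D := hq2
        _ ≤ 2 ^ (J2 + 1) * D := h2
        _ = 2 ^ J2 * (2 * D) := by rw [pow_succ]; ring
    have h2 : ((n : ℝ) + 1) ≤ 2 ^ J2 * (2 * D) := by exact_mod_cast h1
    calc log X ≤ (n + 1) * log 2 := hLn
      _ ≤ (2 ^ J2 * (2 * D)) * log 2 := mul_le_mul_of_nonneg_right h2 hl2.le
      _ = _ := by ring
  · calc (2 ^ 2 ^ J2) ^ D = 2 ^ (2 ^ J2 * D) := by rw [← pow_mul]
      _ ≤ 2 ^ n := Nat.pow_le_pow_right (by norm_num) ((Nat.mul_le_mul_right D hJ1).trans hq1)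
      _ ≤ X := hn1
  · have h2 : ((2 ^ J2 : ℕ) : ℝ) ≤ n := by
      have : 2 ^ J2 ≤ n := hJ1.trans (by rw [hq]; exact Nat.div_le_self n D)
      exact_mod_cast this
    push_cast at h2
    have h3 : (n : ℝ) ≤ 2 * log X := by nlinarith
    linarith

lemma pexp {u : ℝ} (hu : 8 ≤ u) : ∃ z : ℕ, (z : ℝ) ≤ exp u ∧ exp (u / 2) ≤ z ∧ u / 2 ≤ log z ∧ log z ≤ u := by
  have hz1 : ((⌊exp u⌋₊ : ℕ) : ℝ) ≤ exp u := Nat.floor_le (exp_pos _).le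
  have hz2 : exp (u / 2) ≤ ((⌊exp u⌋₊ : ℕ) : ℝ) := by
    have h1 : exp u < ((⌊exp u⌋₊ : ℕ) : ℝ) + 1 := Nat.lt_floor_add_one _
    have h2 : exp u = exp (u / 2) * exp (u / 2) := by rw [← exp_add]; congr 1; ring
    have h3 : u / 2 + 1 ≤ exp (u / 2) := add_one_le_exp _
    nlinarith
  have hz0 : (0 : ℝ) < ((⌊exp u⌋₊ : ℕ) : ℝ) := lt_of_lt_of_le (exp_pos _) hz2
  refine ⟨⌊exp u⌋₊, hz1, hz2, ?_, ?_⟩
  · have := log_le_log (exp_pos _) hz2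
    rwa [log_exp] at this
  · have := log_le_log hz0 hz1
    rwa [log_exp] at this

lemma py {L : ℝ} {t0 : ℕ} (ht0 : 2 ≤ t0) (hL : 1 ≤ L) (h4 : 2 ≤ L ^ (1 / (t0 : ℝ))) :
    ∃ y : ℕ, (y : ℝ) ≤ L ^ (1 / (t0 : ℝ)) ∧ L ^ (1 / (t0 : ℝ)) / 2 ≤ y ∧ (y : ℝ) ^ t0 ≤ L := by
  have hL0 : 0 < L := by linarith
  have ht0r : (2 : ℝ) ≤ t0 := by exact_mod_cast ht0
  have hy1 : ((⌊L ^ (1 / (t0 : ℝ))⌋₊ : ℕ) : ℝ) ≤ L ^ (1 / (t0 : ℝ)) := Nat.floor_le (by positivity)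
  refine ⟨⌊L ^ (1 / (t0 : ℝ))⌋₊, hy1, ?_, ?_⟩
  · have h1 : L ^ (1 / (t0 : ℝ)) < ((⌊L ^ (1 / (t0 : ℝ))⌋₊ : ℕ) : ℝ) + 1 := Nat.lt_floor_add_one _
    linarith
  · calc ((⌊L ^ (1 / (t0 : ℝ))⌋₊ : ℕ) : ℝ) ^ t0 ≤ (L ^ (1 / (t0 : ℝ))) ^ t0 := pow_le_pow_left₀ (Nat.cast_nonneg _) hy1 _
      _ = L := by
        rw [← rpow_natCast, ← rpow_mul hL0.le, one_div, inv_mul_cancel₀ (by positivity), rpow_one]

lemma ph {L ε k : ℝ} (hk : 1 ≤ k) (hL : 1 ≤ L) (hε : 0 < ε) (hε1 : ε ≤ 1 / 2) (h3 : 4 * k ≤ L ^ ε) :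
    ∃ h : ℕ, k * h ≤ L ^ (1 + ε) ∧ L ^ (1 + ε) ≤ 2 * k * h ∧ L ≤ h ∧ L ^ (1 + ε) ≤ L ^ 2 := by
  have hL0 : 0 < L := by linarith
  have hk0 : 0 < k := by linarith
  have hLe : L ^ (1 + ε) = L * L ^ ε := by rw [rpow_add hL0, rpow_one]
  have hh1 : ((⌊L ^ (1 + ε) / k⌋₊ : ℕ) : ℝ) ≤ L ^ (1 + ε) / k := Nat.floor_le (by positivity)
  have hkh : k * ((⌊L ^ (1 + ε) / k⌋₊ : ℕ) : ℝ) ≤ L ^ (1 + ε) := by
    rw [le_div_iff₀ hk0] at hh1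
    linarith
  have hLL : 4 * k * L ≤ L ^ (1 + ε) := by rw [hLe]; nlinarith
  have h1 : L ^ (1 + ε) / k < ((⌊L ^ (1 + ε) / k⌋₊ : ℕ) : ℝ) + 1 := Nat.lt_floor_add_one _
  obtain ⟨h, hh⟩ : ∃ h, h = ⌊L ^ (1 + ε) / k⌋₊ := ⟨_, rfl⟩
  rw [← hh] at h1 hkh
  rw [div_lt_iff₀ hk0] at h1
  have hh2 : L ^ (1 + ε) ≤ 2 * k * h := by nlinarith
  refine ⟨h, hkh, hh2, ?_, ?_⟩
  · by_contra hc
    push Not at hc
    have : 2 * k * (h : ℝ) < 2 * k * L := mul_lt_mul_of_pos_left hc (by positivity)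
    nlinarith
  · calc L ^ (1 + ε) ≤ L ^ (2 : ℝ) := rpow_le_rpow_of_exponent_le hL (by linarith)
      _ = L ^ 2 := by rw [← rpow_natCast]; norm_num

lemma phyz {L ε u b C0 Γ kh lz y : ℝ} {t0 : ℕ} (hL : 3 ≤ L) (hC0 : 1 ≤ C0) (hΓ : 1 ≤ Γ) (hb0 : 0 < b)
    (hu : u = L / (64 * C0 * b)) (hb2 : b ≤ 2 * Γ * log L) (hkh1 : 1 ≤ kh) (hkh : kh ≤ L ^ (1 + ε)) (hkh2 : kh ≤ L ^ 2)
    (hy : L ^ (1 / (t0 : ℝ)) / 2 ≤ y) (hlz : u / 2 ≤ lz)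
    (f6 : 4096 * C0 * Γ * (log L) ^ 2 ≤ L ^ (1 / (t0 : ℝ) - ε)) : kh * log kh ≤ y * lz := by
  have hL0 : 0 < L := by linarith
  have hl : 0 < log L := log_pos (by linarith)
  have hC0' : 0 < C0 := by linarith
  have hΓ0 : 0 < Γ := by linarith
  have hu0 : 0 < u := by rw [hu]; positivity
  have h1 : log kh ≤ 2 * log L := by
    calc log kh ≤ log (L ^ 2) := log_le_log (by linarith) hkh2
      _ = 2 * log L := by rw [log_pow]; push_cast; ring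
  have h2 : kh * log kh ≤ L ^ (1 + ε) * (2 * log L) := mul_le_mul hkh h1 (log_nonneg hkh1) (by positivity)
  refine h2.trans ?_
  have hy0 : 0 ≤ y := le_trans (by positivity) hy
  have h3 : L ^ (1 / (t0 : ℝ)) / 2 * (u / 2) ≤ y * lz := mul_le_mul hy hlz (by positivity) hy0
  refine le_trans ?_ h3
  rw [hu]
  have h4 : L ^ (1 / (t0 : ℝ)) / 2 * (L / (64 * C0 * b) / 2) = L ^ (1 / (t0 : ℝ)) * L / (256 * C0 * b) := by
    field_simp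
    norm_num
  rw [h4, le_div_iff₀ (by positivity)]
  have h5 : L ^ (1 / (t0 : ℝ)) = L ^ (1 / (t0 : ℝ) - ε) * L ^ ε := by
    rw [← rpow_add hL0]
    congr 1
    ring
  have g1 : (2 * log L) * (256 * C0 * b) ≤ 4096 * C0 * Γ * (log L) ^ 2 := by
    calc (2 * log L) * (256 * C0 * b) ≤ (2 * log L) * (256 * C0 * (2 * Γ * log L)) := by
          apply mul_le_mul_of_nonneg_left _ (by positivity)
          exact mul_le_mul_of_nonneg_left hb2 (by positivity)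
      _ = 1024 * (C0 * Γ * (log L) ^ 2) := by ring
      _ ≤ 4096 * (C0 * Γ * (log L) ^ 2) := by
        apply mul_le_mul_of_nonneg_right (by norm_num) (by positivity)
      _ = _ := by ring
  have h6 : L ^ (1 + ε) * (2 * log L) * (256 * C0 * b) ≤ L ^ (1 + ε) * (4096 * C0 * Γ * (log L) ^ 2) := by
    calc L ^ (1 + ε) * (2 * log L) * (256 * C0 * b) = L ^ (1 + ε) * ((2 * log L) * (256 * C0 * b)) := by ring
      _ ≤ _ := mul_le_mul_of_nonneg_left g1 (by positivity)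
  refine h6.trans ((mul_le_mul_of_nonneg_left f6 (by positivity)).trans (le_of_eq ?_))
  rw [h5, rpow_add hL0, rpow_one]
  ring

lemma pW {L : ℝ} {y : ℕ} (hL : 1 ≤ L) (hy : (y : ℝ) ≤ L ^ (1 / 2 : ℝ)) (h8 : 32 ≤ L ^ (1 / 4 : ℝ)) :
    (4 : ℝ) ^ y ≤ exp (L * (1 / 8)) := by
  have hL0 : 0 < L := by linarith
  have h1 : (4 : ℝ) ^ y = exp (y * log 4) := by
    rw [mul_comm, exp_mul, exp_log (by norm_num), rpow_natCast]
  rw [h1]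
  apply exp_le_exp.2
  have h2 : log 4 ≤ 2 := by
    rw [show (4 : ℝ) = 2 ^ 2 by norm_num, log_pow]
    push_cast
    have := log_two_lt_d9
    linarith
  have h3 : (y : ℝ) * log 4 ≤ L ^ (1 / 2 : ℝ) * 2 :=
    mul_le_mul hy h2 (log_nonneg (by norm_num)) (by positivity)
  have h5 : L = L ^ (1 / 2 : ℝ) * L ^ (1 / 2 : ℝ) := by rw [← rpow_add hL0]; norm_num
  have h7 : L ^ (1 / 4 : ℝ) ≤ L ^ (1 / 2 : ℝ) := rpow_le_rpow_of_exponent_le hL (by norm_num)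
  have h6 : 16 ≤ L ^ (1 / 2 : ℝ) := by linarith
  have h4 : 16 * L ^ (1 / 2 : ℝ) ≤ L := by
    calc 16 * L ^ (1 / 2 : ℝ) ≤ L ^ (1 / 2 : ℝ) * L ^ (1 / 2 : ℝ) := mul_le_mul_of_nonneg_right h6 (by positivity)
      _ = L := h5.symm
  linarith

lemma pbG {L G : ℝ} {b Γ : ℕ} (hL : 3 ≤ L) (hΓG : 2 * G ≤ Γ) (hb1 : (Γ : ℝ) * log L ≤ b) :
    (1 / 2 : ℝ) ^ b ≤ L ^ (-G) := by
  have hL0 : 0 < L := by linarith
  have hl : 0 < log L := log_pos (by linarith)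
  have h1 : (1 / 2 : ℝ) ^ b = exp (-(b * log 2)) := by
    rw [one_div, inv_pow, exp_neg, mul_comm, exp_mul, exp_log (by norm_num), rpow_natCast]
  rw [h1, rpow_def_of_pos hL0]
  apply exp_le_exp.2
  have hl2 : 1 / 2 ≤ log 2 := by have := log_two_gt_d9; linarith
  have h3 : 2 * G * log L ≤ b := (mul_le_mul_of_nonneg_right hΓG hl.le).trans hb1
  have hb0 : (0 : ℝ) ≤ b := Nat.cast_nonneg _
  have h4 : (b : ℝ) * (1 / 2) ≤ b * log 2 := mul_le_mul_of_nonneg_left hl2 hb0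
  linarith

theorem par (t0 y0 C0 x0 Cf k D Γ : ℕ) (ε G : ℝ) (ht0 : 2 ≤ t0) (hC0 : 1 ≤ C0) (hk : 1 ≤ k) (hD : 1 ≤ D) (hΓ : 1 ≤ Γ)
    (hG : 0 < G) (hΓG : 2 * G ≤ Γ) (hε : 0 < ε) (hεt : ε < 1 / t0) :
    ∀ᶠ X : ℕ in atTop, ∃ y h z J2 : ℕ, Pars t0 y0 C0 x0 Cf k D ε G (log X) X y h ⌈(Γ : ℝ) * log (log X)⌉₊ z J2 := by
  have ht0r : (2 : ℝ) ≤ t0 := by exact_mod_cast ht0
  have hkr : (1 : ℝ) ≤ k := by exact_mod_cast hk
  have hC0r : (1 : ℝ) ≤ C0 := by exact_mod_cast hC0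
  have hΓr : (1 : ℝ) ≤ Γ := by exact_mod_cast hΓ
  have ht1 : 1 / (t0 : ℝ) ≤ 1 / 2 := one_div_le_one_div_of_le (by norm_num) ht0r
  have hε1 : ε ≤ 1 / 2 := hεt.le.trans ht1
  obtain ⟨M0, hM0⟩ : ∃ M0 : ℕ, M0 = C0 + x0 + 2 * Cf + y0 + 4 * k + D + 10 := ⟨_, rfl⟩
  have cC0 : (C0 : ℝ) ≤ M0 := by exact_mod_cast (by omega : C0 ≤ M0)
  have cx0 : (x0 : ℝ) ≤ M0 := by exact_mod_cast (by omega : x0 ≤ M0)
  have cCf : ((2 * Cf : ℕ) : ℝ) ≤ M0 := by exact_mod_cast (by omega : 2 * Cf ≤ M0)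
  have cy0 : (y0 : ℝ) ≤ M0 := by exact_mod_cast (by omega : y0 ≤ M0)
  have ck : ((4 * k : ℕ) : ℝ) ≤ M0 := by exact_mod_cast (by omega : 4 * k ≤ M0)
  have cD : (D : ℝ) ≤ M0 := by exact_mod_cast (by omega : D ≤ M0)
  have c10 : (10 : ℝ) ≤ M0 := by exact_mod_cast (by omega : 10 ≤ M0)
  have hreal : ∀ᶠ L : ℝ in atTop, (M0 : ℝ) ≤ L ∧ (M0 : ℝ) ≤ log L ∧ (M0 : ℝ) ≤ L ^ ε ∧ 2 * (M0 : ℝ) ≤ L ^ (1 / (t0 : ℝ)) ∧
      256 * C0 * Γ * (log L) ^ 1 ≤ L ^ (1 / 4 : ℝ) ∧ 4096 * C0 * Γ * (log L) ^ 2 ≤ L ^ (1 / (t0 : ℝ) - ε) ∧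
      2 * (G + 3) * (log L) ^ 1 ≤ L ^ (1 / 4 : ℝ) ∧ 32 ≤ L ^ (1 / 4 : ℝ) := by
    filter_upwards [eventually_ge_atTop (M0 : ℝ), tendsto_log_atTop.eventually_ge_atTop (M0 : ℝ),
      (tendsto_rpow_atTop hε).eventually_ge_atTop (M0 : ℝ),
      (tendsto_rpow_atTop (show 0 < 1 / (t0 : ℝ) by positivity)).eventually_ge_atTop (2 * (M0 : ℝ)),
      loglog_small (1 / 4) (by norm_num) (256 * C0 * Γ) 1,
      loglog_small (1 / (t0 : ℝ) - ε) (by linarith) (4096 * C0 * Γ) 2,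
      loglog_small (1 / 4) (by norm_num) (2 * (G + 3)) 1,
      (tendsto_rpow_atTop (show (0 : ℝ) < 1 / 4 by norm_num)).eventually_ge_atTop 32] with L h1 h2 h3 h4 h5 h6 h7 h8
    exact ⟨h1, h2, h3, h4, h5, h6, h7, h8⟩
  filter_upwards [tendL.eventually hreal, eventually_ge_atTop (2 ^ (2 * D))] with X hX hX2
  obtain ⟨L, hL⟩ : ∃ L, L = log (X : ℝ) := ⟨_, rfl⟩
  obtain ⟨J2, hZ1, hZ2, hJ2⟩ := pJ2 hD hX2
  rw [← hL] at hX hZ1 hJ2 ⊢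
  obtain ⟨f1, f2, f3, f4, f5, f6, f7, f8⟩ := hX
  rw [pow_one] at f5 f7
  have hXpos : 0 < X := lt_of_lt_of_le (Nat.two_pow_pos _) hX2
  have hXr : (0 : ℝ) < X := by exact_mod_cast hXpos
  have hL10 : 10 ≤ L := c10.trans f1
  have hL0 : 0 < L := by linarith
  have hlL : 10 ≤ log L := c10.trans f2
  have hXL : ∀ a : ℝ, (X : ℝ) ^ a = exp (L * a) := fun a => by rw [rpow_def_of_pos hXr, hL]
  obtain ⟨b, hb⟩ : ∃ b, b = ⌈(Γ : ℝ) * log L⌉₊ := ⟨_, rfl⟩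
  rw [← hb]
  have hb1 : (Γ : ℝ) * log L ≤ b := by rw [hb]; exact Nat.le_ceil _
  have hΓl : log L ≤ Γ * log L := le_mul_of_one_le_left (by linarith) hΓr
  have hb2 : (b : ℝ) ≤ 2 * Γ * log L := by
    have h1 : (b : ℝ) < Γ * log L + 1 := by rw [hb]; exact Nat.ceil_lt_add_one (by positivity)
    linarith
  have hblog : log L ≤ b := hΓl.trans hb1
  have hb10 : (10 : ℝ) ≤ b := hlL.trans hblog
  have hb0 : (0 : ℝ) < b := by linarith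
  obtain ⟨y, hy1, hy2, hyt⟩ := py ht0 (by linarith) (by linarith : 2 ≤ L ^ (1 / (t0 : ℝ)))
  have hyM : (M0 : ℝ) ≤ y := by linarith
  have hLhalf : L ^ (1 / (t0 : ℝ)) ≤ L ^ (1 / 2 : ℝ) := rpow_le_rpow_of_exponent_le (by linarith) ht1
  have hLhalf1 : L ^ (1 / 2 : ℝ) ≤ L := by
    calc L ^ (1 / 2 : ℝ) ≤ L ^ (1 : ℝ) := rpow_le_rpow_of_exponent_le (by linarith) (by norm_num)
      _ = L := rpow_one L
  have hLk : 4 * (k : ℝ) ≤ L ^ ε := by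
    push_cast at ck
    exact ck.trans f3
  obtain ⟨h, hkh, hh2, hhL, hL2⟩ := ph hkr (by linarith) hε hε1 hLk
  obtain ⟨u, hu⟩ : ∃ u, u = L / (64 * C0 * b) := ⟨_, rfl⟩
  have hu1 : L ^ (3 / 4 : ℝ) ≤ u := by
    rw [hu, le_div_iff₀ (by positivity)]
    have h1 : 64 * C0 * b ≤ L ^ (1 / 4 : ℝ) := by
      have g1 : 64 * (C0 : ℝ) * b ≤ 64 * C0 * (2 * Γ * log L) := mul_le_mul_of_nonneg_left hb2 (by positivity)
      have g2 : 0 ≤ (C0 : ℝ) * Γ * log L := by positivity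
      linarith
    calc L ^ (3 / 4 : ℝ) * (64 * C0 * b) ≤ L ^ (3 / 4 : ℝ) * L ^ (1 / 4 : ℝ) :=
          mul_le_mul_of_nonneg_left h1 (by positivity)
      _ = L := by rw [← rpow_add hL0]; norm_num
  have hL14 : L ^ (1 / 4 : ℝ) ≤ L ^ (3 / 4 : ℝ) := rpow_le_rpow_of_exponent_le (by linarith) (by norm_num)
  have hu32 : 32 ≤ u := (f8.trans hL14).trans hu1
  obtain ⟨z, hz1, hz2, hlz1, hlz2⟩ := pexp (by linarith : 8 ≤ u)
  have hz0 : (0 : ℝ) < z := lt_of_lt_of_le (exp_pos _) hz2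
  have hz4 : L ^ (G + 3) ≤ z := by
    refine le_trans ?_ hz2
    rw [rpow_def_of_pos hL0]
    apply exp_le_exp.2
    have h1 : 2 * ((G + 3) * log L) ≤ u := by
      calc 2 * ((G + 3) * log L) = 2 * (G + 3) * log L := by ring
        _ ≤ L ^ (1 / 4 : ℝ) := f7
        _ ≤ _ := hL14.trans hu1
    linarith
  have hzL : L ^ 2 ≤ z := by
    refine le_trans ?_ hz4
    calc L ^ 2 = L ^ (2 : ℝ) := by rw [← rpow_natCast]; norm_num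
      _ ≤ _ := rpow_le_rpow_of_exponent_le (by linarith) (by linarith)
  have hLsq : L ≤ L ^ 2 := by rw [sq]; exact le_mul_of_one_le_left hL0.le (by linarith)
  have hzL1 : L ≤ z := hLsq.trans hzL
  have hl2 : 0 < log 2 := log_pos (by norm_num)
  have hl2' : log 2 ≤ 1 := by have := log_two_lt_d9; linarith
  have hl2'' : 1 / 2 ≤ log 2 := by have := log_two_gt_d9; linarith
  have hJb : (J2 : ℝ) + 3 ≤ 6 * b := by
    have h2 := log_le_log (by positivity) hJ2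
    rw [log_pow, log_mul (by norm_num) hL0.ne'] at h2
    have h4 : (0 : ℝ) ≤ J2 := Nat.cast_nonneg _
    have h5 : (J2 : ℝ) * (1 / 2) ≤ J2 * log 2 := mul_le_mul_of_nonneg_left hl2'' h4
    linarith
  have hcast : ((k * h : ℕ) : ℝ) = k * h := by push_cast; rfl
  have hkh1 : (1 : ℝ) ≤ k * h := by
    have : (1 : ℝ) * 1 ≤ k * h := mul_le_mul hkr (by linarith) (by norm_num) (by linarith)
    linarith
  have hzZ : z ≤ 2 ^ 2 ^ J2 := by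
    have h1 : log z ≤ log ((2 ^ 2 ^ J2 : ℕ) : ℝ) := by
      refine hlz2.trans (le_trans ?_ hZ1)
      rw [hu]
      have h3 : (b : ℝ) ≤ C0 * b := le_mul_of_one_le_left hb0.le hC0r
      have hD0 : (0 : ℝ) < D := by exact_mod_cast hD
      apply div_le_div_of_nonneg_left hL0.le (by positivity)
      linarith
    have h2 : (z : ℝ) ≤ ((2 ^ 2 ^ J2 : ℕ) : ℝ) := (log_le_log_iff hz0 (by positivity)).1 h1
    exact_mod_cast h2
  have ehyz := phyz (t0 := t0) (ε := ε) (by linarith : 3 ≤ L) hC0r hΓr hb0 hu hb2 hkh1 hkh (hkh.trans hL2) hy2 hlz1 f6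
  have eW := pW (by linarith : 1 ≤ L) (hy1.trans hLhalf) f8
  have eb := pbG (by linarith : 3 ≤ L) hΓG hb1
  have ez3 : (z : ℝ) ^ (8 * (C0 * b)) ≤ (X : ℝ) ^ (1 / 8 : ℝ) := by
    rw [hXL]
    calc (z : ℝ) ^ (8 * (C0 * b)) ≤ (exp u) ^ (8 * (C0 * b)) := pow_le_pow_left₀ hz0.le hz1 _
      _ = exp ((8 * (C0 * b) : ℕ) * u) := by rw [exp_nat_mul]
      _ = exp (L * (1 / 8)) := by
        congr 1
        rw [hu]
        push_cast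
        field_simp
        norm_num
  refine ⟨y, h, z, J2, ?_⟩
  constructor
  · exact_mod_cast cy0.trans hyM
  · have : ((2 : ℕ) : ℝ) ≤ y := le_trans (by push_cast; linarith) hyM
    exact_mod_cast this
  · have : ((y ^ t0 : ℕ) : ℝ) ≤ h := by push_cast; linarith
    exact_mod_cast this
  · linarith
  · exact hkh
  · exact hh2
  · exact hkh.trans hL2
  · exact_mod_cast (cC0.trans f2).trans hblog
  · exact hblog
  · linarith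
  · exact eb
  · exact_mod_cast (cx0.trans f1).trans hzL1
  · exact_mod_cast (cCf.trans f1).trans hzL1
  · have : (y : ℝ) ≤ z := by linarith
    exact_mod_cast this
  · have : ((k * h : ℕ) : ℝ) ≤ z := by rw [hcast]; exact (hkh.trans hL2).trans hzL
    exact_mod_cast this
  · have : L / (128 * C0 * b) = u / 2 := by rw [hu]; field_simp; norm_num
    rw [this]
    exact hlz1
  · rw [← hu]; exact hlz2
  · exact ez3
  · exact hz4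
  · exact hzZ
  · exact hZ1
  · exact hZ2
  · exact hJb
  · rw [hcast]; exact ehyz
  · rw [hXL]; exact eW

end Pool.Agent.L7h6.TX
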