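import Pool.Agent.L7h6.TX.Num
import Pool.Agent.L7h6.TX.Loc
import Pool.Agent.L7h6.TX.Par
import Pool.Agent.L7h6.TX.Fin

/-!
# Random sieve (helper6), part 15: one residue class, with the parameters
-/

set_option autoImplicit false

namespace Pool.Agent.L7h6.TX

open Finset Real
open Pool.Agent.H373R2.T7

open Classical in
/-- the exceptional numbers `l` of one class -/
noncomputable def Exl (W β H N : ℕ) (R : ℝ) : Finset ℕ :=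
  (Icc 1 N).filter (fun l => ∀ j ∈ Icc 1 H, ∃ p : ℕ, p.Prime ∧ p ∣ W * l + β + j ∧ (p : ℝ) < R)

open Classical in
lemma Exl_sub {W β H N y z Z : ℕ} {R : ℝ} (hW : ∀ p ∈ pz y, p ∣ W) (hR : R ≤ Z) :
    Exl W β H N R ⊆ (Icc 1 N).filter (fun l => ∀ j ∈ JA β y H, (∀ p ∈ pz z, y < p → ¬ p ∣ W * l + β + j) →
      ¬ ∀ p ∈ PB z Z, ¬ p ∣ W * l + β + j) := by
  intro l hl
  unfold Exl at hl
  rw [mem_filter] at hl ⊢
  refine ⟨hl.1, fun j hj hj2 hj3 => ?_⟩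
  unfold JA at hj
  rw [mem_filter] at hj
  obtain ⟨p, hp, hpd, hpR⟩ := hl.2 j hj.1
  have hpZ : p ≤ Z := by exact_mod_cast (hpR.le.trans hR)
  rcases le_or_gt p y with h1 | h1
  · have h2 : p ∈ pz y := mem_pz.2 ⟨h1, hp⟩
    apply hj.2 p h2
    have h3 : p ∣ W * l := (hW p h2).mul_right l
    have h4 : W * l + β + j = W * l + (β + j) := by ring
    rw [h4] at hpd
    exact (Nat.dvd_add_right h3).1 hpd
  · rcases le_or_gt p z with h2 | h2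
    · exact hj2 p (mem_pz.2 ⟨h2, hp⟩) h1 hpd
    · exact hj3 p (mem_PB.2 ⟨hp, h2, hpZ⟩) hpd

/-- the constant -/
noncomputable def Cc (k : ℕ) (K c8 : ℝ) : ℝ :=
  k * ((4 ^ k * ((2 * k).factorial * (2 * Real.exp K))) / c8 ^ k + 2 * 4 ^ (2 * k)) +
    (2 / c8) ^ (2 * k) * (k.factorial * Real.exp (1 + K) + 3)

/-- the sizes which do not depend on the residue class -/
lemma sizes {X W z C0 b Cf k D J2 : ℕ} {L G : ℝ} (hX : 1 ≤ X) (hL : L = log X) (hL1 : 1 ≤ L) (hG : 0 ≤ G)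
    (hW1 : 1 ≤ W) (hW : (W : ℝ) ≤ (X : ℝ) ^ (1 / 8 : ℝ)) (hz1 : 1 ≤ z)
    (hz : (z : ℝ) ^ (8 * (C0 * b)) ≤ (X : ℝ) ^ (1 / 8 : ℝ)) (hz4 : L ^ (G + 3) ≤ z)
    (hD : D = 16 * k * (Cf * (2 * Cf))) (hk : 1 ≤ k) (hCf : 1 ≤ Cf)
    (hZ : (2 ^ 2 ^ J2) ^ D ≤ X) (hLG : L ^ G ≤ (X : ℝ) ^ (1 / 2 : ℝ)) (hkL : 4 * k ≤ L) {Uc : ℕ}
    (hUc : Uc ≤ (2 ^ 2 ^ J2) ^ (Cf * (2 * Cf))) :
    √((z ^ (16 * (C0 * b)) : ℕ) : ℝ) ≤ L ^ (-G) * ((X / W + 1 : ℕ) : ℝ) ∧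
    √((z ^ (16 * (C0 * b)) : ℕ) : ℝ) * (Uc : ℝ) ^ (2 * k) ≤ L ^ (-G) * ((X / W + 1 : ℕ) : ℝ) ∧
    (2 * k * (Nat.log 2 ((2 ^ 2 ^ J2) ^ (Cf * (2 * Cf))) : ℕ) : ℝ) / z ≤ L ^ (-G) := by
  have hL0 : 0 < L := by linarith
  have hXr : (1 : ℝ) ≤ X := by exact_mod_cast hX
  have hX0 : (0 : ℝ) < X := by linarith
  have hWr : (0 : ℝ) < W := by exact_mod_cast hW1
  obtain ⟨e, he⟩ : ∃ e, e = √((z ^ (16 * (C0 * b)) : ℕ) : ℝ) := ⟨_, rfl⟩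
  have he1 : e = (z : ℝ) ^ (8 * (C0 * b)) := by
    rw [he, Nat.cast_pow, show 16 * (C0 * b) = 8 * (C0 * b) * 2 by ring, pow_mul]
    exact Real.sqrt_sq (by positivity)
  rw [← he]
  have he2 : e ≤ (X : ℝ) ^ (1 / 8 : ℝ) := by rw [he1]; exact hz
  have he0 : 0 ≤ e := by rw [he]; exact Real.sqrt_nonneg _
  -- N
  have hN : (X : ℝ) ^ (7 / 8 : ℝ) ≤ ((X / W + 1 : ℕ) : ℝ) := by
    have h1 : (X : ℝ) / W ≤ ((X / W + 1 : ℕ) : ℝ) := by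
      rw [div_le_iff₀ hWr]
      have h2 : X ≤ (X / W + 1) * W := by
        rw [add_mul, one_mul]
        exact (Nat.lt_div_mul_add (by omega)).le
      exact_mod_cast h2
    refine le_trans ?_ h1
    rw [le_div_iff₀ hWr]
    calc (X : ℝ) ^ (7 / 8 : ℝ) * W ≤ (X : ℝ) ^ (7 / 8 : ℝ) * (X : ℝ) ^ (1 / 8 : ℝ) :=
          mul_le_mul_of_nonneg_left hW (by positivity)
      _ = X := by rw [← rpow_add hX0]; norm_num
  have hζ : (X : ℝ) ^ (-(1 / 2) : ℝ) ≤ L ^ (-G) := by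
    rw [rpow_neg hX0.le, rpow_neg hL0.le]
    exact inv_anti₀ (by positivity) hLG
  have hζN : (X : ℝ) ^ (3 / 8 : ℝ) ≤ L ^ (-G) * ((X / W + 1 : ℕ) : ℝ) := by
    calc (X : ℝ) ^ (3 / 8 : ℝ) = (X : ℝ) ^ (-(1 / 2) : ℝ) * (X : ℝ) ^ (7 / 8 : ℝ) := by
          rw [← rpow_add hX0]
          norm_num
      _ ≤ _ := mul_le_mul hζ hN (by positivity) (by positivity)
  have hZ0 : 1 ≤ 2 ^ 2 ^ J2 := Nat.one_le_two_pow
  have hU : (Uc : ℝ) ^ (2 * k) ≤ (X : ℝ) ^ (1 / 8 : ℝ) := by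
    have h1 : ((Uc : ℝ) ^ (2 * k)) ^ 8 ≤ X := by
      have h2 : Uc ^ (2 * k * 8) ≤ X := by
        refine (Nat.pow_le_pow_left hUc _).trans ?_
        rw [← pow_mul]
        refine le_trans (le_of_eq ?_) hZ
        rw [hD]
        congr 1
        ring
      rw [← pow_mul]
      exact_mod_cast h2
    have h3 : ((X : ℝ) ^ (1 / 8 : ℝ)) ^ 8 = X := by
      rw [← rpow_natCast, ← rpow_mul hX0.le]
      norm_num
    rw [← h3] at h1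
    exact le_of_pow_le_pow_left₀ (by norm_num) (by positivity) h1
  have hX38 : (X : ℝ) ^ (1 / 4 : ℝ) ≤ (X : ℝ) ^ (3 / 8 : ℝ) := rpow_le_rpow_of_exponent_le hXr (by norm_num)
  have hX18 : (X : ℝ) ^ (1 / 8 : ℝ) ≤ (X : ℝ) ^ (1 / 4 : ℝ) := rpow_le_rpow_of_exponent_le hXr (by norm_num)
  refine ⟨?_, ?_, ?_⟩
  · linarith
  · calc e * (Uc : ℝ) ^ (2 * k) ≤ (X : ℝ) ^ (1 / 8 : ℝ) * (X : ℝ) ^ (1 / 8 : ℝ) :=
          mul_le_mul he2 hU (by positivity) (by positivity)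
      _ = (X : ℝ) ^ (1 / 4 : ℝ) := by rw [← rpow_add hX0]; norm_num
      _ ≤ _ := hX38.trans hζN
  · have hzr : (0 : ℝ) < z := by exact_mod_cast hz1
    have h1 : (2 ^ 2 ^ J2) ^ (Cf * (2 * Cf)) ≤ X := by
      refine le_trans ?_ hZ
      apply Nat.pow_le_pow_right hZ0
      rw [hD]
      have : 1 ≤ 16 * k := by omega
      exact Nat.le_mul_of_pos_left _ this
    have h2 : ((Nat.log 2 ((2 ^ 2 ^ J2) ^ (Cf * (2 * Cf))) : ℕ) : ℝ) ≤ 2 * L := by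
      have h3 : Nat.log 2 ((2 ^ 2 ^ J2) ^ (Cf * (2 * Cf))) ≤ Nat.log 2 X := Nat.log_mono_right h1
      have h4 : ((Nat.log 2 X : ℕ) : ℝ) * log 2 ≤ L := by
        have h5 : 2 ^ Nat.log 2 X ≤ X := Nat.pow_log_le_self 2 (by omega)
        have h6 : ((2 : ℝ) ^ Nat.log 2 X) ≤ X := by exact_mod_cast h5
        have h7 := Real.log_le_log (by positivity) h6
        rw [Real.log_pow] at h7
        rw [hL]
        exact h7
      have h8 : (1 / 2 : ℝ) ≤ log 2 := by have := Real.log_two_gt_d9; linarith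
      have h9 : ((Nat.log 2 ((2 ^ 2 ^ J2) ^ (Cf * (2 * Cf))) : ℕ) : ℝ) ≤ (Nat.log 2 X : ℕ) := by exact_mod_cast h3
      have h10 : (0 : ℝ) ≤ (Nat.log 2 X : ℕ) := Nat.cast_nonneg _
      nlinarith
    rw [div_le_iff₀ hzr]
    have h3 : (2 * k * (Nat.log 2 ((2 ^ 2 ^ J2) ^ (Cf * (2 * Cf))) : ℕ) : ℝ) ≤ L ^ (2 : ℝ) := by
      have h4 : L ^ (2 : ℝ) = L * L := by
        rw [show (2 : ℝ) = ((2 : ℕ) : ℝ) by norm_num, rpow_natCast]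
        ring
      rw [h4]
      calc (2 * k * (Nat.log 2 ((2 ^ 2 ^ J2) ^ (Cf * (2 * Cf))) : ℕ) : ℝ) ≤ 2 * k * (2 * L) :=
            mul_le_mul_of_nonneg_left h2 (by positivity)
        _ = (4 * k) * L := by ring
        _ ≤ L * L := mul_le_mul_of_nonneg_right hkL hL0.le
    refine h3.trans ?_
    calc L ^ (2 : ℝ) ≤ L ^ (3 : ℝ) := rpow_le_rpow_of_exponent_le hL1 (by norm_num)
      _ = L ^ (-G) * L ^ (G + 3) := by
          rw [← rpow_add hL0]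
          congr 1
          ring
      _ ≤ _ := mul_le_mul_of_nonneg_left hz4 (by positivity)

end Pool.Agent.L7h6.TX
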