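import Pool.Agent.L7h6.TX.Tr1
import Pool.Agent.L7h6.EX.Norm

/-!
# Random sieve (helper6), part 6: counting with divisibility by large primes
-/

set_option autoImplicit false

namespace Pool.Agent.L7h6.TX

open Finset
open Pool.Agent.H373R2.T7
open Pool.Agent.L7h6.EX (wt wt_eq wt_nonneg)

variable {ι : Type} [Fintype ι] [DecidableEq ι]

/-- the union -/
def un (g : ι → Finset ℕ) : Finset ℕ := univ.biUnion g

lemma mem_un {g : ι → Finset ℕ} {p : ℕ} : p ∈ un g ↔ ∃ i, p ∈ g i := by
  unfold un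
  simp

/-- the prime divisors are compatible -/
def Comp (f : ι → ℕ) (g : ι → Finset ℕ) : Prop := ∀ i i' p, p ∈ g i → p ∈ g i' → f i = f i'

lemma exists_res {W p : ℕ} (hp : p.Prime) (hW : ¬ p ∣ W) (x : ℕ) : ∃ a : ℕ, p ∣ W * a + x := by
  have : Fact p.Prime := ⟨hp⟩
  have hW' : (W : ZMod p) ≠ 0 := by
    intro h
    exact hW ((ZMod.natCast_eq_zero_iff W p).1 h)
  refine ⟨(-(x : ZMod p) * (W : ZMod p)⁻¹).val, ?_⟩
  rw [← ZMod.natCast_eq_zero_iff]
  push_cast
  rw [ZMod.natCast_zmod_val]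
  field_simp
  ring

lemma modEq_prod {V : Finset ℕ} (hV : ∀ p ∈ V, p.Prime) (l r : ℕ) :
    l ≡ r [MOD ∏ p ∈ V, p] ↔ ∀ p ∈ V, l ≡ r [MOD p] := by
  constructor
  · intro h p hp
    exact h.of_dvd (dvd_prod_of_mem (fun p => p) hp)
  · intro h
    rw [Nat.modEq_iff_dvd]
    push_cast
    apply Finset.prod_dvd_of_coprime
    · intro p hp q hq hpq
      show IsCoprime (p : ℤ) (q : ℤ)
      rw [Nat.isCoprime_iff_coprime]
      exact (Nat.coprime_primes (hV p hp) (hV q hq)).2 hpq
    · intro p hp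
      exact Nat.modEq_iff_dvd.1 (h p hp)

open Classical in
/-- the count -/
lemma cnt2 {N W β y z κ H : ℕ} {η e : ℝ} (hC : Cnt N W β y z κ η e) (hη : 0 ≤ η) (he : 0 ≤ e) {B : Finset ℕ}
    (hB : ∀ p ∈ B, p.Prime ∧ z < p ∧ H < p ∧ ¬ p ∣ W) (f : ι → ℕ) (hf : ∀ i, f i ≤ H) (hκ : Fintype.card ι ≤ κ)
    (g : ι → Finset ℕ) (hg : ∀ i, g i ⊆ B) :
    |((((Icc 1 N).filter (fun l => (∀ i, (∏ p ∈ g i, p) ∣ W * l + β + f i) ∧
        ∀ j ∈ univ.image f, ∀ p ∈ pz z, y < p → ¬ p ∣ W * l + β + j)).card : ℕ) : ℝ) -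
      N * VT y z (univ.image f) * ((if Comp f g then 1 else 0) * wt (un g))| ≤ η * N * wt (un g) + e := by
  have hunB : un g ⊆ B := by
    intro p hp
    obtain ⟨i, hi⟩ := mem_un.1 hp
    exact hg i hi
  have hw0 := wt_nonneg (un g)
  by_cases hcomp : Comp f g
  · rw [if_pos hcomp, one_mul]
    obtain ⟨off, hoff⟩ : ∃ off : ℕ → ℕ, ∀ i p, p ∈ g i → off p = f i := by
      refine ⟨fun p => if h : ∃ i, p ∈ g i then f h.choose else 0, fun i p hp => ?_⟩
      have h : ∃ i, p ∈ g i := ⟨i, hp⟩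
      simp only [dif_pos h]
      exact hcomp _ _ p h.choose_spec hp
    have hres : ∀ p, ∃ a : ℕ, p ∈ un g → p ∣ W * a + (β + off p) := by
      intro p
      by_cases hp : p ∈ un g
      · obtain ⟨a, ha⟩ := exists_res (hB p (hunB hp)).1 (hB p (hunB hp)).2.2.2 (β + off p)
        exact ⟨a, fun _ => ha⟩
      · exact ⟨0, fun h => absurd h hp⟩
    choose a ha using hres
    obtain ⟨r, hr⟩ := Nat.chineseRemainderOfFinset a (fun p => p) (un g)
      (fun p hp => (hB p (hunB hp)).1.ne_zero) (fun p hp q hq hpq =>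
        (Nat.coprime_primes (hB p (hunB hp)).1 (hB q (hunB hq)).1).2 hpq)
    have hE : 1 ≤ ∏ p ∈ un g, p := Finset.prod_pos fun p hp => (hB p (hunB hp)).1.pos
    have h1 := hC (univ.image f) (card_image_le.trans (by rw [card_univ]; exact hκ)) (∏ p ∈ un g, p) r hE (by
      intro q hq hqz hd
      obtain ⟨p, hp, hqp⟩ := (hq.prime.dvd_finset_prod_iff _).1 hd
      have h2 := (Nat.prime_dvd_prime_iff_eq hq (hB p (hunB hp)).1).1 hqp
      have h3 := (hB p (hunB hp)).2.1
      omega)
    have h2 : (Icc 1 N).filter (fun l : ℕ => l ≡ r [MOD ∏ p ∈ un g, p] ∧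
        ∀ j ∈ univ.image f, ∀ p ∈ pz z, y < p → ¬ p ∣ W * l + β + j) =
        (Icc 1 N).filter (fun l => (∀ i, (∏ p ∈ g i, p) ∣ W * l + β + f i) ∧
          ∀ j ∈ univ.image f, ∀ p ∈ pz z, y < p → ¬ p ∣ W * l + β + j) := by
      apply filter_congr
      intro l _
      refine and_congr ?_ Iff.rfl
      rw [modEq_prod fun p hp => (hB p (hunB hp)).1]
      have h3 : ∀ p ∈ un g, (l ≡ r [MOD p] ↔ p ∣ W * l + (β + off p)) := by
        intro p hp
        have hpp := (hB p (hunB hp)).1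
        have h4 : r ≡ a p [MOD p] := hr p hp
        have h5 : p ∣ W * r + (β + off p) :=
          ((Nat.ModEq.add_right _ (Nat.ModEq.mul_left _ h4)).dvd_iff dvd_rfl).2 (ha p hp)
        constructor
        · intro h6
          exact ((Nat.ModEq.add_right _ (Nat.ModEq.mul_left _ h6)).dvd_iff dvd_rfl).2 h5
        · intro h6
          have h7 : W * l + (β + off p) ≡ W * r + (β + off p) [MOD p] :=
            (Nat.modEq_zero_iff_dvd.2 h6).trans (Nat.modEq_zero_iff_dvd.2 h5).symm
          have h8 := Nat.ModEq.add_right_cancel' _ h7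
          exact Nat.ModEq.cancel_left_of_coprime ((Nat.Prime.coprime_iff_not_dvd hpp).2 (hB p (hunB hp)).2.2.2) h8
      constructor
      · intro h i
        apply Finset.prod_primes_dvd _ (fun p hp => (hB p (hg i hp)).1.prime)
        intro p hp
        have hpu : p ∈ un g := mem_un.2 ⟨i, hp⟩
        have h4 := (h3 p hpu).1 (h p hpu)
        rw [hoff i p hp, ← add_assoc] at h4
        exact h4
      · intro h p hp
        obtain ⟨i, hi⟩ := mem_un.1 hp
        rw [h3 p hp, hoff i p hi, ← add_assoc]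
        exact (dvd_prod_of_mem (fun p => p) hi).trans (h i)
    rw [h2] at h1
    have h3 : (N : ℝ) / ((∏ p ∈ un g, p : ℕ) : ℝ) = N * wt (un g) := by
      rw [wt_eq]
      ring
    rw [h3] at h1
    have h4 : (N : ℝ) * VT y z (univ.image f) * wt (un g) = N * wt (un g) * VT y z (univ.image f) := by ring
    rw [h4]
    calc _ ≤ η * (N * wt (un g)) + e := h1
      _ = _ := by ring
  · rw [if_neg hcomp, zero_mul, mul_zero, sub_zero]
    have h1 : (Icc 1 N).filter (fun l => (∀ i, (∏ p ∈ g i, p) ∣ W * l + β + f i) ∧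
        ∀ j ∈ univ.image f, ∀ p ∈ pz z, y < p → ¬ p ∣ W * l + β + j) = ∅ := by
      rw [filter_eq_empty_iff]
      rintro l _ ⟨h, _⟩
      apply hcomp
      intro i i' p hp hp'
      have hpB := hB p (hg i hp)
      have g1 : p ∣ W * l + β + f i := (dvd_prod_of_mem (fun p => p) hp).trans (h i)
      have g2 : p ∣ W * l + β + f i' := (dvd_prod_of_mem (fun p => p) hp').trans (h i')
      have g3 : W * l + β + f i ≡ W * l + β + f i' [MOD p] :=
        (Nat.modEq_zero_iff_dvd.2 g1).trans (Nat.modEq_zero_iff_dvd.2 g2).symm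
      have g4 := Nat.ModEq.add_left_cancel' _ g3
      exact Nat.ModEq.eq_of_lt_of_lt g4 (by have := hf i; omega) (by have := hf i'; omega)
    rw [h1, card_empty, Nat.cast_zero, abs_zero]
    positivity

/-! ## Sums over the functions -/

open Classical in
/-- the sum of the weights -/
lemma sum_wt_un {B : Finset ℕ} {U : Finset (Finset ℕ)} (hU : ∀ u ∈ U, u ⊆ B) :
    ∑ g ∈ Fintype.piFinset (fun _ : ι => U), wt (un g) ≤ ∏ p ∈ B, (1 + 2 ^ Fintype.card ι / (p : ℝ)) := by
  have h1 : ∀ g ∈ Fintype.piFinset (fun _ : ι => U), un g ∈ B.powerset := by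
    intro g hg
    rw [mem_powerset]
    intro p hp
    obtain ⟨i, hi⟩ := mem_un.1 hp
    exact hU _ (Fintype.mem_piFinset.1 hg i) hi
  rw [← Finset.sum_fiberwise_of_maps_to h1]
  have h2 : ∀ V ∈ B.powerset, ∑ g ∈ (Fintype.piFinset (fun _ : ι => U)).filter (fun g => un g = V), wt (un g) ≤
      ∏ p ∈ V, (2 ^ Fintype.card ι / (p : ℝ)) := by
    intro V _
    have h3 : ∀ g ∈ (Fintype.piFinset (fun _ : ι => U)).filter (fun g => un g = V), wt (un g) = wt V := by
      intro g hg
      rw [(mem_filter.1 hg).2]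
    rw [Finset.sum_congr rfl h3, Finset.sum_const, nsmul_eq_mul]
    have h4 : ((Fintype.piFinset (fun _ : ι => U)).filter (fun g => un g = V)).card ≤ (2 ^ V.card) ^ Fintype.card ι := by
      have h5 : (Fintype.piFinset (fun _ : ι => U)).filter (fun g => un g = V) ⊆
          Fintype.piFinset (fun _ : ι => V.powerset) := by
        intro g hg
        rw [mem_filter] at hg
        rw [Fintype.mem_piFinset]
        intro i
        rw [mem_powerset, ← hg.2]
        intro p hp
        exact mem_un.2 ⟨i, hp⟩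
      refine (card_le_card h5).trans ?_
      rw [Fintype.card_piFinset, Finset.prod_const, card_powerset, card_univ]
    have h6 : (((Fintype.piFinset (fun _ : ι => U)).filter (fun g => un g = V)).card : ℝ) ≤
        (2 ^ V.card) ^ Fintype.card ι := by exact_mod_cast h4
    refine (mul_le_mul_of_nonneg_right h6 (wt_nonneg V)).trans (le_of_eq ?_)
    rw [Finset.prod_div_distrib, Finset.prod_const, ← pow_mul, ← pow_mul, mul_comm V.card]
    unfold wt
    rw [Finset.prod_div_distrib, Finset.prod_const_one]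
    ring
  refine (Finset.sum_le_sum h2).trans (le_of_eq ?_)
  rw [Finset.prod_one_add]

end Pool.Agent.L7h6.TX
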