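import Pool.Agent.L7h6.TX.Loc
import Pool.Agent.W123.RP.Mert
import Pool.Agent.Helper256.KM.Mertens

/-!
# Random sieve (helper6), part 10: densities
-/

set_option autoImplicit false

namespace Pool.Agent.L7h6.TX

open Finset
open Pool.Agent.H373R2.T7

lemma Vz_mul_VI {u z : ℕ} (h : u ≤ z) : Vz z = Vz u * VI (u + 1) (z - u) := by
  unfold Vz VI
  have h1 : pz z = pz u ∪ (Ico (u + 1) (u + 1 + (z - u))).filter Nat.Prime := by
    ext p
    rw [mem_union, mem_pz, mem_pz, mem_filter, mem_Ico]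
    constructor
    · rintro ⟨g1, g2⟩
      rcases Nat.lt_or_ge u p with g | g
      · exact Or.inr ⟨⟨g, by omega⟩, g2⟩
      · exact Or.inl ⟨g, g2⟩
    · rintro (⟨g1, g2⟩ | ⟨⟨g1, g3⟩, g2⟩)
      · exact ⟨by omega, g2⟩
      · exact ⟨by omega, g2⟩
  rw [h1, Finset.prod_union]
  rw [Finset.disjoint_left]
  intro p hp hp'
  rw [mem_pz] at hp
  rw [mem_filter, mem_Ico] at hp'
  omega

theorem VI_bounds : ∃ c1 C1 : ℝ, 0 < c1 ∧ 0 < C1 ∧ ∀ u z : ℕ, 2 ≤ u → u ≤ z →
    c1 * Real.log u / Real.log z ≤ VI (u + 1) (z - u) ∧ VI (u + 1) (z - u) ≤ C1 * Real.log u / Real.log z := by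
  obtain ⟨c, C, hc, hC, H⟩ := Pool.Agent.W123.RP.Vz_bounds
  refine ⟨c / C, C / c, by positivity, by positivity, fun u z hu huz => ?_⟩
  obtain ⟨a1, a2⟩ := H u hu
  obtain ⟨b1, b2⟩ := H z (hu.trans huz)
  have hu0 : (2 : ℝ) ≤ u := by exact_mod_cast hu
  have hz0 : (2 : ℝ) ≤ z := by exact_mod_cast hu.trans huz
  have hlu : 0 < Real.log u := Real.log_pos (by linarith)
  have hlz : 0 < Real.log z := Real.log_pos (by linarith)
  have hV := VI_nonneg (u + 1) (z - u)
  rw [Vz_mul_VI huz] at b1 b2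
  have hVu : 0 < Vz u := lt_of_lt_of_le (by positivity) a1
  constructor
  · rw [div_mul_eq_mul_div, div_div, div_le_iff₀ (by positivity)]
    have h1 : c / Real.log z ≤ C / Real.log u * VI (u + 1) (z - u) := b1.trans (mul_le_mul_of_nonneg_right a2 hV)
    rw [div_mul_eq_mul_div, div_le_div_iff₀ hlz hlu] at h1
    linarith
  · rw [div_mul_eq_mul_div, div_div, le_div_iff₀ (by positivity)]
    have h1 : c / Real.log u * VI (u + 1) (z - u) ≤ C / Real.log z := (mul_le_mul_of_nonneg_right a1 hV).trans b2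
    rw [div_mul_eq_mul_div, div_le_div_iff₀ hlu hlz] at h1
    linarith

/-- classes have few elements in an interval -/
lemma class_card {H p a : ℕ} (_hp : 0 < p) {J : Finset ℕ} (hJ : ∀ j ∈ J, 1 ≤ j ∧ j ≤ H) :
    (J.filter (fun c => c % p = a)).card ≤ H / p + 1 := by
  classical
  calc (J.filter (fun c => c % p = a)).card ≤ (range (H / p + 1)).card := by
        apply Finset.card_le_card_of_injOn (fun c => c / p)
        · intro c hc
          rw [Finset.mem_coe, mem_filter] at hc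
          rw [Finset.mem_coe, mem_range]
          exact Nat.lt_succ_of_le (Nat.div_le_div_right (hJ c hc.1).2)
        · intro c hc d hd h
          rw [Finset.mem_coe, mem_filter] at hc hd
          have h1 := Nat.div_add_mod c p
          have h2 := Nat.div_add_mod d p
          simp only [] at h
          rw [h, hc.2] at h1
          rw [hd.2] at h2
          omega
    _ = _ := card_range _

/-- the exponential moments -/
theorem reg : ∃ K0 θ0 : ℝ, 0 ≤ K0 ∧ 0 < θ0 ∧ ∀ y z H : ℕ, 2 ≤ y → y ≤ z → (H : ℝ) * Real.log H ≤ y * Real.log z →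
    ∀ J : Finset ℕ, (∀ j ∈ J, 1 ≤ j ∧ j ≤ H) → ∀ J' ⊆ J, ∀ lam : ℝ, |lam| ≤ θ0 →
    EL (Lst (y + 1) (z - y)) (fun S => Real.exp (lam * S.card)) J' ≤
      Real.exp (J'.card * VI (y + 1) (z - y) * (lam + K0 * lam ^ 2)) := by
  obtain ⟨c1, C1, hc1, hC1, hVI⟩ := VI_bounds
  obtain ⟨C5', hC5'⟩ := Pool.Agent.Helper256.KM.mertens_log
  obtain ⟨C5, hC5⟩ : ∃ C5, C5 = |C5'| := ⟨_, rfl⟩
  have hC50 : 0 ≤ C5 := by rw [hC5]; exact abs_nonneg _
  have hl2 : 0 < Real.log 2 := Real.log_pos (by norm_num)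
  obtain ⟨K0, hK0⟩ : ∃ K0, K0 = 8 * C1 * (4 + 2 * C5 / Real.log 2) := ⟨_, rfl⟩
  have hK00 : 0 < K0 := by rw [hK0]; positivity
  obtain ⟨θ0, hθ0⟩ : ∃ θ0, θ0 = min (1 / (8 * C1)) (1 / K0) := ⟨_, rfl⟩
  have hθ00 : 0 < θ0 := by rw [hθ0]; exact lt_min (by positivity) (by positivity)
  refine ⟨K0, θ0, hK00.le, hθ00, fun y z H hy hyz hH J hJ J' hJ' lam hlam => ?_⟩
  have hy0 : (2 : ℝ) ≤ y := by exact_mod_cast hy
  have hz0 : (2 : ℝ) ≤ z := by exact_mod_cast hy.trans hyz
  have hlz : 0 < Real.log z := Real.log_pos (by linarith)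
  have hlz2 : Real.log 2 ≤ Real.log z := Real.log_le_log (by norm_num) hz0
  obtain ⟨g, hg⟩ : ∃ g : ℕ → ℝ, g = fun p : ℕ => C1 * Real.log p / Real.log z := ⟨_, rfl⟩
  obtain ⟨C, hC⟩ : ∃ C : ℕ → ℝ, C = fun p : ℕ => (if p ≤ H then 2 * (H : ℝ) / p else 0) + 2 := ⟨_, rfl⟩
  have hC0 : ∀ p, 0 ≤ C p := by
    intro p
    rw [hC]
    simp only []
    split_ifs <;> positivity
  have hCc : ∀ p, y + 1 ≤ p → p.Prime → ∀ a, ((J.filter (fun c => c % p = a)).card : ℝ) ≤ C p := by
    intro p _ hp a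
    have hp0 : (0 : ℝ) < p := by exact_mod_cast hp.pos
    have h1 : ((J.filter (fun c => c % p = a)).card : ℝ) ≤ ((H / p + 1 : ℕ) : ℝ) := by
      exact_mod_cast class_card hp.pos hJ
    refine h1.trans ?_
    push_cast
    rw [hC]
    simp only []
    split_ifs with h
    · have h2 : ((H / p : ℕ) : ℝ) ≤ H / p := Nat.cast_div_le
      have h3 : (H : ℝ) / p ≤ 2 * (H : ℝ) / p := by
        apply div_le_div_of_nonneg_right _ hp0.le
        have : (0 : ℝ) ≤ H := Nat.cast_nonneg _
        linarith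
      linarith
    · have h2 : H / p = 0 := Nat.div_eq_of_lt (by omega)
      rw [h2]
      norm_num
  -- the terms
  have hterm : ∀ p, y + 1 ≤ p → p.Prime → p ≤ z → g p * C p ≤ 4 * C1 ∧
      8 * g p * C p / p ≤ 8 * C1 / Real.log z * (2 * (Real.log p / p) + (if p ≤ H then 2 * (H * Real.log H) * ((p : ℝ) ^ 2)⁻¹ else 0)) := by
    intro p hyp hp hpz
    have hp2 : (2 : ℝ) ≤ p := by exact_mod_cast hp.two_le
    have hp0 : (0 : ℝ) < p := by linarith
    have hyp' : (y : ℝ) ≤ p := by exact_mod_cast (by omega : y ≤ p)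
    have hlp : 0 < Real.log p := Real.log_pos (by linarith)
    have hlpz : Real.log p ≤ Real.log z := Real.log_le_log hp0 (by exact_mod_cast hpz)
    rw [hg, hC]
    simp only []
    split_ifs with h
    · have hlH : Real.log p ≤ Real.log H := Real.log_le_log hp0 (by exact_mod_cast h)
      have hH0 : (0 : ℝ) ≤ H := Nat.cast_nonneg _
      constructor
      · have h1 : 2 * (H : ℝ) / p * Real.log p ≤ 2 * Real.log z := by
          rw [div_mul_eq_mul_div, div_le_iff₀ hp0]
          calc 2 * (H : ℝ) * Real.log p ≤ 2 * (H * Real.log H) := by nlinarith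
            _ ≤ 2 * (y * Real.log z) := by linarith
            _ ≤ 2 * Real.log z * p := by nlinarith
        rw [div_mul_eq_mul_div, div_le_iff₀ hlz]
        have h2 : C1 * Real.log p * (2 * (H : ℝ) / p + 2) = C1 * (2 * (H : ℝ) / p * Real.log p) + 2 * C1 * Real.log p := by ring
        rw [h2]
        nlinarith
      · have h1 : 8 * (C1 * Real.log p / Real.log z) * (2 * (H : ℝ) / p + 2) / p =
            8 * C1 / Real.log z * (2 * (Real.log p / p) + 2 * (H * Real.log p) * ((p : ℝ) ^ 2)⁻¹) := by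
          field_simp
          ring
        rw [h1]
        apply mul_le_mul_of_nonneg_left _ (by positivity)
        apply add_le_add le_rfl
        apply mul_le_mul_of_nonneg_right _ (by positivity)
        nlinarith
    · constructor
      · rw [zero_add, div_mul_eq_mul_div, div_le_iff₀ hlz]
        nlinarith
      · apply le_of_eq
        field_simp
        ring
  have hKb : ∀ u n, y + 1 ≤ u → u + n = z + 1 → KI g C u n ≤ K0 ∧ 0 ≤ KI g C u n := by
    intro u n hu hun
    constructor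
    · unfold KI
      rw [hun]
      have h1 : ∀ p ∈ (Ico u (z + 1)).filter Nat.Prime, 8 * g p * C p / p ≤
          8 * C1 / Real.log z * (2 * (Real.log p / p) + (if p ≤ H then 2 * (H * Real.log H) * ((p : ℝ) ^ 2)⁻¹ else 0)) := by
        intro p hp
        rw [mem_filter, mem_Ico] at hp
        exact (hterm p (by omega) hp.2 (by omega)).2
      refine (Finset.sum_le_sum h1).trans ?_
      rw [← Finset.mul_sum, Finset.sum_add_distrib, ← Finset.mul_sum]
      have h2 : ∑ p ∈ (Ico u (z + 1)).filter Nat.Prime, Real.log p / p ≤ Real.log z + C5 := by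
        have h3 : ∑ p ∈ (Ico u (z + 1)).filter Nat.Prime, Real.log p / p ≤ ∑ p ∈ (Icc 1 z).filter Nat.Prime, Real.log p / p := by
          apply Finset.sum_le_sum_of_subset_of_nonneg
          · intro p hp
            rw [mem_filter, mem_Ico] at hp
            rw [mem_filter, mem_Icc]
            exact ⟨⟨by omega, by omega⟩, hp.2⟩
          · intro p hp _
            have : (1 : ℝ) ≤ p := by exact_mod_cast (mem_Icc.1 (mem_filter.1 hp).1).1
            exact div_nonneg (Real.log_nonneg this) (by linarith)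
        have h4 := (abs_le.1 (hC5' z (by omega))).2
        have h5 : C5' ≤ C5 := by rw [hC5]; exact le_abs_self _
        linarith
      have h3 : ∑ p ∈ (Ico u (z + 1)).filter Nat.Prime, (if p ≤ H then 2 * (H * Real.log H) * ((p : ℝ) ^ 2)⁻¹ else 0) ≤
          2 * Real.log z := by
        rw [← Finset.sum_filter, ← Finset.mul_sum]
        have h4 : ∑ p ∈ ((Ico u (z + 1)).filter Nat.Prime).filter (fun p => p ≤ H), ((p : ℝ) ^ 2)⁻¹ ≤ 1 / y := by
          have h5 : ∑ p ∈ ((Ico u (z + 1)).filter Nat.Prime).filter (fun p => p ≤ H), ((p : ℝ) ^ 2)⁻¹ ≤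
              ∑ p ∈ Ioc y (max y H), ((p : ℝ) ^ 2)⁻¹ := by
            apply Finset.sum_le_sum_of_subset_of_nonneg
            · intro p hp
              rw [mem_filter, mem_filter, mem_Ico] at hp
              rw [mem_Ioc]
              exact ⟨by omega, hp.2.trans (le_max_right _ _)⟩
            · intro p _ _
              positivity
          refine h5.trans ?_
          have h6 := sum_Ioc_inv_sq_le_sub (α := ℝ) (k := y) (n := max y H) (by omega) (le_max_left _ _)
          have h7 : (0 : ℝ) ≤ ((max y H : ℕ) : ℝ)⁻¹ := by positivity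
          rw [one_div]
          linarith
        have hH0 : 0 ≤ (H : ℝ) * Real.log H := by
          rcases Nat.eq_zero_or_pos H with h | h
          · rw [h]; simp
          · exact mul_nonneg (Nat.cast_nonneg _) (Real.log_nonneg (by exact_mod_cast h))
        calc 2 * (H * Real.log H) * ∑ p ∈ ((Ico u (z + 1)).filter Nat.Prime).filter (fun p => p ≤ H), ((p : ℝ) ^ 2)⁻¹ ≤
            2 * (H * Real.log H) * (1 / y) := mul_le_mul_of_nonneg_left h4 (by positivity)
          _ ≤ 2 * (y * Real.log z) * (1 / y) := mul_le_mul_of_nonneg_right (by linarith) (by positivity)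
          _ = 2 * Real.log z := by field_simp
      have h4 : 8 * C1 / Real.log z * (2 * (Real.log z + C5) + 2 * Real.log z) ≤ K0 := by
        rw [hK0]
        have h5 : 8 * C1 / Real.log z * (2 * (Real.log z + C5) + 2 * Real.log z) = 8 * C1 * (4 + 2 * C5 / Real.log z) := by
          field_simp
          ring
        rw [h5]
        apply mul_le_mul_of_nonneg_left _ (by positivity)
        apply add_le_add le_rfl
        exact div_le_div_of_nonneg_left (by positivity) hl2 hlz2
      refine le_trans ?_ h4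
      apply mul_le_mul_of_nonneg_left _ (by positivity)
      linarith
    · unfold KI
      refine Finset.sum_nonneg fun p hp => ?_
      have hp1 : (1 : ℝ) ≤ p := by exact_mod_cast (mem_filter.1 hp).2.one_lt.le
      have h1 : 0 ≤ g p := by
        rw [hg]
        exact div_nonneg (mul_nonneg hC1.le (Real.log_nonneg hp1)) hlz.le
      have := hC0 p
      positivity
  have hmain := expo (z := z + 1) (J := J) (g := g) (C := C) (lam := lam) (u0 := y + 1)
    (fun p n hp hpp hpn => by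
      have hpz : p ≤ z := by omega
      have h1 := (hVI p z hpp.two_le hpz).2
      rw [show n = z - p by omega, hg]
      exact h1) hC0 hCc
    (fun p hp hpp hpz => by
      have h1 := (hterm p hp hpp (by omega)).1
      have h2 : |lam| ≤ 1 / (8 * C1) := hlam.trans (by rw [hθ0]; exact min_le_left _ _)
      calc |lam| * g p * C p = |lam| * (g p * C p) := by ring
        _ ≤ |lam| * (4 * C1) := mul_le_mul_of_nonneg_left h1 (abs_nonneg _)
        _ ≤ 1 / (8 * C1) * (4 * C1) := mul_le_mul_of_nonneg_right h2 (by positivity)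
        _ = 1 / 2 := by field_simp; norm_num)
    (fun u n hu hun => by
      obtain ⟨h1, h2⟩ := hKb u n hu hun
      refine ⟨?_, h2⟩
      have h3 : |lam| ≤ 1 / K0 := hlam.trans (by rw [hθ0]; exact min_le_right _ _)
      calc |lam| * KI g C u n ≤ 1 / K0 * K0 := mul_le_mul h3 h1 h2 (by positivity)
        _ = 1 := by field_simp)
    (z - y) (y + 1) le_rfl (by omega) J' hJ'
  refine hmain.trans ?_
  apply Real.exp_le_exp.2
  obtain ⟨h1, h2⟩ := hKb (y + 1) (z - y) le_rfl (by omega)
  rw [mul_assoc]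
  apply mul_le_mul_of_nonneg_left _ (Nat.cast_nonneg _)
  apply mul_le_mul_of_nonneg_left _ (VI_nonneg _ _)
  apply add_le_add le_rfl
  exact mul_le_mul_of_nonneg_right h1 (sq_nonneg _)

open Classical in
/-- numbers without small prime factors in every interval -/
theorem cblock : ∃ t0 y0 : ℕ, ∃ c6 : ℝ, 2 ≤ t0 ∧ 2 ≤ y0 ∧ 0 < c6 ∧ ∀ y : ℕ, y0 ≤ y → ∀ h : ℕ, y ^ t0 ≤ h → ∀ a : ℕ,
    c6 * h / Real.log y ≤ (((Icc 1 h).filter (fun j => ∀ p ∈ pz y, ¬ p ∣ a + j)).card : ℝ) := by
  obtain ⟨c, C, hc, hC, HV⟩ := Pool.Agent.W123.RP.Vz_bounds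
  obtain ⟨C0, x0, hC0, H⟩ := Pool.Agent.R490.P3a.sys_fundE 1 le_rfl
  obtain ⟨M, hM⟩ := exists_nat_ge (4 / c)
  refine ⟨16 * (C0 * C0), max x0 (max M 2), c / 4, by nlinarith, (le_max_right _ _).trans (le_max_right _ _), by positivity, fun y hy h hh a => ?_⟩
  have hyx : x0 ≤ y := (le_max_left _ _).trans hy
  have hyM : M ≤ y := ((le_max_left _ _).trans (le_max_right _ _)).trans hy
  have hy2 : 2 ≤ y := ((le_max_right _ _).trans (le_max_right _ _)).trans hy
  have hyr : (2 : ℝ) ≤ y := by exact_mod_cast hy2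
  have hly : 0 < Real.log y := Real.log_pos (by linarith)
  obtain ⟨Q, hQ⟩ : ∃ Q : ℕ → ℕ → Prop, Q = fun p n => ∃ j ∈ ({0} : Finset ℕ), p ∣ 1 * n + a + j := ⟨_, rfl⟩
  have hnu : ∀ p : ℕ, p.Prime → nuB Q p = 1 := by
    intro p hp
    unfold nuB
    rw [hQ]
    have h1 := nuB_eq (W := 1) (β := a) hp (fun h => hp.one_lt.ne' (Nat.dvd_one.1 h)) {0}
    have h2 : nu {0} p = 1 := by
      unfold nu
      rw [image_singleton, card_singleton]
    rw [h2] at h1
    refine Eq.trans ?_ h1
    congr!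
  have hper : PerB Q 1 := by
    refine ⟨fun p n => ?_, fun p hp => by rw [hnu p hp]⟩
    rw [hQ]
    simp only [mem_singleton, exists_eq_left, one_mul, add_zero]
    have h2 : n + a ≡ n % p + a [MOD p] := Nat.ModEq.add_right _ (Nat.mod_modEq n p).symm
    exact h2.dvd_iff dvd_rfl
  have key := H C0 le_rfl (y ^ (16 * (C0 * C0))) y hyx le_rfl Q hper h 1 0 le_rfl
    (fun p hp hd => (mem_pz.1 hp).2.one_lt.ne' (Nat.dvd_one.1 hd))
  have e1 : ∏ p ∈ pz y, (1 - (nuB Q p : ℝ) / p) = Vz y := by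
    unfold Vz
    refine Finset.prod_congr rfl fun p hp => ?_
    rw [hnu p (mem_pz.1 hp).2, Nat.cast_one]
  have e2 : (Icc 1 h).filter (fun n : ℕ => n ≡ 0 [MOD 1] ∧ ∀ p ∈ pz y, ¬ Q p n) =
      (Icc 1 h).filter (fun j => ∀ p ∈ pz y, ¬ p ∣ a + j) := by
    apply filter_congr
    intro n _
    rw [hQ]
    simp only [mem_singleton, exists_eq_left, one_mul, add_zero]
    constructor
    · rintro ⟨_, h2⟩ p hp
      rw [add_comm]
      exact h2 p hp
    · intro h2
      refine ⟨Nat.modEq_one, fun p hp => ?_⟩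
      rw [add_comm]
      exact h2 p hp
  rw [e1, e2, Nat.cast_one, div_one] at key
  have h1 := (abs_le.1 key).1
  obtain ⟨hv1, _⟩ := HV y hy2
  have hhr : (0 : ℝ) ≤ h := Nat.cast_nonneg _
  have hb : (1 / 2 : ℝ) ^ C0 ≤ 1 / 2 := by
    calc (1 / 2 : ℝ) ^ C0 ≤ (1 / 2) ^ 1 := pow_le_pow_of_le_one (by norm_num) (by norm_num) hC0
      _ = 1 / 2 := pow_one _
  have hV0 : 0 ≤ (h : ℝ) * Vz y := mul_nonneg hhr (le_trans (by positivity) hv1)
  have hsq : √((y ^ (16 * (C0 * C0)) : ℕ) : ℝ) = (y : ℝ) ^ (8 * (C0 * C0)) := by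
    push_cast
    rw [show 16 * (C0 * C0) = (8 * (C0 * C0)) * 2 by ring, pow_mul, Real.sqrt_sq (by positivity)]
  have hsmall : (y : ℝ) ^ (8 * (C0 * C0)) ≤ 1 / 4 * (h * Vz y) := by
    have g1 : c / y ≤ Vz y := by
      refine le_trans ?_ hv1
      apply div_le_div_of_nonneg_left hc.le hly
      exact (Real.log_le_sub_one_of_pos (by linarith)).trans (by linarith)
    have g2 : (y : ℝ) ^ (8 * (C0 * C0) + 2) ≤ h := by
      have g3 : (y : ℝ) ^ (16 * (C0 * C0)) ≤ h := by exact_mod_cast hh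
      refine le_trans ?_ g3
      apply pow_le_pow_right₀ (by linarith)
      have : 1 ≤ C0 * C0 := Nat.mul_pos hC0 hC0
      omega
    have g3 : 4 ≤ c * y := by
      have g4 : 4 / c ≤ y := hM.trans (by exact_mod_cast hyM)
      rw [div_le_iff₀ hc] at g4
      linarith
    have g4 : (y : ℝ) ^ (8 * (C0 * C0)) * y ^ 2 * (c / y) ≤ h * Vz y := by
      have := mul_le_mul g2 g1 (by positivity) hhr
      rwa [pow_add] at this
    have g5 : (y : ℝ) ^ (8 * (C0 * C0)) * y ^ 2 * (c / y) = (y : ℝ) ^ (8 * (C0 * C0)) * (c * y) := by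
      field_simp
    rw [g5] at g4
    have g6 : 0 < (y : ℝ) ^ (8 * (C0 * C0)) := by positivity
    nlinarith
  rw [hsq] at h1
  have h2 : (1 / 2 : ℝ) ^ C0 * (h * Vz y) ≤ 1 / 2 * (h * Vz y) := mul_le_mul_of_nonneg_right hb hV0
  have h3 : c / 4 * h / Real.log y ≤ 1 / 4 * (h * Vz y) := by
    have : c / 4 * h / Real.log y = 1 / 4 * (h * (c / Real.log y)) := by ring
    rw [this]
    exact mul_le_mul_of_nonneg_left (mul_le_mul_of_nonneg_left hv1 hhr) (by norm_num)
  linarith

end Pool.Agent.L7h6.TX
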