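import Pool.Agent.L7h6.TX.Main

/-!
# Random sieve (helper6), part 17: the exceptional set
-/

set_option autoImplicit false

namespace Pool.Agent.L7h6.TX

open Finset Real Filter
open Pool.Agent.H373R2.T7

lemma Cc_nonneg {k : ℕ} {K c8 : ℝ} (hc8 : 0 < c8) : 0 ≤ Cc k K c8 := by
  unfold Cc
  positivity

theorem cls : ∃ t0 : ℕ, 2 ≤ t0 ∧ ∀ ε : ℝ, 0 < ε → ε < 1 / t0 → ∀ k : ℕ, 1 ≤ k → ∃ δ : ℝ, 0 < δ ∧
    ∀ᶠ X : ℕ in atTop, ∃ W H : ℕ, 1 ≤ W ∧ (W : ℝ) ≤ (X : ℝ) ^ (1 / 8 : ℝ) ∧ (H : ℝ) ≤ (log X) ^ (1 + ε) ∧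
      ∀ β : ℕ, ((Exl W β H (X / W + 1) ((X : ℝ) ^ δ)).card : ℝ) ≤ ((X / W + 1 : ℕ) : ℝ) * (log X) ^ (-(ε * k / 2)) := by
  classical
  obtain ⟨t0, y0, c6, ht0, hy0, hc6, Hblk⟩ := cblock
  obtain ⟨K0, θ0, hK0, hθ0, Hreg⟩ := reg
  obtain ⟨c1, C1, hc1, hC1, HVI⟩ := VI_bounds
  obtain ⟨Cf, hCf, Hw⟩ := wts
  refine ⟨t0, ht0, fun ε hε hεt k hk => ?_⟩
  obtain ⟨C0, x0, hC0, Hcnt⟩ := cntA (2 * k) (by omega)
  obtain ⟨D, hD⟩ : ∃ D, D = 16 * k * (Cf * (2 * Cf)) := ⟨_, rfl⟩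
  have hD1 : 1 ≤ D := by
    rw [hD]
    exact Nat.one_le_iff_ne_zero.2 (by positivity)
  have hDr : (1 : ℝ) ≤ D := by exact_mod_cast hD1
  have hkr : (1 : ℝ) ≤ k := by exact_mod_cast hk
  have hC0r : (1 : ℝ) ≤ C0 := by exact_mod_cast hC0
  obtain ⟨G, hG⟩ : ∃ G : ℝ, G = 4 * k + ε * k := ⟨_, rfl⟩
  have hG0 : 0 < G := by rw [hG]; positivity
  obtain ⟨Γ, hΓ⟩ : ∃ Γ : ℕ, Γ = ⌈2 * G⌉₊ + 1 := ⟨_, rfl⟩
  have hΓG : 2 * G ≤ Γ := by
    rw [hΓ]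
    push_cast
    have := Nat.le_ceil (2 * G)
    linarith
  have hΓ1 : 1 ≤ Γ := by omega
  have hΓr : (1 : ℝ) ≤ Γ := by exact_mod_cast hΓ1
  obtain ⟨A, hA⟩ : ∃ A : ℝ, A = max 1 (max (1536 * C0 / c1) (128 * C0 * C1)) := ⟨_, rfl⟩
  have hA1 : 1 ≤ A := by rw [hA]; exact le_max_left _ _
  have hA2 : 1536 * C0 / c1 ≤ A := by rw [hA]; exact (le_max_left _ _).trans (le_max_right _ _)
  have hA3 : 128 * C0 * C1 ≤ A := by rw [hA]; exact (le_max_right _ _).trans (le_max_right _ _)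
  obtain ⟨c8, hc8⟩ : ∃ c8 : ℝ, c8 = c6 * c1 * 32 * C0 / k := ⟨_, rfl⟩
  have hc80 : 0 < c8 := by rw [hc8]; positivity
  obtain ⟨n0, hn0⟩ : ∃ n0 : ℕ, n0 = 2 ^ (2 * k) + 2 := ⟨_, rfl⟩
  have hCc : 0 ≤ Cc k K0 c8 := Cc_nonneg hc80
  refine ⟨1 / (2 * D), by positivity, ?_⟩
  have hpar := par t0 y0 C0 x0 Cf k D Γ ε G ht0 hC0 hk hD1 hΓ1 hG0 hΓG hε hεt
  have hLe : Tendsto (fun X : ℕ => (log (X : ℝ)) ^ ε) atTop atTop := (tendsto_rpow_atTop hε).comp tendL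
  have e1 := hLe.eventually_ge_atTop (1 / c8)
  have e2 := hLe.eventually_ge_atTop (1 / (θ0 ^ 2 * c8))
  have e3 : ∀ᶠ X : ℕ in atTop, (log (X : ℝ)) ^ G ≤ (X : ℝ) ^ (1 / 2 : ℝ) := by
    have h := (isLittleO_log_rpow_rpow_atTop (s := 1 / 2) G (by norm_num)).bound (show (0 : ℝ) < 1 by norm_num)
    have h2 := tendsto_natCast_atTop_atTop (R := ℝ) |>.eventually h
    filter_upwards [h2, eventually_ge_atTop 1] with X hX hX1
    have hXr : (1 : ℝ) ≤ X := by exact_mod_cast hX1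
    rw [one_mul, norm_of_nonneg (rpow_nonneg (log_nonneg hXr) _), norm_of_nonneg (by positivity)] at hX
    exact hX
  have e4 := tendL.eventually_ge_atTop (4 * (k : ℝ))
  have e5 := tendL.eventually (loglog_small (ε * k / 2) (by positivity) (2 * Cc k K0 c8 * (2 * A * Γ) ^ (n0 * (3 * k + 2)))
    (n0 * (3 * k + 2)))
  have e6 := tendL.eventually_ge_atTop (1 : ℝ)
  filter_upwards [hpar, e1, e2, e3, e4, e5, e6, eventually_ge_atTop 1] with X hX1 hX2 hX3 hX4 hX5 hX6 hX7 hX8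
  obtain ⟨y, h, z, J2, P⟩ := hX1
  obtain ⟨b, hb⟩ : ∃ b : ℕ, b = ⌈(Γ : ℝ) * log (log X)⌉₊ := ⟨_, rfl⟩
  rw [← hb] at P
  have hX0 : (0 : ℝ) < X := by exact_mod_cast (show 0 < X by omega)
  obtain ⟨cL, U, ρ, w1, w2, w3, w4, w5, w6, w7, w8⟩ := Hw J2 z P.cz P.zZ
  have hbb : (b : ℝ) ≤ 2 * Γ * log (log X) := by
    have h1 : (b : ℝ) ≤ Γ * log (log X) + 1 := by
      rw [hb]
      exact (Nat.ceil_lt_add_one (by have := P.l1; positivity)).le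
    have h2 := P.l1
    nlinarith
  have hz2 : 2 ≤ z := P.y2.trans P.yz
  have hz2r : (2 : ℝ) ≤ z := by exact_mod_cast hz2
  have hzZ : z ≤ 2 ^ 2 ^ J2 := P.zZ
  refine ⟨WW y, k * h, WW_pos y, ?_, ?_, fun β => ?_⟩
  · have h1 : (WW y : ℝ) ≤ (4 : ℝ) ^ y := by exact_mod_cast WW_le y
    exact h1.trans P.W4
  · have := P.hL
    push_cast
    exact this
  · refine cls_main (t0 := t0) (y0 := y0) (C0 := C0) (x0 := x0) (Cf := Cf) (k := k) (c6 := c6) (K0 := K0) (θ0 := θ0)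
      (c1 := c1) (C1 := C1) (A := A) (ε := ε) (L := log X) (X := X) (y := y) (h := h) (b := b) (z := z) (J2 := J2)
      hk hc6 hK0 hθ0 hc1 hC1 hC0 hCf hε hX8 rfl hX7 (by rw [← hD, ← hG]; exact P) hA1 hA2 hA3 ?_ ?_ (by rw [← hG]; exact hX4)
      hX5 ?_ rfl (fun a => Hblk y P.y0y h P.yh a) (Hreg y z (k * h) P.y2 P.yz P.hyz)
      (HVI y z P.y2 P.yz).1 (HVI y z P.y2 P.yz).2 (HVI z (2 ^ 2 ^ J2) hz2 hzZ).1
      (by
        unfold Cnt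
        exact fun T hT E a hE hEp => Hcnt b P.Cb (z ^ (16 * (C0 * b))) z P.xz le_rfl (WW y) β y
          (fun p hp hyp => WW_dvd hp hyp) T hT _ E a hE hEp)
      w1 w2 w3 w4 w5 w6 (fun v => (w7 v).trans (le_of_eq (by congr!))) w8 ?_
    · rw [← hc8]
      rw [div_le_iff₀ hc80] at hX2
      linarith
    · rw [← hc8]
      rw [div_le_iff₀ (by positivity)] at hX3
      linarith
    · rw [← hc8, ← hn0]
      refine le_trans ?_ hX6
      rw [← pow_mul, mul_assoc (2 * Cc k K0 c8), ← mul_pow]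
      apply mul_le_mul_of_nonneg_left _ (by positivity)
      apply pow_le_pow_left₀ (by positivity)
      calc A * b ≤ A * (2 * Γ * log (log X)) := mul_le_mul_of_nonneg_left hbb (by linarith)
        _ = _ := by ring
    · rw [← Real.exp_log (show (0 : ℝ) < ((2 ^ 2 ^ J2 : ℕ) : ℝ) by positivity), rpow_def_of_pos hX0]
      apply Real.exp_le_exp.2
      refine le_trans (le_of_eq ?_) P.Z1
      ring

open Classical in
/-- the exceptional numbers -/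
noncomputable def Exm (X H : ℕ) (R : ℝ) : Finset ℕ :=
  (Ioc X (2 * X)).filter (fun m => ∀ j ∈ Icc 1 H, ∃ p : ℕ, p.Prime ∧ p ∣ m + j ∧ (p : ℝ) < R)

lemma Exm_card {X W H : ℕ} {R B : ℝ} (hW : 1 ≤ W) (hWX : W ≤ X)
    (h : ∀ β : ℕ, ((Exl W β H (X / W + 1) R).card : ℝ) ≤ B) : ((Exm X H R).card : ℝ) ≤ W * B := by
  classical
  have hsub : Exm X H R ⊆ (range W).biUnion (fun r => (Exl W (X + 1 + r - W) H (X / W + 1) R).image
      (fun l => W * l + (X + 1 + r - W))) := by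
    intro m hm
    unfold Exm at hm
    rw [mem_filter, mem_Ioc] at hm
    rw [mem_biUnion]
    have hW0 : 0 < W := hW
    refine ⟨(m - X - 1) % W, mem_range.2 (Nat.mod_lt _ hW0), ?_⟩
    rw [mem_image]
    have hdm := Nat.div_add_mod (m - X - 1) W
    obtain ⟨q, hq⟩ : ∃ q, q = (m - X - 1) / W := ⟨_, rfl⟩
    obtain ⟨r, hr⟩ : ∃ r, r = (m - X - 1) % W := ⟨_, rfl⟩
    have hrW : r < W := by rw [hr]; exact Nat.mod_lt _ hW0
    rw [← hq, ← hr] at hdm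
    rw [← hr]
    have hqX : q ≤ X / W := by
      rw [hq]
      exact Nat.div_le_div_right (by omega)
    have hm2 : W * (q + 1) + (X + 1 + r - W) = m := by
      rw [mul_add, mul_one]
      omega
    refine ⟨q + 1, ?_, hm2⟩
    unfold Exl
    rw [mem_filter, mem_Icc]
    refine ⟨⟨by omega, by omega⟩, fun j hj => ?_⟩
    rw [hm2]
    exact hm.2 j hj
  have h1 := card_le_card hsub
  have h2 : ((range W).biUnion (fun r => (Exl W (X + 1 + r - W) H (X / W + 1) R).image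
      (fun l => W * l + (X + 1 + r - W)))).card ≤ ∑ r ∈ range W, (Exl W (X + 1 + r - W) H (X / W + 1) R).card := by
    refine card_biUnion_le.trans (Finset.sum_le_sum fun r _ => card_image_le)
  have h3 : ((Exm X H R).card : ℝ) ≤ ∑ r ∈ range W, ((Exl W (X + 1 + r - W) H (X / W + 1) R).card : ℝ) := by
    exact_mod_cast h1.trans h2
  refine h3.trans ((Finset.sum_le_sum fun r _ => h (X + 1 + r - W)).trans (le_of_eq ?_))
  rw [Finset.sum_const, card_range, nsmul_eq_mul]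

/-- **The exceptional set.** -/
theorem exc : ∃ t0 : ℕ, 2 ≤ t0 ∧ ∀ ε : ℝ, 0 < ε → ε < 1 / t0 → ∀ A : ℕ, ∃ δ : ℝ, 0 < δ ∧
    ∀ᶠ X : ℕ in atTop, ∃ H : ℕ, (H : ℝ) ≤ (log X) ^ (1 + ε) ∧
      ((Exm X H ((X : ℝ) ^ δ)).card : ℝ) ≤ X / (log X) ^ A := by
  obtain ⟨t0, ht0, Hc⟩ := cls
  refine ⟨t0, ht0, fun ε hε hεt A => ?_⟩
  obtain ⟨k, hk⟩ : ∃ k, k = ⌈2 * ((A : ℝ) + 1) / ε⌉₊ := ⟨_, rfl⟩
  have hk1 : 2 * ((A : ℝ) + 1) / ε ≤ k := by rw [hk]; exact Nat.le_ceil _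
  have hk2 : 1 ≤ k := by
    rw [hk]
    exact Nat.one_le_iff_ne_zero.2 (by
      apply ne_of_gt
      exact Nat.ceil_pos.2 (by positivity))
  rw [div_le_iff₀ hε] at hk1
  obtain ⟨δ, hδ, Hd⟩ := Hc ε hε hεt k hk2
  refine ⟨δ, hδ, ?_⟩
  filter_upwards [Hd, tendL.eventually_ge_atTop (2 : ℝ), eventually_ge_atTop 1] with X hX hL hX1
  obtain ⟨W, H, h1, h2, h3, h4⟩ := hX
  refine ⟨H, h3, ?_⟩
  have hXr : (1 : ℝ) ≤ X := by exact_mod_cast hX1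
  have hX0 : (0 : ℝ) < X := by linarith
  have hWX : W ≤ X := by
    have : (W : ℝ) ≤ X := by
      refine h2.trans ?_
      calc (X : ℝ) ^ (1 / 8 : ℝ) ≤ (X : ℝ) ^ (1 : ℝ) := rpow_le_rpow_of_exponent_le hXr (by norm_num)
        _ = X := rpow_one _
    exact_mod_cast this
  refine (Exm_card h1 hWX h4).trans ?_
  have hL0 : 0 < log (X : ℝ) := by linarith
  have h5 : (W : ℝ) * ((X / W + 1 : ℕ) : ℝ) ≤ 2 * X := by
    have : W * (X / W + 1) ≤ 2 * X := by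
      have := Nat.mul_div_le X W
      rw [mul_add, mul_one]
      omega
    exact_mod_cast this
  have h6 : (log (X : ℝ)) ^ (-(ε * k / 2)) ≤ 1 / 2 * (1 / (log X) ^ A) := by
    have g1 : (log (X : ℝ)) ^ (-(ε * k / 2)) ≤ (log (X : ℝ)) ^ (-((A : ℝ) + 1)) := by
      apply rpow_le_rpow_of_exponent_le (by linarith)
      linarith
    have g2 : (log (X : ℝ)) ^ (-((A : ℝ) + 1)) = 1 / (log X * (log X) ^ A) := by
      rw [rpow_neg hL0.le, rpow_add hL0, rpow_one, rpow_natCast, one_div, mul_comm]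
    refine g1.trans ?_
    rw [g2, ← one_div_mul_one_div]
    apply mul_le_mul_of_nonneg_right _ (by positivity)
    exact one_div_le_one_div_of_le (by norm_num) hL
  calc (W : ℝ) * (((X / W + 1 : ℕ) : ℝ) * (log X) ^ (-(ε * k / 2))) =
      (W : ℝ) * ((X / W + 1 : ℕ) : ℝ) * (log X) ^ (-(ε * k / 2)) := by ring
    _ ≤ 2 * X * (1 / 2 * (1 / (log X) ^ A)) := mul_le_mul h5 h6 (by positivity) (by positivity)
    _ = _ := by ring

end Pool.Agent.L7h6.TX
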