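import Pool.Agent.L7h6.TX.Ideal

/-!
# Random sieve (helper6), part 2: exponential moments
-/

set_option autoImplicit false

namespace Pool.Agent.L7h6.TX

open Finset

/-- the product of the densities -/
noncomputable def VI (u n : ℕ) : ℝ := ∏ p ∈ (Ico u (u + n)).filter Nat.Prime, (1 - 1 / (p : ℝ))

/-- the error in the exponent -/
noncomputable def KI (g C : ℕ → ℝ) (u n : ℕ) : ℝ :=
  ∑ p ∈ (Ico u (u + n)).filter Nat.Prime, 8 * g p * C p / p

lemma Ico_succ' (u n : ℕ) : Ico u (u + (n + 1)) = insert u (Ico (u + 1) (u + 1 + n)) := by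
  ext x
  rw [mem_insert, mem_Ico, mem_Ico]
  omega

lemma not_mem' (u n : ℕ) : u ∉ (Ico (u + 1) (u + 1 + n)).filter Nat.Prime := by
  intro h2
  rw [mem_filter, mem_Ico] at h2
  omega

lemma VI_succ (u n : ℕ) : VI u (n + 1) = (if u.Prime then 1 - 1 / (u : ℝ) else 1) * VI (u + 1) n := by
  unfold VI
  rw [Ico_succ', filter_insert]
  split_ifs with h
  · rw [prod_insert (not_mem' u n)]
  · rw [one_mul]

lemma KI_succ (g C : ℕ → ℝ) (u n : ℕ) :
    KI g C u (n + 1) = (if u.Prime then 8 * g u * C u / u else 0) + KI g C (u + 1) n := by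
  unfold KI
  rw [Ico_succ', filter_insert]
  split_ifs with h
  · rw [sum_insert (not_mem' u n)]
  · rw [zero_add]

lemma VI_nonneg (u n : ℕ) : 0 ≤ VI u n := by
  unfold VI
  refine prod_nonneg fun p hp => ?_
  have h1 : (1 : ℝ) ≤ p := by exact_mod_cast (mem_filter.1 hp).2.one_lt.le
  rw [sub_nonneg]
  exact (div_le_one (by linarith)).2 h1

lemma VI_le_one (u n : ℕ) : VI u n ≤ 1 := by
  unfold VI
  refine prod_le_one (fun p hp => ?_) (fun p hp => ?_)
  · have h1 : (1 : ℝ) ≤ p := by exact_mod_cast (mem_filter.1 hp).2.one_lt.le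
    rw [sub_nonneg]
    exact (div_le_one (by linarith)).2 h1
  · have : 0 ≤ 1 / (p : ℝ) := by positivity
    linarith

/-- the exponential moments -/
theorem expo {z : ℕ} {J : Finset ℕ} {g C : ℕ → ℝ} {lam : ℝ} {u0 : ℕ}
    (hg : ∀ p n, u0 ≤ p → p.Prime → p + 1 + n = z → VI (p + 1) n ≤ g p) (hC0 : ∀ p, 0 ≤ C p)
    (hC : ∀ p, u0 ≤ p → p.Prime → ∀ a, ((J.filter (fun c => c % p = a)).card : ℝ) ≤ C p)
    (hl1 : ∀ p, u0 ≤ p → p.Prime → p < z → |lam| * g p * C p ≤ 1 / 2)
    (hK : ∀ u n, u0 ≤ u → u + n = z → |lam| * KI g C u n ≤ 1 ∧ 0 ≤ KI g C u n) :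
    ∀ n u, u0 ≤ u → u + n = z → ∀ S ⊆ J, EL (Lst u n) (fun S => Real.exp (lam * S.card)) S ≤
      Real.exp (S.card * (VI u n * (lam + KI g C u n * lam ^ 2))) := by
  intro n
  induction n with
  | zero =>
    intro u _ _ S _
    have h1 : VI u 0 = 1 := by unfold VI; simp
    have h2 : KI g C u 0 = 0 := by unfold KI; simp
    rw [h1, h2]
    show Real.exp (lam * S.card) ≤ _
    apply le_of_eq
    congr 1
    ring
  | succ n ih =>
    intro u hu0 huz S hS
    obtain ⟨hK1, hK2⟩ := hK (u + 1) n (by omega) (by omega)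
    unfold Lst
    rw [VI_succ, KI_succ]
    split_ifs with hu
    swap
    · rw [one_mul, zero_add]
      exact ih (u + 1) (by omega) (by omega) S hS
    obtain ⟨V, hV⟩ : ∃ V, V = VI (u + 1) n := ⟨_, rfl⟩
    obtain ⟨K, hKd⟩ : ∃ K, K = KI g C (u + 1) n := ⟨_, rfl⟩
    rw [← hKd] at hK1 hK2
    have hV0 : 0 ≤ V := by rw [hV]; exact VI_nonneg _ _
    have hVg : V ≤ g u := by rw [hV]; exact hg u n hu0 hu (by omega)
    obtain ⟨Λ, hΛ⟩ : ∃ Λ, Λ = V * (lam + K * lam ^ 2) := ⟨_, rfl⟩
    rw [← hV, ← hKd]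
    have hur : (2 : ℝ) ≤ u := by exact_mod_cast hu.two_le
    have hu0' : (0 : ℝ) < u := by linarith
    have hΛ1 : |Λ| ≤ 2 * |lam| * V := by
      rw [hΛ, abs_mul, abs_of_nonneg hV0]
      have h1 : |lam + K * lam ^ 2| ≤ |lam| + K * |lam| ^ 2 := by
        refine (abs_add_le _ _).trans ?_
        rw [abs_mul, abs_of_nonneg hK2, abs_pow]
      have h2 : K * |lam| ^ 2 ≤ |lam| := by
        have h3 : K * |lam| ^ 2 = (|lam| * K) * |lam| := by ring
        rw [h3]
        calc (|lam| * K) * |lam| ≤ 1 * |lam| := mul_le_mul_of_nonneg_right hK1 (abs_nonneg _)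
          _ = |lam| := one_mul _
      have h3 : V * |lam + K * lam ^ 2| ≤ V * (2 * |lam|) := mul_le_mul_of_nonneg_left (by linarith) hV0
      linarith
    have hΛ2 : |Λ| * C u ≤ 1 := by
      have h1 := hl1 u hu0 hu (by omega)
      have h2 : |Λ| * C u ≤ 2 * |lam| * V * C u := mul_le_mul_of_nonneg_right hΛ1 (hC0 u)
      have h3 : 2 * |lam| * V * C u ≤ 2 * |lam| * g u * C u := by
        apply mul_le_mul_of_nonneg_right _ (hC0 u)
        exact mul_le_mul_of_nonneg_left hVg (by positivity)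
      linarith
    show (∑ a ∈ range u, EL (Lst (u + 1) n) (fun S => Real.exp (lam * S.card)) (S.filter (fun c => c % u ≠ a))) / u ≤ _
    have hstep : ∀ a ∈ range u, EL (Lst (u + 1) n) (fun S => Real.exp (lam * S.card)) (S.filter (fun c => c % u ≠ a)) ≤
        Real.exp (S.card * Λ) * (1 - ((S.filter (fun c => c % u = a)).card : ℝ) * Λ +
          ((S.filter (fun c => c % u = a)).card : ℝ) * (C u * Λ ^ 2)) := by
      intro a _
      obtain ⟨x, hx⟩ : ∃ x : ℕ, x = (S.filter (fun c => c % u = a)).card := ⟨_, rfl⟩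
      rw [← hx]
      have h1 := ih (u + 1) (by omega) (by omega) (S.filter (fun c => c % u ≠ a)) ((filter_subset _ _).trans hS)
      rw [← hV, ← hKd, ← hΛ] at h1
      refine h1.trans ?_
      have h2 : x + (S.filter (fun c => c % u ≠ a)).card = S.card := by
        rw [hx]
        exact card_filter_add_card_filter_not _
      have h3 : ((S.filter (fun c => c % u ≠ a)).card : ℝ) = S.card - x := by
        have : ((x + (S.filter (fun c => c % u ≠ a)).card : ℕ) : ℝ) = S.card := by exact_mod_cast h2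
        push_cast at this
        linarith
      rw [h3, show ((S.card : ℝ) - x) * Λ = S.card * Λ + (-(x * Λ)) by ring, Real.exp_add]
      apply mul_le_mul_of_nonneg_left _ (Real.exp_pos _).le
      have hxC : (x : ℝ) ≤ C u := by
        rw [hx]
        refine le_trans ?_ (hC u hu0 hu a)
        exact_mod_cast card_le_card (filter_subset_filter _ hS)
      have hx0 : (0 : ℝ) ≤ x := Nat.cast_nonneg x
      have h4 : |-((x : ℝ) * Λ)| ≤ 1 := by
        rw [abs_neg, abs_mul, abs_of_nonneg hx0]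
        calc (x : ℝ) * |Λ| ≤ C u * |Λ| := mul_le_mul_of_nonneg_right hxC (abs_nonneg _)
          _ ≤ 1 := by rw [mul_comm]; exact hΛ2
      have h5 := Real.abs_exp_sub_one_sub_id_le h4
      rw [abs_le] at h5
      have h6 : (-((x : ℝ) * Λ)) ^ 2 ≤ x * (C u * Λ ^ 2) := by
        have : (x : ℝ) * x * Λ ^ 2 ≤ x * C u * Λ ^ 2 := by
          apply mul_le_mul_of_nonneg_right _ (sq_nonneg _)
          exact mul_le_mul_of_nonneg_left hxC hx0
        nlinarith
      linarith [h5.2]
    have hsum := Finset.sum_le_sum hstep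
    have hcard : ∑ a ∈ range u, ((S.filter (fun c => c % u = a)).card : ℝ) = S.card := by
      have h1 := Finset.card_eq_sum_card_fiberwise (f := fun c => c % u) (s := S) (t := range u)
        (fun c _ => by
          simp only [Finset.coe_range, Set.mem_Iio]
          exact Nat.mod_lt c hu.pos)
      rw [h1]
      push_cast
      rfl
    rw [← Finset.mul_sum, Finset.sum_add_distrib, Finset.sum_sub_distrib, Finset.sum_const, card_range, nsmul_eq_mul,
      mul_one, ← Finset.sum_mul, ← Finset.sum_mul, hcard] at hsum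
    have h7 : (∑ a ∈ range u, EL (Lst (u + 1) n) (fun S => Real.exp (lam * S.card)) (S.filter (fun c => c % u ≠ a))) / u ≤
        Real.exp (S.card * Λ) * (1 + (-(S.card * Λ) / u + S.card * (C u * Λ ^ 2) / u)) := by
      rw [div_le_iff₀ hu0']
      refine hsum.trans (le_of_eq ?_)
      field_simp
      ring
    refine h7.trans ?_
    have h8 := Real.add_one_le_exp (-(S.card * Λ) / u + S.card * (C u * Λ ^ 2) / u)
    refine (mul_le_mul_of_nonneg_left (by linarith : 1 + (-(S.card * Λ) / u + S.card * (C u * Λ ^ 2) / u) ≤ _)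
      (Real.exp_pos _).le).trans ?_
    rw [← Real.exp_add]
    apply Real.exp_le_exp.2
    have hcC := hC0 u
    have h9 : C u * Λ ^ 2 / u ≤ (1 - 1 / (u : ℝ)) * V * (8 * g u * C u / u * lam ^ 2) := by
      have g1 : Λ ^ 2 ≤ 4 * lam ^ 2 * V ^ 2 := by
        have : |Λ| ^ 2 ≤ (2 * |lam| * V) ^ 2 := pow_le_pow_left₀ (abs_nonneg _) hΛ1 2
        rw [sq_abs] at this
        calc Λ ^ 2 ≤ (2 * |lam| * V) ^ 2 := this
          _ = 4 * |lam| ^ 2 * V ^ 2 := by ring
          _ = _ := by rw [sq_abs]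
      have g2 : V ^ 2 ≤ V * g u := by nlinarith
      have g3 : (1 : ℝ) / 2 ≤ 1 - 1 / (u : ℝ) := by
        have : 1 / (u : ℝ) ≤ 1 / 2 := one_div_le_one_div_of_le (by norm_num) hur
        linarith
      have g4 : Λ ^ 2 ≤ 4 * lam ^ 2 * (V * g u) :=
        g1.trans (mul_le_mul_of_nonneg_left g2 (by positivity))
      have g5 : C u * Λ ^ 2 / u ≤ C u * (4 * lam ^ 2 * (V * g u)) / u := by
        apply div_le_div_of_nonneg_right _ hu0'.le
        exact mul_le_mul_of_nonneg_left g4 hcC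
      refine g5.trans ?_
      have g6 : 0 ≤ V * (8 * g u * C u / u * lam ^ 2) := by
        have : 0 ≤ g u := hV0.trans hVg
        positivity
      have g7 : C u * (4 * lam ^ 2 * (V * g u)) / u = 1 / 2 * (V * (8 * g u * C u / u * lam ^ 2)) := by ring
      rw [g7]
      calc 1 / 2 * (V * (8 * g u * C u / u * lam ^ 2)) ≤ (1 - 1 / (u : ℝ)) * (V * (8 * g u * C u / u * lam ^ 2)) :=
            mul_le_mul_of_nonneg_right g3 g6
        _ = _ := by ring
    have h10 : (S.card : ℝ) * Λ + (-(S.card * Λ) / u + S.card * (C u * Λ ^ 2) / u) =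
        S.card * (Λ * (1 - 1 / (u : ℝ)) + C u * Λ ^ 2 / u) := by
      field_simp
      ring
    rw [h10]
    apply mul_le_mul_of_nonneg_left _ (Nat.cast_nonneg _)
    rw [hΛ] at h9 ⊢
    have h11 : (1 - 1 / (u : ℝ)) * V * (lam + (8 * g u * C u / u + K) * lam ^ 2) =
        V * (lam + K * lam ^ 2) * (1 - 1 / (u : ℝ)) + (1 - 1 / (u : ℝ)) * V * (8 * g u * C u / u * lam ^ 2) := by ring
    rw [h11]
    linarith

end Pool.Agent.L7h6.TX
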