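import Pool.Agent.N918.MS.Seq

/-!
# Random sieve (helper6), part 18: random integers and metric sequences, sets with a fixed saving of powers of the logarithm

A version of the tools of `Pool.Agent.N918.MS` for one fixed exponent (the proofs are the same).
-/

set_option autoImplicit false

namespace Pool.Agent.L7h6.TX

open Finset MeasureTheory Filter
open scoped ENNReal Topology
open Pool.Agent.N918.MS (steep_density linear_density linear_small summable_exp_rpow)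

/-- the property `P` holds in the dyadic shells with a saving of `V` powers of the logarithm -/
def Shells (V : ℕ) (P : ℤ → Prop) : Prop := ∃ K : ℝ, 0 ≤ K ∧ ∀ j : ℕ,
  ({k : ℤ | k ∈ Set.Icc (-((2 : ℤ) ^ (j + 1))) (2 ^ (j + 1)) ∧ (2 : ℤ) ^ j ≤ |k| ∧ ¬ P k}.ncard : ℝ) ≤ K * 2 ^ j / (j + 1) ^ V

/-- **The tail estimate.** -/
theorem tail {P : ℤ → Prop} {V : ℕ} (h : Shells (V + 2) P) (C : ℝ) : ∃ K : ℝ, 0 ≤ K ∧ ∀ {Ω : Type} [MeasurableSpace Ω]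
    (μ : Measure Ω) (X : Ω → ℤ), (∀ k : ℤ, μ {ω | X ω = k} ≤ ENNReal.ofReal (C / (|(k : ℝ)| + 1))) →
    ∀ j₀ : ℕ, μ {ω | ¬ P (X ω) ∧ (2 : ℝ) ^ j₀ ≤ |(X ω : ℝ)|} ≤ ENNReal.ofReal (K / (j₀ + 1) ^ V) := by
  obtain ⟨K, hK0, hK⟩ := h
  have hsum : Summable fun j : ℕ => 1 / ((j : ℝ) + 1) ^ 2 := by
    have := (summable_nat_add_iff 1).2 (Real.summable_one_div_nat_pow.2 (one_lt_two))
    simpa using this
  refine ⟨K * |C| * ∑' j : ℕ, 1 / ((j : ℝ) + 1) ^ 2, ?_, ?_⟩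
  · have : 0 ≤ ∑' j : ℕ, 1 / ((j : ℝ) + 1) ^ 2 := tsum_nonneg fun j => by positivity
    positivity
  intro Ω _ μ X hX j₀
  have hshell : ∀ j : ℕ, μ {ω | ¬ P (X ω) ∧ (2 : ℝ) ^ j ≤ |(X ω : ℝ)| ∧ |(X ω : ℝ)| < 2 ^ (j + 1)} ≤
      ENNReal.ofReal (K * |C| / (j + 1) ^ (V + 2)) := by
    intro j
    set S : Set ℤ := {k : ℤ | k ∈ Set.Icc (-((2 : ℤ) ^ (j + 1))) (2 ^ (j + 1)) ∧ (2 : ℤ) ^ j ≤ |k| ∧ ¬ P k} with hS
    have hSf : S.Finite := (Set.finite_Icc _ _).subset fun k hk => hk.1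
    set S' : Finset ℤ := hSf.toFinset.filter (fun k => (2 : ℝ) ^ j ≤ |(k : ℝ)|) with hS'
    have hsub : {ω | ¬ P (X ω) ∧ (2 : ℝ) ^ j ≤ |(X ω : ℝ)| ∧ |(X ω : ℝ)| < 2 ^ (j + 1)} ⊆ ⋃ k ∈ S', {ω | X ω = k} := by
      rintro ω ⟨h1, h2, h3⟩
      simp only [Set.mem_iUnion, Set.mem_ofPred_eq, exists_prop, exists_eq_right', hS', Finset.mem_filter,
        Set.Finite.mem_toFinset, hS, Set.mem_Icc]
      have h4 := abs_lt.1 h3
      refine ⟨⟨⟨?_, ?_⟩, by exact_mod_cast h2, h1⟩, h2⟩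
      · have : ((-((2 : ℤ) ^ (j + 1)) : ℤ) : ℝ) ≤ (X ω : ℝ) := by push_cast; linarith
        exact_mod_cast this
      · have : (X ω : ℝ) ≤ (((2 : ℤ) ^ (j + 1) : ℤ) : ℝ) := by push_cast; linarith
        exact_mod_cast this
    refine (measure_mono hsub).trans ((measure_biUnion_finset_le _ _).trans ?_)
    have h1 : ∀ k ∈ S', μ {ω | X ω = k} ≤ ENNReal.ofReal (|C| / 2 ^ j) := by
      intro k hk
      refine (hX k).trans (ENNReal.ofReal_le_ofReal ?_)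
      have h2 : (2 : ℝ) ^ j ≤ |(k : ℝ)| := (Finset.mem_filter.1 hk).2
      have h3 : (0 : ℝ) < 2 ^ j := by positivity
      calc C / (|(k : ℝ)| + 1) ≤ |C| / (|(k : ℝ)| + 1) := by
            gcongr
            exact le_abs_self C
        _ ≤ |C| / 2 ^ j := by
            gcongr
            linarith
    refine (Finset.sum_le_sum h1).trans ?_
    rw [Finset.sum_const, nsmul_eq_mul, ← ENNReal.ofReal_natCast, ← ENNReal.ofReal_mul (Nat.cast_nonneg _)]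
    refine ENNReal.ofReal_le_ofReal ?_
    have h4 : ((#S' : ℕ) : ℝ) ≤ K * 2 ^ j / (j + 1) ^ (V + 2) := by
      refine le_trans ?_ (hK j)
      have : #S' ≤ S.ncard := by
        rw [Set.ncard_eq_toFinset_card S hSf]
        exact Finset.card_le_card (Finset.filter_subset _ _)
      exact_mod_cast this
    calc ((#S' : ℕ) : ℝ) * (|C| / 2 ^ j) ≤ K * 2 ^ j / (j + 1) ^ (V + 2) * (|C| / 2 ^ j) := by gcongr
      _ = K * |C| / (j + 1) ^ (V + 2) := by field_simp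
  have hcov : {ω | ¬ P (X ω) ∧ (2 : ℝ) ^ j₀ ≤ |(X ω : ℝ)|} ⊆ ⋃ i : ℕ,
      {ω | ¬ P (X ω) ∧ (2 : ℝ) ^ (j₀ + i) ≤ |(X ω : ℝ)| ∧ |(X ω : ℝ)| < 2 ^ (j₀ + i + 1)} := by
    rintro ω ⟨h1, h2⟩
    have h3 : (1 : ℝ) ≤ |(X ω : ℝ)| := le_trans (one_le_pow₀ one_le_two) h2
    obtain ⟨m, hm1, hm2⟩ := exists_nat_pow_near h3 one_lt_two
    have hm : j₀ ≤ m := by
      by_contra hlt
      push Not at hlt
      have : (2 : ℝ) ^ (m + 1) ≤ 2 ^ j₀ := pow_le_pow_right₀ one_le_two hlt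
      linarith
    refine Set.mem_iUnion.2 ⟨m - j₀, h1, ?_, ?_⟩ <;> rw [Nat.add_sub_cancel' hm] <;> assumption
  refine (measure_mono hcov).trans ((measure_iUnion_le _).trans ?_)
  have hterm : ∀ i : ℕ, K * |C| / (((j₀ + i : ℕ) : ℝ) + 1) ^ (V + 2) ≤
      K * |C| / (j₀ + 1) ^ V * (1 / ((i : ℝ) + 1) ^ 2) := by
    intro i
    rw [div_mul_div_comm, mul_one, pow_add]
    have h1 : ((j₀ : ℝ) + 1) ^ V ≤ (((j₀ + i : ℕ) : ℝ) + 1) ^ V := by
      push_cast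
      gcongr
      linarith [(Nat.cast_nonneg i : (0 : ℝ) ≤ i)]
    have h2 : ((i : ℝ) + 1) ^ 2 ≤ (((j₀ + i : ℕ) : ℝ) + 1) ^ 2 := by
      push_cast
      gcongr
      linarith [(Nat.cast_nonneg j₀ : (0 : ℝ) ≤ j₀)]
    gcongr
  have hsum2 : Summable fun i : ℕ => K * |C| / (j₀ + 1) ^ V * (1 / ((i : ℝ) + 1) ^ 2) := hsum.mul_left _
  calc ∑' i : ℕ, μ {ω | ¬ P (X ω) ∧ (2 : ℝ) ^ (j₀ + i) ≤ |(X ω : ℝ)| ∧ |(X ω : ℝ)| < 2 ^ (j₀ + i + 1)}
      ≤ ∑' i : ℕ, ENNReal.ofReal (K * |C| / (j₀ + 1) ^ V * (1 / ((i : ℝ) + 1) ^ 2)) := by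
        refine ENNReal.tsum_le_tsum fun i => (hshell (j₀ + i)).trans (ENNReal.ofReal_le_ofReal (hterm i))
    _ = ENNReal.ofReal (∑' i : ℕ, K * |C| / (j₀ + 1) ^ V * (1 / ((i : ℝ) + 1) ^ 2)) :=
        (ENNReal.ofReal_tsum_of_nonneg (fun i => by positivity) hsum2).symm
    _ = ENNReal.ofReal (K * |C| * (∑' j : ℕ, 1 / ((j : ℝ) + 1) ^ 2) / (j₀ + 1) ^ V) := by
        rw [tsum_mul_left]
        congr 1
        ring

/-- **Random integers with `log |X_n| ≥ n ^ δ`.** No independence is needed. -/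
theorem random_eventually {P : ℤ → Prop} {δ : ℝ} (h : Shells (⌈2 / δ⌉₊ + 2) P) {Ω : Type} [MeasurableSpace Ω] (μ : Measure Ω)
    (X : ℕ → Ω → ℤ) {C : ℝ} (hδ : 0 < δ) (hX : ∀ n (k : ℤ), μ {ω | X n ω = k} ≤ ENNReal.ofReal (C / (|(k : ℝ)| + 1)))
    (hs : ∑' n : ℕ, μ {ω | |(X n ω : ℝ)| < Real.exp ((n : ℝ) ^ δ)} ≠ ∞) :
    ∀ᵐ ω ∂μ, ∀ᶠ n in atTop, P (X n ω) := by
  set V : ℕ := ⌈2 / δ⌉₊ with hV
  have hVδ : 2 ≤ δ * V := by
    have : 2 / δ ≤ V := Nat.le_ceil _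
    rw [div_le_iff₀ hδ] at this
    linarith
  obtain ⟨K, hK0, hK⟩ := tail (V := V) (by rw [hV]; exact h) C
  have hb : ∀ n : ℕ, μ {ω | ¬ P (X (n + 1) ω)} ≤ μ {ω | |(X (n + 1) ω : ℝ)| < Real.exp (((n + 1 : ℕ) : ℝ) ^ δ)} +
      ENNReal.ofReal (K * (1 / ((n : ℝ) + 1) ^ 2)) := by
    intro n
    set j : ℕ := ⌊((n + 1 : ℕ) : ℝ) ^ δ⌋₊ with hj
    have hn0 : (0 : ℝ) ≤ ((n + 1 : ℕ) : ℝ) ^ δ := by positivity
    have h2 : (2 : ℝ) ^ j ≤ Real.exp (((n + 1 : ℕ) : ℝ) ^ δ) := by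
      calc (2 : ℝ) ^ j ≤ Real.exp 1 ^ j := by
            gcongr
            have := Real.exp_one_gt_d9
            linarith
        _ = Real.exp j := by rw [← Real.exp_nat_mul, mul_one]
        _ ≤ _ := Real.exp_le_exp.2 (Nat.floor_le hn0)
    have hsub : {ω | ¬ P (X (n + 1) ω)} ⊆ {ω | |(X (n + 1) ω : ℝ)| < Real.exp (((n + 1 : ℕ) : ℝ) ^ δ)} ∪
        {ω | ¬ P (X (n + 1) ω) ∧ (2 : ℝ) ^ j ≤ |(X (n + 1) ω : ℝ)|} := by
      intro ω hω
      by_cases h3 : |(X (n + 1) ω : ℝ)| < Real.exp (((n + 1 : ℕ) : ℝ) ^ δ)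
      · exact Or.inl h3
      · exact Or.inr ⟨hω, h2.trans (not_lt.1 h3)⟩
    refine (measure_mono hsub).trans ((measure_union_le _ _).trans ?_)
    gcongr
    refine (hK μ (X (n + 1)) (hX (n + 1)) j).trans (ENNReal.ofReal_le_ofReal ?_)
    have h5 : ((n + 1 : ℕ) : ℝ) ^ δ < j + 1 := Nat.lt_floor_add_one _
    have h8 : (1 : ℝ) ≤ ((n + 1 : ℕ) : ℝ) := by exact_mod_cast Nat.succ_le_succ (Nat.zero_le n)
    have h4 : ((n : ℝ) + 1) ^ 2 ≤ ((j : ℝ) + 1) ^ V := by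
      calc ((n : ℝ) + 1) ^ 2 = ((n + 1 : ℕ) : ℝ) ^ (2 : ℝ) := by
            rw [← Real.rpow_natCast]; push_cast; rfl
        _ ≤ ((n + 1 : ℕ) : ℝ) ^ (δ * V) := Real.rpow_le_rpow_of_exponent_le h8 hVδ
        _ = (((n + 1 : ℕ) : ℝ) ^ δ) ^ V := by rw [Real.rpow_mul (by positivity), Real.rpow_natCast]
        _ ≤ _ := by gcongr
    rw [mul_one_div]
    gcongr
  have hsum : ∑' n : ℕ, μ {ω | ¬ P (X (n + 1) ω)} ≠ ∞ := by
    refine ne_top_of_le_ne_top ?_ (ENNReal.tsum_le_tsum hb)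
    rw [ENNReal.tsum_add]
    refine ENNReal.add_ne_top.2 ⟨?_, ?_⟩
    · refine ne_top_of_le_ne_top hs ?_
      exact ENNReal.tsum_comp_le_tsum_of_injective (f := fun n : ℕ => n + 1) (fun a b hab => by simpa using hab)
        (fun n : ℕ => μ {ω | |(X n ω : ℝ)| < Real.exp ((n : ℝ) ^ δ)})
    · have h1 : Summable fun n : ℕ => K * (1 / ((n : ℝ) + 1) ^ 2) := by
        have := (summable_nat_add_iff 1).2 (Real.summable_one_div_nat_pow.2 (one_lt_two))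
        refine Summable.mul_left _ ?_
        simpa using this
      rw [← ENNReal.ofReal_tsum_of_nonneg (fun n => by positivity) h1]
      exact ENNReal.ofReal_ne_top
  filter_upwards [ae_eventually_notMem hsum] with ω hω
  obtain ⟨N, hN⟩ := eventually_atTop.1 hω
  refine eventually_atTop.2 ⟨N + 1, fun n hn => ?_⟩
  have := hN (n - 1) (by omega)
  simp only [not_not] at this
  rwa [Nat.sub_add_cancel (by omega)] at this

/-- **Functions with a large logarithmic derivative.** -/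
theorem steep_eventually {P : ℤ → Prop} {A B c δ : ℝ} (hP : Shells (⌈2 / (δ / 2)⌉₊ + 2) P) (hc : 0 < c) (hδ : 0 < δ) (h : ℕ → ℝ → ℝ)
    (hh : ∀ᶠ n : ℕ in atTop, ∀ x ∈ Set.Icc A B, DifferentiableAt ℝ (h n) x ∧ c * |h n x| ≤ |deriv (h n) x| ∧
      Real.exp ((n : ℝ) ^ δ) ≤ |h n x|) :
    ∀ᵐ x : ℝ, x ∈ Set.Icc A B → ∀ᶠ n in atTop, P ⌊h n x⌋ := by
  obtain ⟨n₀, hn₀⟩ := eventually_atTop.1 hh
  have hmono : ∀ n : ℕ, ∀ x ∈ Set.Icc A B, Real.exp ((n : ℝ) ^ δ) ≤ |h (n + n₀) x| := fun n x hx => by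
    refine le_trans (Real.exp_le_exp.2 ?_) (hn₀ (n + n₀) (by omega) x hx).2.2
    refine Real.rpow_le_rpow (Nat.cast_nonneg _) ?_ hδ.le
    exact_mod_cast Nat.le_add_right n n₀
  have h1 : ∀ᵐ x ∂(volume.restrict (Set.Icc A B)), ∀ᶠ n in atTop, P ⌊h (n + n₀) x⌋ := by
    refine random_eventually (δ := δ / 2) hP _ (fun n x => ⌊h (n + n₀) x⌋) (C := 3 / c) (half_pos hδ) (fun n k => ?_) ?_
    · refine steep_density hc (fun x hx => ?_) k
      have h2 := hn₀ (n + n₀) (by omega) x hx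
      exact ⟨h2.1, h2.2.1, le_trans (Real.one_le_exp (by positivity)) (hmono n x hx)⟩
    · have ht2 : Tendsto (fun n : ℕ => (n : ℝ) ^ (δ / 2)) atTop atTop :=
        (tendsto_rpow_atTop (half_pos hδ)).comp tendsto_natCast_atTop_atTop
      obtain ⟨n₁, hn₁⟩ := eventually_atTop.1 (ht2.eventually_ge_atTop 2)
      have hzero : ∀ n : ℕ, n ∉ range n₁ → (volume.restrict (Set.Icc A B))
          {x : ℝ | |((⌊h (n + n₀) x⌋ : ℤ) : ℝ)| < Real.exp ((n : ℝ) ^ (δ / 2))} = 0 := by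
        intro n hn
        have hn' : n₁ ≤ n := not_lt.1 fun hlt => hn (Finset.mem_range.2 hlt)
        rw [Measure.restrict_apply' measurableSet_Icc]
        have : {x : ℝ | |((⌊h (n + n₀) x⌋ : ℤ) : ℝ)| < Real.exp ((n : ℝ) ^ (δ / 2))} ∩ Set.Icc A B = ∅ := by
          rw [Set.eq_empty_iff_forall_notMem]
          rintro x ⟨hx1, hx2⟩
          have h2 := hmono n x hx2
          have h3 : (2 : ℝ) ≤ (n : ℝ) ^ (δ / 2) := hn₁ n hn'
          have h4 : (n : ℝ) ^ δ = (n : ℝ) ^ (δ / 2) * (n : ℝ) ^ (δ / 2) := by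
            rw [← Real.rpow_add_of_nonneg (Nat.cast_nonneg _) (half_pos hδ).le (half_pos hδ).le, add_halves]
          have h5 : Real.exp ((n : ℝ) ^ (δ / 2)) + 1 ≤ Real.exp ((n : ℝ) ^ δ) := by
            have h6 : (n : ℝ) ^ (δ / 2) + 1 ≤ (n : ℝ) ^ δ := by
              rw [h4]
              nlinarith
            have h7 : Real.exp ((n : ℝ) ^ (δ / 2)) * 2 ≤ Real.exp ((n : ℝ) ^ δ) := by
              calc Real.exp ((n : ℝ) ^ (δ / 2)) * 2 ≤ Real.exp ((n : ℝ) ^ (δ / 2)) * Real.exp 1 := by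
                    gcongr
                    have := Real.exp_one_gt_d9
                    linarith
                _ = Real.exp ((n : ℝ) ^ (δ / 2) + 1) := (Real.exp_add _ _).symm
                _ ≤ _ := Real.exp_le_exp.2 h6
            have h8 : 1 ≤ Real.exp ((n : ℝ) ^ (δ / 2)) := Real.one_le_exp (by positivity)
            linarith
          have h9 : |((⌊h (n + n₀) x⌋ : ℤ) : ℝ)| < Real.exp ((n : ℝ) ^ (δ / 2)) := hx1
          have h10 : |h (n + n₀) x| ≤ |((⌊h (n + n₀) x⌋ : ℤ) : ℝ)| + 1 := by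
            have h11 := abs_sub_abs_le_abs_sub (h (n + n₀) x) ((⌊h (n + n₀) x⌋ : ℤ) : ℝ)
            have h12 : |h (n + n₀) x - ((⌊h (n + n₀) x⌋ : ℤ) : ℝ)| ≤ 1 := by
              rw [abs_le]
              constructor <;> linarith [Int.floor_le (h (n + n₀) x), Int.lt_floor_add_one (h (n + n₀) x)]
            linarith
          linarith
        rw [this, measure_empty]
      rw [tsum_eq_sum hzero]
      refine (ENNReal.sum_lt_top.2 fun n _ => ?_).ne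
      refine lt_of_le_of_lt (measure_mono (Set.subset_univ _)) ?_
      rw [Measure.restrict_apply_univ, Real.volume_Icc]
      exact ENNReal.ofReal_lt_top
  have h2 := (ae_restrict_iff' measurableSet_Icc).1 h1
  filter_upwards [h2] with x hx hx'
  obtain ⟨N, hN⟩ := eventually_atTop.1 (hx hx')
  refine eventually_atTop.2 ⟨N + n₀, fun n hn => ?_⟩
  have h3 := hN (n - n₀) (by omega)
  rwa [Nat.sub_add_cancel (by omega)] at h3

/-- **Powers.** -/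
theorem power_eventually {P : ℤ → Prop} (hP : Shells (⌈(2 : ℝ) / (1 / 2 / 2)⌉₊ + 2) P) {ξ : ℝ} (hξ : ξ ≠ 0) :
    ∀ᵐ x : ℝ, 1 < x → ∀ᶠ n : ℕ in atTop, P ⌊ξ * x ^ n⌋ := by
  have h1 : ∀ m : ℕ, ∀ᵐ x : ℝ, x ∈ Set.Icc (1 + 1 / ((m : ℝ) + 1)) (m + 1) → ∀ᶠ n : ℕ in atTop, P ⌊ξ * x ^ n⌋ := by
    intro m
    set A : ℝ := 1 + 1 / ((m : ℝ) + 1) with hA
    have hm0 : (0 : ℝ) < 1 / ((m : ℝ) + 1) := by positivity
    have hA1 : 1 < A := by linarith
    have hm1 : (0 : ℝ) < (m : ℝ) + 1 := by positivity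
    refine steep_eventually (c := 1 / ((m : ℝ) + 1)) (δ := 1 / 2) hP (by positivity) (by norm_num)
      (fun n x => ξ * x ^ n) ?_
    have hlog : 0 < Real.log A := Real.log_pos hA1
    have ht : Tendsto (fun n : ℕ => (n : ℝ) ^ (1 / 2 : ℝ)) atTop atTop :=
      (tendsto_rpow_atTop (by norm_num)).comp tendsto_natCast_atTop_atTop
    filter_upwards [eventually_ge_atTop 1, ht.eventually_ge_atTop (1 / Real.log A * (1 + |Real.log (|ξ|)|))] with n hn1 hn2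
    intro x hx
    have hx0 : 0 < x := by linarith [hx.1]
    have hpow : HasDerivAt (fun x : ℝ => ξ * x ^ n) (ξ * (n * x ^ (n - 1))) x := (hasDerivAt_pow n x).const_mul ξ
    refine ⟨hpow.differentiableAt, ?_, ?_⟩
    · rw [hpow.deriv, abs_mul, abs_mul, abs_mul, abs_of_nonneg (pow_nonneg hx0.le n), abs_of_nonneg (pow_nonneg hx0.le (n - 1)),
        Nat.abs_cast]
      have h2 : x ^ n = x ^ (n - 1) * x := by rw [← pow_succ, Nat.sub_add_cancel hn1]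
      rw [h2]
      have h3 : (1 : ℝ) ≤ n := by exact_mod_cast hn1
      have h4 : 1 / ((m : ℝ) + 1) * x ≤ n := by
        rw [one_div, inv_mul_le_iff₀ hm1]
        nlinarith [hx.2]
      have h5 : 0 ≤ |ξ| * x ^ (n - 1) := by positivity
      calc 1 / ((m : ℝ) + 1) * (|ξ| * (x ^ (n - 1) * x)) = (|ξ| * x ^ (n - 1)) * (1 / ((m : ℝ) + 1) * x) := by ring
        _ ≤ (|ξ| * x ^ (n - 1)) * n := mul_le_mul_of_nonneg_left h4 h5
        _ = |ξ| * (n * x ^ (n - 1)) := by ring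
    · rw [abs_mul, abs_of_nonneg (pow_nonneg hx0.le n)]
      have hξ0 : 0 < |ξ| := abs_pos.2 hξ
      rw [← Real.exp_log hξ0, ← Real.exp_log (pow_pos hx0 n), ← Real.exp_add, Real.log_pow]
      refine Real.exp_le_exp.2 ?_
      set s : ℝ := (n : ℝ) ^ (1 / 2 : ℝ) with hs
      have hss : (n : ℝ) = s * s := by
        rw [hs, ← Real.rpow_add_of_nonneg (Nat.cast_nonneg _) (by norm_num) (by norm_num)]
        norm_num
      have hs1 : (1 : ℝ) ≤ s := Real.one_le_rpow (by exact_mod_cast hn1) (by norm_num)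
      have h6 : 1 + |Real.log (|ξ|)| ≤ s * Real.log A := by
        have h7 := hn2
        rw [one_div, inv_mul_le_iff₀ hlog] at h7
        linarith
      have h7 : Real.log A ≤ Real.log x := Real.log_le_log (by linarith) hx.1
      have h8 : -|Real.log (|ξ|)| ≤ Real.log |ξ| := neg_abs_le _
      have h9 : 0 ≤ |Real.log (|ξ|)| := abs_nonneg _
      have h10 : s * (s * Real.log A) ≤ (n : ℝ) * Real.log x := by
        rw [hss, mul_assoc]
        gcongr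
      nlinarith
  filter_upwards [ae_all_iff.2 h1] with x hx hx1
  obtain ⟨m₁, hm₁⟩ := exists_nat_ge x
  obtain ⟨m₂, hm₂⟩ := exists_nat_one_div_lt (sub_pos.2 hx1)
  refine hx (max m₁ m₂) ⟨?_, ?_⟩
  · have h2 : (1 : ℝ) / (((max m₁ m₂ : ℕ) : ℝ) + 1) ≤ 1 / ((m₂ : ℝ) + 1) := by
      refine one_div_le_one_div_of_le (by positivity) ?_
      have : ((m₂ : ℕ) : ℝ) ≤ ((max m₁ m₂ : ℕ) : ℝ) := by exact_mod_cast le_max_right m₁ m₂
      linarith
    linarith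
  · have : ((m₁ : ℕ) : ℝ) ≤ ((max m₁ m₂ : ℕ) : ℝ) := by exact_mod_cast le_max_left m₁ m₂
    linarith

/-- **Linear forms.** -/
theorem linear_eventually {P : ℤ → Prop} (d : ℕ) (a : ℕ → Fin d → ℝ) {δ : ℝ} (h : Shells (⌈2 / (δ / 2)⌉₊ + 2) P) (hδ : 0 < δ)
    (ha : ∀ᶠ n : ℕ in atTop, Real.exp ((n : ℝ) ^ δ) ≤ ‖a n‖) :
    ∀ᵐ α : Fin d → ℝ, ∀ᶠ n in atTop, P ⌊∑ i, a n i * α i⌋ := by
  obtain ⟨n₀, hn₀⟩ := eventually_atTop.1 ha
  rcases d with _ | d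
  · have h1 := hn₀ n₀ le_rfl
    have h2 : a n₀ = 0 := Subsingleton.elim _ _
    rw [h2, norm_zero] at h1
    exact absurd h1 (not_le.2 (Real.exp_pos _))
  obtain ⟨b, hb⟩ : ∃ b : ℕ → Fin (d + 1) → ℝ, ∀ n, b n = a (n + n₀) := ⟨_, fun _ => rfl⟩
  have hbn : ∀ n : ℕ, Real.exp ((n : ℝ) ^ δ) ≤ ‖b n‖ := fun n => by
    rw [hb]
    refine le_trans (Real.exp_le_exp.2 ?_) (hn₀ (n + n₀) (by omega))
    refine Real.rpow_le_rpow (Nat.cast_nonneg _) ?_ hδ.le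
    exact_mod_cast Nat.le_add_right n n₀
  have hb1 : ∀ n : ℕ, 1 ≤ ‖b n‖ := fun n => le_trans (Real.one_le_exp (by positivity)) (hbn n)
  have hM : ∀ M : ℕ, ∀ᵐ α ∂(volume.restrict (Set.Icc (fun _ : Fin (d + 1) => -(M : ℝ)) (fun _ => (M : ℝ)))),
      ∀ᶠ n in atTop, P ⌊∑ i, b n i * α i⌋ := by
    intro M
    refine random_eventually (δ := δ / 2) h _ (fun n (α : Fin (d + 1) → ℝ) => ⌊∑ i, b n i * α i⌋)
      (C := (2 * M) ^ d * ((d + 1) * M + 2)) (half_pos hδ) (fun n k => linear_density (b n) (hb1 n) M k) ?_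
    have hb2 : ∀ n : ℕ, (volume.restrict (Set.Icc (fun _ : Fin (d + 1) => -(M : ℝ)) (fun _ => (M : ℝ))))
        {α : Fin (d + 1) → ℝ | |((⌊∑ i, b n i * α i⌋ : ℤ) : ℝ)| < Real.exp ((n : ℝ) ^ (δ / 2))} ≤
        ENNReal.ofReal ((2 * M) ^ d * 3 * Real.exp ((n : ℝ) ^ (δ / 2) - (n : ℝ) ^ δ)) := by
      intro n
      refine (linear_small (b n) (by linarith [hb1 n]) M (Real.one_le_exp (by positivity))).trans
        (ENNReal.ofReal_le_ofReal ?_)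
      refine mul_le_mul_of_nonneg_left ?_ (by positivity)
      rw [Real.exp_sub]
      exact div_le_div_of_nonneg_left (Real.exp_pos _).le (Real.exp_pos _) (hbn n)
    refine ne_top_of_le_ne_top ?_ (ENNReal.tsum_le_tsum hb2)
    rw [← ENNReal.ofReal_tsum_of_nonneg (fun n => by positivity) ((summable_exp_rpow hδ).mul_left _)]
    exact ENNReal.ofReal_ne_top
  have h1 : ∀ M : ℕ, ∀ᵐ α : Fin (d + 1) → ℝ, α ∈ Set.Icc (fun _ : Fin (d + 1) => -(M : ℝ)) (fun _ => (M : ℝ)) →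
      ∀ᶠ n in atTop, P ⌊∑ i, b n i * α i⌋ := fun M => (ae_restrict_iff' measurableSet_Icc).1 (hM M)
  filter_upwards [ae_all_iff.2 h1] with α hα
  obtain ⟨M, hM'⟩ := exists_nat_ge ‖α‖
  have h3 : ∀ i, |α i| ≤ M := fun i => by
    rw [← Real.norm_eq_abs]
    exact (norm_le_pi_norm α i).trans hM'
  have h2 := hα M ⟨fun i => (abs_le.1 (h3 i)).1, fun i => (abs_le.1 (h3 i)).2⟩
  obtain ⟨N, hN⟩ := eventually_atTop.1 h2
  refine eventually_atTop.2 ⟨N + n₀, fun n hn => ?_⟩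
  have h3 := hN (n - n₀) (by omega)
  rw [hb, Nat.sub_add_cancel (by omega)] at h3
  exact h3

end Pool.Agent.L7h6.TX
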