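import Pool.Agent.L7h6.TX.Exc
import Pool.Agent.L7h6.TX.RM

/-!
# Random sieve (helper6), part 19: the dyadic shells
-/

set_option autoImplicit false

namespace Pool.Agent.L7h6.TX

open Finset Real Filter

/-- `v ≥ 2` has at most `r` prime factors, counted with multiplicity, all of them at least `v^(1/r)` -/
def AP (r v : ℕ) : Prop := 2 ≤ v ∧ v.primeFactorsList.length ≤ r ∧ ∀ p : ℕ, p.Prime → p ∣ v → v ≤ p ^ r

lemma AP_of {r v : ℕ} (hv : 2 ≤ v) (h : ∀ p : ℕ, p.Prime → p ∣ v → v ≤ p ^ r) : AP r v := by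
  refine ⟨hv, ?_, h⟩
  have hp := Nat.minFac_prime (show v ≠ 1 by omega)
  have hm := h v.minFac hp (Nat.minFac_dvd v)
  have h1 : v.minFac ^ v.primeFactorsList.length ≤ v.primeFactorsList.prod := by
    apply List.pow_card_le_prod
    intro p hp
    exact Nat.minFac_le_of_dvd (Nat.prime_of_mem_primeFactorsList hp).two_le (Nat.dvd_of_mem_primeFactorsList hp)
  rw [Nat.prod_primeFactorsList (by omega)] at h1
  exact (Nat.pow_le_pow_iff_right hp.one_lt).1 (h1.trans hm)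

/-- all intervals of length `(log k)^(1+ε)` near `k` contain almost primes -/
def Gd (r : ℕ) (ε : ℝ) (C : ℕ) (k : ℤ) : Prop := 0 ≤ k → ∀ u : ℕ, |(u : ℝ) - k| ≤ (log (k : ℝ)) ^ C →
  ∃ v : ℕ, u < v ∧ (v : ℝ) ≤ u + (log (k : ℝ)) ^ (1 + ε) ∧ AP r v

lemma not_Exm {X H u r : ℕ} {δ ε : ℝ} (_hδ : 0 < δ) (hX : 3 ≤ X) (hH : (H : ℝ) ≤ (log X) ^ (1 + ε)) (hHX : (log (X : ℝ)) ^ (1 + ε) ≤ X)
    (hr : 2 ≤ δ * r) (hu : X < u) (hu2 : u ≤ 2 * X) (h : u ∉ Exm X H ((X : ℝ) ^ δ)) :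
    ∃ v : ℕ, u < v ∧ (v : ℝ) ≤ u + (log X) ^ (1 + ε) ∧ AP r v := by
  classical
  unfold Exm at h
  rw [mem_filter, mem_Ioc] at h
  have h1 : ¬ ∀ j ∈ Icc 1 H, ∃ p : ℕ, p.Prime ∧ p ∣ u + j ∧ (p : ℝ) < (X : ℝ) ^ δ := fun h2 => h ⟨⟨hu, hu2⟩, h2⟩
  push Not at h1
  obtain ⟨j, hj, h2⟩ := h1
  rw [mem_Icc] at hj
  have hX3 : (3 : ℝ) ≤ X := by exact_mod_cast hX
  have hX0 : (0 : ℝ) < X := by linarith
  have hjH : (j : ℝ) ≤ (log X) ^ (1 + ε) := by
    have : (j : ℝ) ≤ H := by exact_mod_cast hj.2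
    linarith
  refine ⟨u + j, by omega, by push_cast; linarith, AP_of (by omega) fun p hp hpd => ?_⟩
  have h3 := h2 p hp hpd
  have h4 : ((u + j : ℕ) : ℝ) ≤ (p : ℝ) ^ r := by
    have g1 : ((u + j : ℕ) : ℝ) ≤ (X : ℝ) ^ (2 : ℝ) := by
      rw [show (2 : ℝ) = ((2 : ℕ) : ℝ) by norm_num, rpow_natCast]
      push_cast
      have : (u : ℝ) ≤ 2 * X := by exact_mod_cast hu2
      nlinarith
    have g2 : (X : ℝ) ^ (2 : ℝ) ≤ (X : ℝ) ^ (δ * r) := rpow_le_rpow_of_exponent_le (by linarith) hr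
    have g3 : (X : ℝ) ^ (δ * r) = ((X : ℝ) ^ δ) ^ r := by rw [rpow_mul hX0.le, rpow_natCast]
    have g4 : ((X : ℝ) ^ δ) ^ r ≤ (p : ℝ) ^ r := pow_le_pow_left₀ (by positivity) h3 r
    linarith
  exact_mod_cast h4

theorem shells (ε : ℝ) (hε : 0 < ε) (C V : ℕ) : ∃ r : ℕ, Shells V (Gd r ε C) := by
  classical
  obtain ⟨t0, ht0, He⟩ := exc
  have ht0r : (2 : ℝ) ≤ t0 := by exact_mod_cast ht0
  obtain ⟨ε', hε'⟩ : ∃ ε', ε' = min (ε / 2) (1 / (2 * t0)) := ⟨_, rfl⟩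
  have h1 : 0 < ε' := by rw [hε']; exact lt_min (by positivity) (by positivity)
  have h2 : ε' ≤ ε / 2 := by rw [hε']; exact min_le_left _ _
  have h3 : ε' < 1 / t0 := by
    have g1 : ε' ≤ 1 / (2 * t0) := by rw [hε']; exact min_le_right _ _
    have g2 : 1 / (2 * (t0 : ℝ)) < 1 / t0 := one_div_lt_one_div_of_lt (by linarith) (by linarith)
    linarith
  have h3' : ε' ≤ 1 := by
    have : 1 / (t0 : ℝ) ≤ 1 := by
      rw [div_le_one (by linarith)]
      linarith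
    linarith
  obtain ⟨δ, hδ, Hd⟩ := He ε' h1 h3 (V + C)
  obtain ⟨r, hr⟩ : ∃ r, r = ⌈2 / δ⌉₊ := ⟨_, rfl⟩
  have hr2 : 2 ≤ δ * r := by
    have : 2 / δ ≤ r := by rw [hr]; exact Nat.le_ceil _
    rw [div_le_iff₀ hδ] at this
    linarith
  refine ⟨r, ?_⟩
  have e2 : ∀ᶠ X : ℕ in atTop, (log (X : ℝ)) ^ (1 + ε') ≤ X := by
    have h := (isLittleO_log_rpow_rpow_atTop (s := 1) (1 + ε') (by norm_num)).bound (show (0 : ℝ) < 1 by norm_num)
    have h2 := tendsto_natCast_atTop_atTop (R := ℝ) |>.eventually h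
    filter_upwards [h2, eventually_ge_atTop 1] with X hX hX1
    have hXr : (1 : ℝ) ≤ X := by exact_mod_cast hX1
    rw [one_mul, norm_of_nonneg (rpow_nonneg (log_nonneg hXr) _), norm_of_nonneg (by positivity), rpow_one] at hX
    exact hX
  obtain ⟨X0, hX0⟩ := eventually_atTop.1 (Hd.and e2)
  have hsel : ∀ X : ℕ, ∃ H : ℕ, X0 ≤ X → (H : ℝ) ≤ (log X) ^ (1 + ε') ∧
      ((Exm X H ((X : ℝ) ^ δ)).card : ℝ) ≤ X / (log X) ^ (V + C) := by
    intro X
    by_cases h : X0 ≤ X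
    · obtain ⟨H, hH⟩ := (hX0 X h).1
      exact ⟨H, fun _ => hH⟩
    · exact ⟨0, fun h' => absurd h' h⟩
  choose Hf hHf using hsel
  obtain ⟨E, hE⟩ : ∃ E : ℕ → Finset ℕ, E = fun i => Exm (2 ^ i) (Hf (2 ^ i)) (((2 ^ i : ℕ) : ℝ) ^ δ) := ⟨_, rfl⟩
  -- conditions on j
  have hl2 : (1 / 2 : ℝ) ≤ log 2 := by have := Real.log_two_gt_d9; linarith
  have hl2' : log 2 ≤ 1 := by have := Real.log_two_lt_d9; linarith
  have c1 : ∀ᶠ j : ℕ in atTop, ((j : ℝ) + 1) ^ C ≤ 2 ^ (j - 2) := by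
    have h := (tendsto_pow_const_div_const_pow_of_one_lt (r := (2 : ℝ)) C (by norm_num))
    have h' := h.eventually (gt_mem_nhds (show (0 : ℝ) < 1 / (8) by norm_num))
    have h'' := (tendsto_add_atTop_nat 1).eventually h'
    filter_upwards [h'', eventually_ge_atTop 2] with j hj hj2
    rw [div_lt_iff₀ (by positivity)] at hj
    have e1 : (1 / 8 : ℝ) * 2 ^ (j + 1) = 2 ^ (j - 2) := by
      have : j + 1 = (j - 2) + 3 := by omega
      rw [this, pow_add]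
      ring
    rw [e1] at hj
    push_cast at hj
    exact hj.le
  have c3 : ∀ᶠ j : ℕ in atTop, 2 ^ (1 + ε / 2) ≤ ((j : ℝ) * log 2) ^ (ε / 2) := by
    have ht : Tendsto (fun j : ℕ => ((j : ℝ) * log 2) ^ (ε / 2)) atTop atTop := by
      refine (tendsto_rpow_atTop (show 0 < ε / 2 by positivity)).comp ?_
      exact (tendsto_natCast_atTop_atTop (R := ℝ)).atTop_mul_const (by linarith)
    exact ht.eventually_ge_atTop _
  obtain ⟨j0, hj0⟩ := eventually_atTop.1 (c1.and (c3.and (eventually_ge_atTop (X0 + 5))))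
  obtain ⟨A, hA⟩ : ∃ A, A = V + C := ⟨_, rfl⟩
  refine ⟨18 * 6 ^ A + 5 * ((j0 : ℝ) + 1) ^ V, by positivity, fun j => ?_⟩
  have hj1 : (0 : ℝ) < ((j : ℝ) + 1) ^ V := by positivity
  rw [le_div_iff₀ hj1]
  by_cases hj : j0 ≤ j
  · obtain ⟨d1, d3, d4⟩ := hj0 j hj
    obtain ⟨D, hD⟩ : ∃ D : ℕ, D = (j + 1) ^ C := ⟨_, rfl⟩
    have hDr : (D : ℝ) = ((j : ℝ) + 1) ^ C := by rw [hD]; push_cast; rfl
    have hDj : D ≤ 2 ^ (j - 2) := by
      have : (D : ℝ) ≤ 2 ^ (j - 2) := by rw [hDr]; exact d1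
      exact_mod_cast this
    have hsub : {k : ℤ | k ∈ Set.Icc (-((2 : ℤ) ^ (j + 1))) (2 ^ (j + 1)) ∧ (2 : ℤ) ^ j ≤ |k| ∧ ¬ Gd r ε C k} ⊆
        ↑(((E (j - 1) ∪ E j ∪ E (j + 1)) ×ˢ Icc (-(D : ℤ)) D).image (fun w : ℕ × ℤ => (w.1 : ℤ) + w.2)) := by
      rintro k ⟨hk1, hk2, hk3⟩
      unfold Gd at hk3
      push Not at hk3
      obtain ⟨hk0, u, hu, hv⟩ := hk3
      rw [abs_of_nonneg hk0] at hk2
      have hk4 : k ≤ 2 ^ (j + 1) := hk1.2
      have hkr1 : (2 : ℝ) ^ j ≤ k := by exact_mod_cast hk2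
      have hkr2 : (k : ℝ) ≤ 2 ^ (j + 1) := by exact_mod_cast hk4
      have hkpos : (0 : ℝ) < k := lt_of_lt_of_le (by positivity) hkr1
      have hlogk1 : (j : ℝ) * log 2 ≤ log (k : ℝ) := by
        have := Real.log_le_log (by positivity) hkr1
        rwa [Real.log_pow] at this
      have hlogk2 : log (k : ℝ) ≤ (j : ℝ) + 1 := by
        have := Real.log_le_log hkpos hkr2
        rw [Real.log_pow] at this
        push_cast at this
        have h5 : (0 : ℝ) ≤ (j : ℝ) + 1 := by positivity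
        nlinarith
      have hlog0 : 0 ≤ log (k : ℝ) := le_trans (by positivity) hlogk1
      have huD : |(u : ℝ) - k| ≤ D := by
        refine hu.trans ?_
        rw [hDr]
        exact pow_le_pow_left₀ hlog0 hlogk2 C
      have huD' : |(u : ℤ) - k| ≤ D := by exact_mod_cast huD
      rw [abs_le] at huD'
      -- the position of u
      obtain ⟨q, hq⟩ : ∃ q, q = 2 ^ (j - 2) := ⟨_, rfl⟩
      have p1 : 2 ^ (j - 1) = 2 * q := by rw [hq, ← pow_succ']; congr 1; omega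
      have p2 : 2 ^ j = 4 * q := by
        rw [hq, show j = (j - 2) + 2 by omega, pow_add]
        simp only [Nat.add_sub_cancel]
        ring
      have p3 : 2 ^ (j + 1) = 8 * q := by rw [pow_succ, p2]; ring
      have p4 : (2 : ℤ) ^ j = 4 * q := by exact_mod_cast p2
      have p5 : (2 : ℤ) ^ (j + 1) = 8 * q := by exact_mod_cast p3
      have hq1 : 1 ≤ q := by rw [hq]; exact Nat.one_le_two_pow
      rw [p4] at hk2
      rw [p5] at hk4
      rw [← hq] at hDj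
      have hDj' : (D : ℤ) ≤ q := by exact_mod_cast hDj
      have u1 : 2 * q < u := by omega
      have u2 : u ≤ 16 * q := by omega
      have hex : ∃ i, X0 ≤ 2 ^ i ∧ 3 ≤ 2 ^ i ∧ i ≤ j + 1 ∧ 2 ^ i < u ∧ u ≤ 2 * 2 ^ i ∧ (i = j - 1 ∨ i = j ∨ i = j + 1) := by
        have hX0j : X0 ≤ 2 ^ (j - 1) := by
          have : X0 < 2 ^ X0 := Nat.lt_two_pow_self
          have h6 : 2 ^ X0 ≤ 2 ^ (j - 1) := Nat.pow_le_pow_right (by norm_num) (by omega)
          omega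
        have h3j : 3 ≤ 2 ^ (j - 1) := by
          have h6 : 2 ^ 2 ≤ 2 ^ (j - 1) := Nat.pow_le_pow_right (by norm_num) (by omega)
          omega
        rcases le_or_gt u (4 * q) with h | h
        · exact ⟨j - 1, hX0j, h3j, by omega, by omega, by omega, Or.inl rfl⟩
        · rcases le_or_gt u (8 * q) with h' | h'
          · exact ⟨j, by omega, by omega, by omega, by omega, by omega, Or.inr (Or.inl rfl)⟩
          · exact ⟨j + 1, by omega, by omega, by omega, by omega, by omega, Or.inr (Or.inr rfl)⟩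
      obtain ⟨i, i1, i2, i3, i4, i5, i6⟩ := hex
      have huE : u ∈ E i := by
        by_contra hne
        obtain ⟨g1, g2⟩ := hHf (2 ^ i) i1
        rw [hE] at hne
        obtain ⟨v, v1, v2, v3⟩ := not_Exm hδ i2 g1 (hX0 (2 ^ i) i1).2 hr2 i4 i5 hne
        refine hv v v1 (v2.trans ?_) v3
        apply add_le_add le_rfl
        have g3 : log ((2 ^ i : ℕ) : ℝ) ≤ 2 * ((j : ℝ) * log 2) := by
          push_cast
          rw [Real.log_pow]
          have : (i : ℝ) ≤ 2 * j := by exact_mod_cast (show i ≤ 2 * j by omega)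
          nlinarith
        have g0 : 0 ≤ log ((2 ^ i : ℕ) : ℝ) := Real.log_natCast_nonneg _
        have hjl : 1 ≤ (j : ℝ) * log 2 := by
          have : (2 : ℝ) ≤ j := by exact_mod_cast (show 2 ≤ j by omega)
          nlinarith
        calc (log ((2 ^ i : ℕ) : ℝ)) ^ (1 + ε') ≤ (2 * ((j : ℝ) * log 2)) ^ (1 + ε') :=
              rpow_le_rpow g0 g3 (by linarith)
          _ ≤ (2 * ((j : ℝ) * log 2)) ^ (1 + ε / 2) := rpow_le_rpow_of_exponent_le (by linarith) (by linarith)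
          _ = 2 ^ (1 + ε / 2) * ((j : ℝ) * log 2) ^ (1 + ε / 2) := mul_rpow (by norm_num) (by linarith)
          _ ≤ ((j : ℝ) * log 2) ^ (ε / 2) * ((j : ℝ) * log 2) ^ (1 + ε / 2) :=
              mul_le_mul_of_nonneg_right d3 (by positivity)
          _ = ((j : ℝ) * log 2) ^ (1 + ε) := by
              rw [← rpow_add (by linarith)]
              congr 1
              ring
          _ ≤ (log (k : ℝ)) ^ (1 + ε) := rpow_le_rpow (by linarith) hlogk1 (by linarith)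
      rw [Finset.mem_coe, mem_image]
      refine ⟨(u, k - u), ?_, by simp⟩
      rw [mem_product, mem_union, mem_union, mem_Icc]
      refine ⟨?_, by simp only []; omega, by simp only []; omega⟩
      simp only []
      rcases i6 with h | h | h
      · rw [← h]; exact Or.inl (Or.inl huE)
      · rw [← h]; exact Or.inl (Or.inr huE)
      · rw [← h]; exact Or.inr huE
    have hcard : ({k : ℤ | k ∈ Set.Icc (-((2 : ℤ) ^ (j + 1))) (2 ^ (j + 1)) ∧ (2 : ℤ) ^ j ≤ |k| ∧ ¬ Gd r ε C k}.ncard : ℝ) ≤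
        (((E (j - 1)).card : ℝ) + (E j).card + (E (j + 1)).card) * (2 * D + 1) := by
      have g1 := Set.ncard_le_ncard hsub (Finset.finite_toSet _)
      rw [Set.ncard_coe_finset] at g1
      have g2 : (((E (j - 1) ∪ E j ∪ E (j + 1)) ×ˢ Icc (-(D : ℤ)) D).image (fun w : ℕ × ℤ => (w.1 : ℤ) + w.2)).card ≤
          ((E (j - 1)).card + (E j).card + (E (j + 1)).card) * (2 * D + 1) := by
        refine card_image_le.trans ?_
        rw [card_product, Int.card_Icc]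
        have g3 : ((D : ℤ) + 1 - -(D : ℤ)).toNat = 2 * D + 1 := by omega
        rw [g3]
        apply Nat.mul_le_mul_right
        exact (card_union_le _ _).trans (Nat.add_le_add_right (card_union_le _ _) _)
      exact_mod_cast g1.trans g2
    have hEi : ∀ i, j - 1 ≤ i → i ≤ j + 1 → ((E i).card : ℝ) ≤ 2 * 2 ^ j * 6 ^ A / ((j : ℝ) + 1) ^ A := by
      intro i hi1 hi2
      have hX0i : X0 ≤ 2 ^ i := by
        have : X0 < 2 ^ X0 := Nat.lt_two_pow_self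
        have h6 : 2 ^ X0 ≤ 2 ^ i := Nat.pow_le_pow_right (by norm_num) (by omega)
        omega
      obtain ⟨_, g2⟩ := hHf (2 ^ i) hX0i
      rw [hE]
      refine g2.trans ?_
      push_cast
      rw [Real.log_pow, ← hA]
      have g3 : ((j : ℝ) + 1) / 6 ≤ (i : ℝ) * log 2 := by
        have g4 : (j : ℝ) - 1 ≤ i := by
          have : j ≤ i + 1 := by omega
          have h7 : (j : ℝ) ≤ i + 1 := by exact_mod_cast this
          linarith
        have g5 : (5 : ℝ) ≤ j := by exact_mod_cast (show 5 ≤ j by omega)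
        nlinarith
      have g4 : (((j : ℝ) + 1) / 6) ^ A ≤ ((i : ℝ) * log 2) ^ A := pow_le_pow_left₀ (by positivity) g3 A
      have g5 : (2 : ℝ) ^ i ≤ 2 * 2 ^ j := by
        calc (2 : ℝ) ^ i ≤ 2 ^ (j + 1) := pow_le_pow_right₀ (by norm_num) hi2
          _ = _ := by rw [pow_succ]; ring
      calc (2 : ℝ) ^ i / ((i : ℝ) * log 2) ^ A ≤ 2 * 2 ^ j / (((j : ℝ) + 1) / 6) ^ A :=
            div_le_div₀ (by positivity) g5 (by positivity) g4
        _ = _ := by rw [div_pow]; field_simp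
    have t1 := hEi (j - 1) le_rfl (by omega)
    have t2 := hEi j (by omega) (by omega)
    have t3 := hEi (j + 1) (by omega) le_rfl
    have hD3 : (2 * D + 1 : ℝ) ≤ 3 * ((j : ℝ) + 1) ^ C := by
      rw [hDr]
      have : 1 ≤ ((j : ℝ) + 1) ^ C := one_le_pow₀ (by linarith [(Nat.cast_nonneg j : (0 : ℝ) ≤ j)])
      linarith
    have t4 : (((E (j - 1)).card : ℝ) + (E j).card + (E (j + 1)).card) * (2 * D + 1) ≤
        (3 * (2 * 2 ^ j * 6 ^ A / ((j : ℝ) + 1) ^ A)) * (3 * ((j : ℝ) + 1) ^ C) :=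
      mul_le_mul (by linarith) hD3 (by positivity) (by positivity)
    have t5 : (3 * (2 * 2 ^ j * 6 ^ A / ((j : ℝ) + 1) ^ A)) * (3 * ((j : ℝ) + 1) ^ C) * ((j : ℝ) + 1) ^ V =
        18 * 6 ^ A * 2 ^ j := by
      have : ((j : ℝ) + 1) ^ A = ((j : ℝ) + 1) ^ V * ((j : ℝ) + 1) ^ C := by rw [hA, pow_add]
      rw [this]
      field_simp
      ring
    calc _ ≤ (3 * (2 * 2 ^ j * 6 ^ A / ((j : ℝ) + 1) ^ A)) * (3 * ((j : ℝ) + 1) ^ C) * ((j : ℝ) + 1) ^ V :=
          mul_le_mul_of_nonneg_right (hcard.trans t4) hj1.le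
      _ = 18 * 6 ^ A * 2 ^ j := t5
      _ ≤ _ := by
          apply mul_le_mul_of_nonneg_right _ (by positivity)
          have : 0 ≤ 5 * ((j0 : ℝ) + 1) ^ V := by positivity
          linarith
  · have hjj : j ≤ j0 := by omega
    have g1 : {k : ℤ | k ∈ Set.Icc (-((2 : ℤ) ^ (j + 1))) (2 ^ (j + 1)) ∧ (2 : ℤ) ^ j ≤ |k| ∧ ¬ Gd r ε C k}.ncard ≤
        (Set.Icc (-((2 : ℤ) ^ (j + 1))) (2 ^ (j + 1))).ncard :=
      Set.ncard_le_ncard (fun k hk => hk.1) (Set.finite_Icc _ _)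
    have g2 : (Set.Icc (-((2 : ℤ) ^ (j + 1))) (2 ^ (j + 1))).ncard = 2 * 2 ^ (j + 1) + 1 := by
      rw [← Finset.coe_Icc, Set.ncard_coe_finset, Int.card_Icc]
      have : (2 : ℤ) ^ (j + 1) + 1 - -2 ^ (j + 1) = ((2 * 2 ^ (j + 1) + 1 : ℕ) : ℤ) := by push_cast; ring
      rw [this, Int.toNat_natCast]
    rw [g2] at g1
    have g3 : ({k : ℤ | k ∈ Set.Icc (-((2 : ℤ) ^ (j + 1))) (2 ^ (j + 1)) ∧ (2 : ℤ) ^ j ≤ |k| ∧ ¬ Gd r ε C k}.ncard : ℝ) ≤
        2 * 2 ^ (j + 1) + 1 := by exact_mod_cast g1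
    have g4 : (2 : ℝ) * 2 ^ (j + 1) + 1 ≤ 5 * 2 ^ j := by
      have : (1 : ℝ) ≤ 2 ^ j := one_le_pow₀ one_le_two
      rw [pow_succ]
      linarith
    have g5 : ((j : ℝ) + 1) ^ V ≤ ((j0 : ℝ) + 1) ^ V := by
      apply pow_le_pow_left₀ (by positivity)
      have : (j : ℝ) ≤ j0 := by exact_mod_cast hjj
      linarith
    calc _ ≤ (5 * 2 ^ j) * ((j0 : ℝ) + 1) ^ V := mul_le_mul (g3.trans g4) g5 hj1.le (by positivity)
      _ = 5 * ((j0 : ℝ) + 1) ^ V * 2 ^ j := by ring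
      _ ≤ _ := by
          apply mul_le_mul_of_nonneg_right _ (by positivity)
          have : (0 : ℝ) ≤ 18 * 6 ^ A := by positivity
          linarith

end Pool.Agent.L7h6.TX
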