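import Mathlib

/-!
# Random sieve (helper6), part 1: removal of a random class modulo each prime of a list
-/

set_option autoImplicit false

namespace Pool.Agent.L7h6.TX

open Finset

/-- the mean of `F` of what is left of `S` after the removal of a random class modulo each member of the list -/
noncomputable def EL : List ℕ → (Finset ℕ → ℝ) → Finset ℕ → ℝ
  | [], F, S => F S
  | p :: ps, F, S => (∑ a ∈ range p, EL ps F (S.filter (fun c => c % p ≠ a))) / p

lemma EL_mono {ps : List ℕ} {F G : Finset ℕ → ℝ} {J : Finset ℕ} (h : ∀ S ⊆ J, F S ≤ G S) :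
    ∀ S ⊆ J, EL ps F S ≤ EL ps G S := by
  induction ps with
  | nil => exact h
  | cons p ps ih =>
    intro S hS
    unfold EL
    apply div_le_div_of_nonneg_right _ (Nat.cast_nonneg p)
    exact Finset.sum_le_sum fun a _ => ih _ ((filter_subset _ _).trans hS)

lemma EL_lin {ps : List ℕ} {ι : Type*} (s : Finset ι) (x : ι → ℝ) (F : ι → Finset ℕ → ℝ) (S : Finset ℕ) :
    EL ps (fun S => ∑ i ∈ s, x i * F i S) S = ∑ i ∈ s, x i * EL ps (F i) S := by
  induction ps generalizing S with
  | nil => rfl
  | cons p ps ih =>
    unfold EL
    simp only [ih]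
    rw [Finset.sum_comm, Finset.sum_div]
    refine Finset.sum_congr rfl fun i _ => ?_
    rw [← Finset.mul_sum, mul_div_assoc]

lemma EL_add {ps : List ℕ} (F G : Finset ℕ → ℝ) (S : Finset ℕ) :
    EL ps (fun S => F S + G S) S = EL ps F S + EL ps G S := by
  induction ps generalizing S with
  | nil => rfl
  | cons p ps ih =>
    unfold EL
    simp only [ih]
    rw [Finset.sum_add_distrib, add_div]

lemma EL_smul {ps : List ℕ} (x : ℝ) (F : Finset ℕ → ℝ) (S : Finset ℕ) :
    EL ps (fun S => x * F S) S = x * EL ps F S := by
  induction ps generalizing S with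
  | nil => rfl
  | cons p ps ih =>
    unfold EL
    simp only [ih]
    rw [← Finset.mul_sum, mul_div_assoc]

/-- the number of the classes modulo `p` of the set `T` -/
noncomputable def nu (T : Finset ℕ) (p : ℕ) : ℕ := (T.image (fun c => c % p)).card

lemma nu_le (T : Finset ℕ) {p : ℕ} (hp : 0 < p) : nu T p ≤ p := by
  unfold nu
  calc (T.image (fun c => c % p)).card ≤ (range p).card := by
        apply card_le_card
        intro a ha
        rw [mem_image] at ha
        obtain ⟨c, _, rfl⟩ := ha
        exact mem_range.2 (Nat.mod_lt c hp)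
    _ = p := card_range p

lemma nu_le_card (T : Finset ℕ) (p : ℕ) : nu T p ≤ T.card := card_image_le

open Classical in
/-- a given set is left -/
lemma EL_sub {ps : List ℕ} (hps : ∀ p ∈ ps, 0 < p) (T S : Finset ℕ) :
    EL ps (fun S => if T ⊆ S then 1 else 0) S =
      if T ⊆ S then (ps.map (fun p => 1 - (nu T p : ℝ) / p)).prod else 0 := by
  induction ps generalizing S with
  | nil => simp [EL]
  | cons p ps ih =>
    have hp : 0 < p := hps p (by simp)
    have ih' := ih (fun q hq => hps q (by simp [hq]))
    unfold EL
    simp only [ih']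
    obtain ⟨V, hV⟩ : ∃ V, V = (ps.map (fun p => 1 - (nu T p : ℝ) / p)).prod := ⟨_, rfl⟩
    rw [List.map_cons, List.prod_cons, ← hV]
    have hpr : (0 : ℝ) < p := by exact_mod_cast hp
    by_cases hT : T ⊆ S
    · rw [if_pos hT]
      have h1 : ∀ a ∈ range p, (if T ⊆ S.filter (fun c => c % p ≠ a) then V else 0) =
          if a ∈ T.image (fun c => c % p) then 0 else V := by
        intro a _
        by_cases ha : a ∈ T.image (fun c => c % p)
        · rw [if_pos ha, if_neg]
          intro h
          rw [mem_image] at ha
          obtain ⟨c, hc, hca⟩ := ha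
          exact (mem_filter.1 (h hc)).2 hca
        · rw [if_neg ha, if_pos]
          intro c hc
          rw [mem_filter]
          refine ⟨hT hc, fun h => ha ?_⟩
          rw [mem_image]
          exact ⟨c, hc, h⟩
      rw [Finset.sum_congr rfl h1, Finset.sum_ite, Finset.sum_const_zero, zero_add, Finset.sum_const, nsmul_eq_mul]
      have h2 : ((range p).filter (fun a => ¬ a ∈ T.image (fun c => c % p))).card + nu T p = p := by
        have h3 := Finset.card_filter_add_card_filter_not (s := range p) (fun a => a ∈ T.image (fun c => c % p))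
        have h4 : (range p).filter (fun a => a ∈ T.image (fun c => c % p)) = T.image (fun c => c % p) := by
          ext a
          rw [mem_filter]
          refine ⟨fun h => h.2, fun h => ⟨?_, h⟩⟩
          rw [mem_image] at h
          obtain ⟨c, _, rfl⟩ := h
          exact mem_range.2 (Nat.mod_lt c hp)
        rw [h4, card_range] at h3
        unfold nu
        omega
      have h5 : (((range p).filter (fun a => ¬ a ∈ T.image (fun c => c % p))).card : ℝ) = p - nu T p := by
        have : ((((range p).filter (fun a => ¬ a ∈ T.image (fun c => c % p))).card + nu T p : ℕ) : ℝ) = p := by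
          exact_mod_cast h2
        push_cast at this
        linarith
      rw [h5]
      field_simp
    · rw [if_neg hT]
      have h1 : ∀ a ∈ range p, (if T ⊆ S.filter (fun c => c % p ≠ a) then V else 0) = 0 := by
        intro a _
        rw [if_neg]
        exact fun h => hT (h.trans (filter_subset _ _))
      rw [Finset.sum_eq_zero h1, zero_div]

/-! ## The list of the primes in `[u, u + n)` -/

/-- the primes in `[u, u + n)` -/
def Lst : ℕ → ℕ → List ℕ
  | _, 0 => []
  | u, n + 1 => if u.Prime then u :: Lst (u + 1) n else Lst (u + 1) n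

lemma mem_Lst {u n p : ℕ} : p ∈ Lst u n ↔ p.Prime ∧ u ≤ p ∧ p < u + n := by
  induction n generalizing u with
  | zero =>
    simp only [Lst, List.not_mem_nil, false_iff]
    omega
  | succ n ih =>
    unfold Lst
    split_ifs with h
    · rw [List.mem_cons, ih]
      constructor
      · rintro (rfl | ⟨h1, h2, h3⟩)
        · exact ⟨h, le_rfl, by omega⟩
        · exact ⟨h1, by omega, by omega⟩
      · rintro ⟨h1, h2, h3⟩
        rcases Nat.eq_or_lt_of_le h2 with h4 | h4
        · exact Or.inl h4.symm
        · exact Or.inr ⟨h1, h4, by omega⟩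
    · rw [ih]
      constructor
      · rintro ⟨h1, h2, h3⟩
        exact ⟨h1, by omega, by omega⟩
      · rintro ⟨h1, h2, h3⟩
        rcases Nat.eq_or_lt_of_le h2 with h4 | h4
        · rw [h4] at h
          exact absurd h1 h
        · exact ⟨h1, h4, by omega⟩

/-- products over the list -/
lemma Lst_prod (u n : ℕ) (f : ℕ → ℝ) : ((Lst u n).map f).prod = ∏ p ∈ (Ico u (u + n)).filter Nat.Prime, f p := by
  induction n generalizing u with
  | zero => simp [Lst]
  | succ n ih =>
    have h1 : Ico u (u + (n + 1)) = insert u (Ico (u + 1) (u + 1 + n)) := by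
      ext x
      rw [mem_insert, mem_Ico, mem_Ico]
      omega
    unfold Lst
    rw [h1, filter_insert]
    split_ifs with h
    · rw [List.map_cons, List.prod_cons, ih, prod_insert]
      intro h2
      rw [mem_filter, mem_Ico] at h2
      omega
    · exact ih (u + 1)

end Pool.Agent.L7h6.TX
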