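import Pool.Agent.L7h6.TX.Cls

/-!
# Random sieve (helper6), part 16: one residue class, the bound
-/

set_option autoImplicit false

namespace Pool.Agent.L7h6.TX

open Finset Real
open Pool.Agent.H373R2.T7
open Pool.Agent.L7h6.EX (wt wt_eq wt_nonneg)

lemma lam_facts {A b c1 C0 C1 : ℝ} (hA1 : 1 ≤ A) (hb : 1 ≤ b) (hc1 : 0 < c1) (hC0 : 0 < C0) (hC1 : 0 < C1)
    (hA2 : 1536 * C0 / c1 ≤ A) (hA3 : 128 * C0 * C1 ≤ A) (n : ℕ) :
    1 ≤ (A * b) ^ (n + 2) ∧ 6 * b ≤ (A * b) ^ (n + 2) * (c1 / (256 * C0 * b)) ∧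
    128 * C0 * C1 * b * b ≤ (A * b) ^ (n + 2) ∧ (1 / (c1 / (128 * C0 * b))) ^ n ≤ (A * b) ^ (n + 2) := by
  have hb0 : 0 < b := by linarith
  have hA0 : 0 < A := by linarith
  have hAb : 1 ≤ A * b := by nlinarith
  have h2 : (A * b) ^ 2 ≤ (A * b) ^ (n + 2) := pow_le_pow_right₀ hAb (by omega)
  rw [div_le_iff₀ hc1] at hA2
  refine ⟨one_le_pow₀ hAb, ?_, ?_, ?_⟩
  · have h3 : (A * b) ^ 2 * (c1 / (256 * C0 * b)) = A * b * (A * c1 / (256 * C0)) := by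
      field_simp
    have h4 : 6 ≤ A * c1 / (256 * C0) := by
      rw [le_div_iff₀ (by positivity)]
      linarith
    have h5 : 6 * b ≤ (A * b) ^ 2 * (c1 / (256 * C0 * b)) := by
      rw [h3]
      have h6 : b ≤ A * b := by nlinarith
      have h7 : 0 ≤ A * b := by positivity
      nlinarith
    exact h5.trans (mul_le_mul_of_nonneg_right h2 (by positivity))
  · refine le_trans ?_ h2
    have h3 : 128 * C0 * C1 * b * b ≤ A * b * b := by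
      have : 0 ≤ b * b := by positivity
      nlinarith
    have h4 : A * b * b ≤ (A * b) ^ 2 := by
      have : 0 ≤ A * b * b := by positivity
      nlinarith
    linarith
  · have h3 : 1 / (c1 / (128 * C0 * b)) ≤ A * b := by
      rw [one_div_div, div_le_iff₀ hc1]
      have : 0 < C0 * b := by positivity
      nlinarith
    calc (1 / (c1 / (128 * C0 * b))) ^ n ≤ (A * b) ^ n := pow_le_pow_left₀ (by positivity) h3 n
      _ ≤ _ := pow_le_pow_right₀ hAb (by omega)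

open Classical in
theorem cls_main {t0 y0 C0 x0 Cf k : ℕ} {c6 K0 θ0 c1 C1 A ε L : ℝ} {X y h b z J2 : ℕ}
    (hk : 1 ≤ k) (hc6 : 0 < c6) (hK0 : 0 ≤ K0) (hθ0 : 0 < θ0) (hc1 : 0 < c1) (hC1 : 0 < C1) (hC0 : 1 ≤ C0) (hCf : 1 ≤ Cf)
    (hε : 0 < ε) (hX : 1 ≤ X) (hLX : L = log X) (hL1 : 1 ≤ L)
    (P : Pars t0 y0 C0 x0 Cf k (16 * k * (Cf * (2 * Cf))) ε (4 * k + ε * k) L X y h b z J2)
    (hA1 : 1 ≤ A) (hA2 : 1536 * C0 / c1 ≤ A) (hA3 : 128 * C0 * C1 ≤ A)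
    (hn1 : 1 ≤ c6 * c1 * 32 * C0 / k * L ^ ε) (hn2 : 1 ≤ θ0 ^ 2 * (c6 * c1 * 32 * C0 / k * L ^ ε))
    (hn3 : L ^ (4 * k + ε * k) ≤ (X : ℝ) ^ (1 / 2 : ℝ)) (hn4 : 4 * k ≤ L)
    (hn5 : 2 * Cc k K0 (c6 * c1 * 32 * C0 / k) * ((A * b) ^ (2 ^ (2 * k) + 2)) ^ (3 * k + 2) ≤ L ^ (ε * k / 2))
    {N : ℕ} (hN : N = X / WW y + 1) {β : ℕ}
    (hblk : ∀ a : ℕ, c6 * h / Real.log y ≤ (((Icc 1 h).filter (fun j => ∀ p ∈ pz y, ¬ p ∣ a + j)).card : ℝ))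
    (hreg : ∀ J : Finset ℕ, (∀ j ∈ J, 1 ≤ j ∧ j ≤ k * h) → ∀ J' ⊆ J, ∀ lam : ℝ, |lam| ≤ θ0 →
      EL (Lst (y + 1) (z - y)) (fun S => Real.exp (lam * S.card)) J' ≤
      Real.exp (J'.card * VI (y + 1) (z - y) * (lam + K0 * lam ^ 2)))
    (hV1 : c1 * Real.log y / Real.log z ≤ VI (y + 1) (z - y)) (hV2 : VI (y + 1) (z - y) ≤ C1 * Real.log y / Real.log z)
    (hVZ : c1 * Real.log z / Real.log ((2 ^ 2 ^ J2 : ℕ) : ℝ) ≤ VI (z + 1) (2 ^ 2 ^ J2 - z))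
    (hC : Cnt N (WW y) β y z (2 * k) ((1 / 2) ^ b) (√((z ^ (16 * (C0 * b)) : ℕ) : ℝ)))
    {cL : Finset ℕ → ℝ} {U : Finset (Finset ℕ)} {ρ : ℝ}
    (hU : ∀ u ∈ U, u ⊆ PB z (2 ^ 2 ^ J2)) (hU0 : ∅ ∈ U)
    (hUL : ∀ u ∈ U, u.card ≤ Nat.log 2 ((2 ^ 2 ^ J2) ^ (Cf * (2 * Cf))))
    (hM : ∀ u ∈ U, |cL u| + |ρ| ≤ J2 + 3) (hρ : ρ = ∑ u ∈ U, cL u * wt u) (hρ1 : 1 / 2 * VI (z + 1) (2 ^ 2 ^ J2 - z) ≤ ρ)
    (hlow : ∀ v : ℕ, ww cL U v ≤ if ∀ p ∈ PB z (2 ^ 2 ^ J2), ¬ p ∣ v then 1 else 0)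
    (hUc : U.card ≤ (2 ^ 2 ^ J2) ^ (Cf * (2 * Cf))) {R : ℝ} (hR : R ≤ ((2 ^ 2 ^ J2 : ℕ) : ℝ)) :
    ((Exl (WW y) β (k * h) N R).card : ℝ) ≤ (N : ℝ) * L ^ (-(ε * k / 2)) := by
  obtain ⟨G, hG⟩ : ∃ G : ℝ, G = 4 * k + ε * k := ⟨_, rfl⟩
  obtain ⟨c8, hc8⟩ : ∃ c8 : ℝ, c8 = c6 * c1 * 32 * C0 / k := ⟨_, rfl⟩
  obtain ⟨Λ, hΛ⟩ : ∃ Λ : ℝ, Λ = (A * b) ^ (2 ^ (2 * k) + 2) := ⟨_, rfl⟩
  obtain ⟨Z, hZ⟩ : ∃ Z : ℕ, Z = 2 ^ 2 ^ J2 := ⟨_, rfl⟩
  obtain ⟨V, hV⟩ : ∃ V : ℝ, V = VI (y + 1) (z - y) := ⟨_, rfl⟩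
  obtain ⟨W, hW⟩ : ∃ W : ℕ, W = WW y := ⟨_, rfl⟩
  obtain ⟨J, hJ⟩ : ∃ J : Finset ℕ, J = JA β y (k * h) := ⟨_, rfl⟩
  obtain ⟨e, he⟩ : ∃ e : ℝ, e = √((z ^ (16 * (C0 * b)) : ℕ) : ℝ) := ⟨_, rfl⟩
  obtain ⟨η, hη⟩ : ∃ η : ℝ, η = (1 / 2 : ℝ) ^ b := ⟨_, rfl⟩
  obtain ⟨L2, hL2⟩ : ∃ L2 : ℕ, L2 = Nat.log 2 ((2 ^ 2 ^ J2) ^ (Cf * (2 * Cf))) := ⟨_, rfl⟩
  obtain ⟨m0, hm0⟩ : ∃ m0 : ℝ, m0 = c8 * L ^ ε := ⟨_, rfl⟩
  obtain ⟨m1, hm1⟩ : ∃ m1 : ℝ, m1 = 128 * C0 * C1 * b * log L * L ^ ε := ⟨_, rfl⟩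
  have hL0 : 0 < L := by linarith
  have hkr : (1 : ℝ) ≤ k := by exact_mod_cast hk
  have hk0 : (0 : ℝ) < k := by linarith
  have hC0r : (1 : ℝ) ≤ C0 := by exact_mod_cast hC0
  have hC00 : (0 : ℝ) < C0 := by linarith
  have hbr : (1 : ℝ) ≤ b := by exact_mod_cast hC0.trans P.Cb
  have hb0 : (0 : ℝ) < b := by linarith
  have hG0 : 0 ≤ G := by rw [hG]; positivity
  have hyr : (2 : ℝ) ≤ y := by exact_mod_cast P.y2
  have hz2 : 2 ≤ z := P.y2.trans P.yz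
  have hzr : (2 : ℝ) ≤ z := by exact_mod_cast hz2
  have hly : 0 < log y := Real.log_pos (by linarith)
  have hlz : 0 < log z := Real.log_pos (by linarith)
  have hLe : 0 < L ^ ε := by positivity
  have hc80 : 0 < c8 := by rw [hc8]; positivity
  have hLL : L * L ^ ε = L ^ (1 + ε) := by rw [rpow_add hL0, rpow_one]
  have hm00 : 1 ≤ m0 := by rw [hm0, hc8]; exact hn1
  have hVn : 0 ≤ V := by rw [hV]; exact VI_nonneg _ _
  have hVl : V ≤ 1 := by rw [hV]; exact VI_le_one _ _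
  have hZy : z ≤ Z := by rw [hZ]; exact P.zZ
  have hZ2 : (2 : ℝ) ≤ Z := by exact_mod_cast hz2.trans hZy
  have hlZ : 0 < log Z := Real.log_pos (by linarith)
  have hZX : Z ≤ X := by
    refine le_trans ?_ P.Z2
    rw [hZ]
    apply Nat.le_self_pow
    have : 1 ≤ Cf * (2 * Cf) := by nlinarith
    have : 1 ≤ 16 * k * (Cf * (2 * Cf)) := Nat.one_le_iff_ne_zero.2 (by positivity)
    omega
  have hlZL : log Z ≤ L := by
    rw [hLX]
    exact Real.log_le_log (by linarith) (by exact_mod_cast hZX)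
  -- rho
  have hVZ2 : c1 / (128 * C0 * b) ≤ VI (z + 1) (Z - z) := by
    rw [← hZ] at hVZ
    refine le_trans ?_ hVZ
    rw [le_div_iff₀ hlZ]
    calc c1 / (128 * C0 * b) * log Z ≤ c1 / (128 * C0 * b) * L := mul_le_mul_of_nonneg_left hlZL (by positivity)
      _ = c1 * (L / (128 * C0 * b)) := by ring
      _ ≤ c1 * log z := mul_le_mul_of_nonneg_left P.z1 hc1.le
  have hρ2 : c1 / (256 * C0 * b) ≤ ρ := by
    rw [← hZ] at hρ1
    refine le_trans ?_ hρ1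
    have h1 : c1 / (256 * C0 * b) = 1 / 2 * (c1 / (128 * C0 * b)) := by
      field_simp
      norm_num
    rw [h1]
    exact mul_le_mul_of_nonneg_left hVZ2 (by norm_num)
  have hρ0 : 0 < ρ := lt_of_lt_of_le (by positivity) hρ2
  -- blocks
  have hblock : ∀ i : ℕ, m0 ≤ (JB β y h i).card * V := by
    intro i
    have h1 : c6 * h / Real.log y ≤ ((JB β y h i).card : ℝ) := by
      refine (hblk (β + i * h)).trans ?_
      have := JB_card β y h i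
      have h2 : ((Icc 1 h).filter (fun j => ∀ p ∈ pz y, ¬ p ∣ (β + i * h) + j)).card ≤ (JB β y h i).card := by
        convert this using 2
      exact_mod_cast h2
    rw [hm0, hc8]
    refine num1 hc6 hc1 hC00 hbr hL0 hLe hk0 hly hlz (Nat.cast_nonneg h) h1 (by rw [hV]; exact hV1) ?_ P.z2
    rw [hLL]
    exact P.Lh
  have hJcard : (J.card : ℝ) ≤ L * L ^ ε := by
    rw [hLL]
    refine le_trans ?_ P.hL
    rw [hJ]
    exact_mod_cast JA_card β y (k * h)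
  have hJm1 : (J.card : ℝ) * V ≤ m1 := by
    rw [hm1, hV]
    exact num2 hC1 hC00 hb0 hL0 hLe hly hlz (VI_nonneg _ _) hJcard hV2
      (Real.log_le_log (by linarith) P.yL) P.z1
  have hJm0 : m0 ≤ (J.card : ℝ) * V := by
    refine (hblock 0).trans ?_
    apply mul_le_mul_of_nonneg_right _ hVn
    rw [hJ]
    exact_mod_cast card_le_card (JB_sub (β := β) (y := y) (h := h) (show 0 < k by omega))
  -- loc
  have hloc := loc (N := N) (W := W) (β := β) (y := y) (z := z) (κ := 2 * k) (H := k * h) (L2 := L2) (k := k)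
    (η := η) (e := e) (M := J2 + 3) (K := K0) (θ := θ0) (V := V) (m0 := m0) (m1 := m1) (ρ := ρ)
    (by rw [hW, hη, he]; exact hC) (by rw [hη]; positivity) (by rw [he]; exact Real.sqrt_nonneg _)
    (by positivity) P.yz (by omega) (B := PB z Z) (fun p hp => by
      rw [mem_PB] at hp
      refine ⟨hp.1, hp.2.1, lt_of_le_of_lt P.hz hp.2.1, ?_⟩
      rw [hW]
      exact WW_dvd hp.1 (lt_of_le_of_lt P.yz hp.2.1)) (cL := cL) (U := U) (by rw [hZ]; exact hU) hU0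
    (by rw [hL2]; exact hUL) hM hρ hρ0 (by
      rw [hZ]
      intro v
      refine (hlow v).trans (le_of_eq ?_)
      congr!) (J := J) (fun j hj => by
      rw [hJ] at hj
      unfold JA at hj
      rw [mem_filter, mem_Icc] at hj
      exact hj.1.2) (fun i : Fin k => JB β y h i) (fun i => by rw [hJ]; exact JB_sub i.2)
    (fun i i' hii => JB_disj (fun h => hii (Fin.ext h))) le_rfl hVn hVl hK0 hθ0 hm00 (by rw [hm0, hc8]; exact hn2)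
    (fun i => hblock i) hJm1 hJm0 (by
      rw [hV]
      exact hreg J (fun j hj => by
        rw [hJ] at hj
        unfold JA at hj
        rw [mem_filter, mem_Icc] at hj
        exact hj.1))
  -- the sizes
  obtain ⟨s1, s2, s3⟩ := sizes (W := WW y) (Cf := Cf) (k := k) (D := 16 * k * (Cf * (2 * Cf))) (G := G) hX hLX hL1 hG0
    (WW_pos y) (by
      have h1 : (WW y : ℝ) ≤ (4 : ℝ) ^ y := by exact_mod_cast WW_le y
      exact h1.trans P.W4) (by omega) P.z3 (by rw [hG]; exact P.z4) rfl hk hCf P.Z2 (by rw [hG]; exact hn3) hn4 hUc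
  rw [← he, ← hN] at s1 s2
  rw [← hL2] at s3
  obtain ⟨l1, l2, l3, l4⟩ := lam_facts hA1 hbr hc1 hC00 hC1 hA2 hA3 (2 ^ (2 * k))
  rw [← hΛ] at l1 l2 l3 l4
  obtain ⟨Ξ, hΞ⟩ : ∃ Ξ : ℝ, Ξ = ∏ p ∈ PB z Z, (1 + 2 ^ (2 * k) / (p : ℝ)) := ⟨_, rfl⟩
  have hΞ0 : 0 ≤ Ξ := by rw [hΞ]; exact Finset.prod_nonneg fun p _ => by positivity
  have hΞΛ : Ξ ≤ Λ := by
    refine le_trans ?_ l4
    have h1 := Xi_bound (n := 2 ^ (2 * k)) (V := 0) hZy (show 0 < c1 / (128 * C0 * b) by positivity) hVZ2 rfl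
    rw [hΞ]
    push_cast at h1
    exact h1
  rw [← hΞ] at hloc
  have hx : L ^ ε * L ^ (-ε) = 1 := by rw [← rpow_add hL0, add_neg_cancel, rpow_zero]
  have hfin := fin_bound k (4 ^ k * ((2 * k).factorial * (2 * Real.exp K0))) (k.factorial * Real.exp (1 + K0)) c8
    (by positivity) (by positivity) hc80 L Λ (L ^ (-ε)) N (J2 + 3) ρ m0 m1 Ξ η e (L ^ (-G)) J.card ((U.card : ℝ) ^ (2 * k))
    ((2 * k * L2 : ℝ) / z) hL1 l1 (by positivity) (by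
      rw [rpow_neg hL0.le]
      exact inv_le_one_of_one_le₀ (one_le_rpow hL1 hε.le)) (Nat.cast_nonneg _) (by positivity) hρ0 (by
      refine P.J2b.trans (l2.trans ?_)
      exact mul_le_mul_of_nonneg_left hρ2 (by linarith)) (by
      rw [hm0, mul_assoc, hx, mul_one]) (by linarith) (by rw [hm1]; have := P.l1; positivity) (by
      refine le_trans ?_ l3
      rw [hm1, mul_assoc, hx, mul_one]
      exact mul_le_mul_of_nonneg_left P.lb (by positivity)) hΞ0 hΞΛ (by rw [hη]; positivity) (by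
      rw [hη, hG]
      exact P.hb) (by rw [he]; exact Real.sqrt_nonneg _) s1 (Nat.cast_nonneg _) (by
      refine le_trans ?_ P.hL2
      rw [hJ]
      exact_mod_cast JA_card β y (k * h)) s2 (by positivity) s3 (by positivity) (by positivity)
  have hall := hloc.trans hfin
  have hsub := card_le_card (Exl_sub (W := W) (β := β) (H := k * h) (N := N) (y := y) (z := z) (Z := Z) (R := R)
    (fun p hp => by rw [hW]; exact dvd_WW hp) (by rw [hZ]; exact hR))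
  have hcard : ((Exl (WW y) β (k * h) N R).card : ℝ) ≤
      (((Icc 1 N).filter (fun l => ∀ j ∈ J, (∀ p ∈ pz z, y < p → ¬ p ∣ W * l + β + j) →
      ¬ ∀ p ∈ PB z Z, ¬ p ∣ W * l + β + j)).card : ℝ) := by
    rw [hJ, ← hW]
    exact_mod_cast hsub
  refine hcard.trans (hall.trans ?_)
  have hpow : (L ^ (-ε)) ^ k + L ^ (4 * k) * L ^ (-G) = 2 * L ^ (-(ε * k)) := by
    have h1 : (L ^ (-ε)) ^ k = L ^ (-(ε * k)) := by
      rw [← rpow_natCast, ← rpow_mul hL0.le]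
      congr 1
      ring
    have h2 : L ^ (4 * k) * L ^ (-G) = L ^ (-(ε * k)) := by
      have h3 : L ^ (4 * k) = L ^ ((4 * k : ℕ) : ℝ) := (rpow_natCast L (4 * k)).symm
      rw [h3, ← rpow_add hL0, hG]
      congr 1
      push_cast
      ring
    rw [h1, h2]
    ring
  rw [hpow]
  have hCc : k * ((4 ^ k * ((2 * k).factorial * (2 * Real.exp K0))) / c8 ^ k + 2 * 4 ^ (2 * k)) +
    (2 / c8) ^ (2 * k) * (k.factorial * Real.exp (1 + K0) + 3) = Cc k K0 c8 := rfl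
  rw [hCc]
  rw [← hΛ, ← hc8] at hn5
  have h9 : 0 ≤ L ^ (-(ε * k)) := by positivity
  calc Cc k K0 c8 * (Λ ^ (3 * k + 2) * (2 * L ^ (-(ε * k)))) * N =
      (2 * Cc k K0 c8 * Λ ^ (3 * k + 2)) * L ^ (-(ε * k)) * N := by ring
    _ ≤ L ^ (ε * k / 2) * L ^ (-(ε * k)) * N :=
        mul_le_mul_of_nonneg_right (mul_le_mul_of_nonneg_right hn5 h9) (Nat.cast_nonneg _)
    _ = N * L ^ (-(ε * k / 2)) := by
        rw [← rpow_add hL0, mul_comm]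
        congr 2
        ring

end Pool.Agent.L7h6.TX
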