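import Pool.Agent.L7h6.TX.Expo

/-!
# Random sieve (helper6), part 3: moments
-/

set_option autoImplicit false

namespace Pool.Agent.L7h6.TX

open Finset

lemma pow_le_fact (x : ℝ) (k : ℕ) : x ^ (2 * k) ≤ (2 * k).factorial * (Real.exp x + Real.exp (-x)) := by
  have h1 := Real.pow_div_factorial_le_exp |x| (abs_nonneg x) (2 * k)
  have hf : (0 : ℝ) < (2 * k).factorial := by exact_mod_cast Nat.factorial_pos _
  rw [div_le_iff₀ hf] at h1
  have h2 : |x| ^ (2 * k) = x ^ (2 * k) := by
    rw [pow_mul, pow_mul, sq_abs]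
  rw [h2] at h1
  refine h1.trans ?_
  rw [mul_comm]
  apply mul_le_mul_of_nonneg_left _ hf.le
  rcases abs_cases x with ⟨h, _⟩ | ⟨h, _⟩ <;> rw [h]
  · linarith [Real.exp_pos (-x)]
  · linarith [Real.exp_pos x]

theorem mom {ps : List ℕ} {J : Finset ℕ} {mu K θ : ℝ} (hmu : 1 ≤ mu) (hθ : 0 < θ) (hθm : 1 ≤ θ ^ 2 * mu)
    (hK : 0 ≤ K)
    (hE : ∀ lam : ℝ, |lam| ≤ θ → EL ps (fun S => Real.exp (lam * S.card)) J ≤
      Real.exp (mu * (lam + K * lam ^ 2))) (k : ℕ) :
    EL ps (fun S => ((S.card : ℝ) - mu) ^ (2 * k)) J ≤ (2 * k).factorial * (2 * Real.exp K) * mu ^ k ∧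
      EL ps (fun S => (S.card : ℝ) ^ k) J ≤ k.factorial * Real.exp (1 + K) * mu ^ k := by
  have hmu0 : 0 < mu := by linarith
  obtain ⟨l, hl⟩ : ∃ l, l = 1 / √mu := ⟨_, rfl⟩
  have hs : 0 < √mu := Real.sqrt_pos.2 hmu0
  have hl0 : 0 < l := by rw [hl]; positivity
  have hl2 : l ^ 2 * mu = 1 := by
    rw [hl, div_pow, Real.sq_sqrt hmu0.le]
    field_simp
  have hlθ : l ≤ θ := by
    have h1 : l ^ 2 ≤ θ ^ 2 := by
      have : l ^ 2 * mu ≤ θ ^ 2 * mu := by rw [hl2]; exact hθm
      exact le_of_mul_le_mul_right this hmu0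
    exact (pow_le_pow_iff_left₀ hl0.le hθ.le (by norm_num)).1 h1
  have hl1 : l ≤ 1 := by
    have h1 : l ^ 2 ≤ 1 := by nlinarith
    nlinarith
  constructor
  · have h1 : ∀ S ⊆ J, ((S.card : ℝ) - mu) ^ (2 * k) ≤
        ((2 * k).factorial * mu ^ k * Real.exp (-(l * mu))) * Real.exp (l * S.card) +
        ((2 * k).factorial * mu ^ k * Real.exp (l * mu)) * Real.exp (-l * S.card) := by
      intro S _
      have h2 := pow_le_fact (l * ((S.card : ℝ) - mu)) k
      have h3 : ((S.card : ℝ) - mu) ^ (2 * k) = mu ^ k * (l * ((S.card : ℝ) - mu)) ^ (2 * k) := by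
        rw [mul_pow, pow_mul l, ← mul_assoc, ← mul_pow, mul_comm mu, hl2, one_pow, one_mul]
      rw [h3]
      refine (mul_le_mul_of_nonneg_left h2 (by positivity)).trans (le_of_eq ?_)
      have e1 : Real.exp (l * ((S.card : ℝ) - mu)) = Real.exp (-(l * mu)) * Real.exp (l * S.card) := by
        rw [← Real.exp_add]
        congr 1
        ring
      have e2 : Real.exp (-(l * ((S.card : ℝ) - mu))) = Real.exp (l * mu) * Real.exp (-l * S.card) := by
        rw [← Real.exp_add]
        congr 1
        ring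
      rw [e1, e2]
      ring
    have h4 := EL_mono (ps := ps) h1 J (Subset.refl J)
    rw [EL_add, EL_smul, EL_smul] at h4
    refine h4.trans ?_
    have h5 := hE l (by rw [abs_of_pos hl0]; exact hlθ)
    have h6 := hE (-l) (by rw [abs_neg, abs_of_pos hl0]; exact hlθ)
    have e3 : mu * (l + K * l ^ 2) = l * mu + K := by
      have : mu * (l + K * l ^ 2) = l * mu + K * (l ^ 2 * mu) := by ring
      rw [this, hl2, mul_one]
    have e4 : mu * (-l + K * (-l) ^ 2) = -(l * mu) + K := by
      have : mu * (-l + K * (-l) ^ 2) = -(l * mu) + K * (l ^ 2 * mu) := by ring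
      rw [this, hl2, mul_one]
    rw [e3, Real.exp_add] at h5
    rw [e4, Real.exp_add] at h6
    have hf : (0 : ℝ) < (2 * k).factorial := by exact_mod_cast Nat.factorial_pos _
    have e5 : Real.exp (-(l * mu)) * Real.exp (l * mu) = 1 := by
      rw [← Real.exp_add, neg_add_cancel, Real.exp_zero]
    have g1 : ((2 * k).factorial * mu ^ k * Real.exp (-(l * mu))) * EL ps (fun S => Real.exp (l * S.card)) J ≤
        (2 * k).factorial * mu ^ k * Real.exp K := by
      refine (mul_le_mul_of_nonneg_left h5 (by positivity)).trans (le_of_eq ?_)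
      calc ((2 * k).factorial * mu ^ k * Real.exp (-(l * mu))) * (Real.exp (l * mu) * Real.exp K) =
          (2 * k).factorial * mu ^ k * (Real.exp (-(l * mu)) * Real.exp (l * mu)) * Real.exp K := by ring
        _ = _ := by rw [e5, mul_one]
    have g2 : ((2 * k).factorial * mu ^ k * Real.exp (l * mu)) * EL ps (fun S => Real.exp (-l * S.card)) J ≤
        (2 * k).factorial * mu ^ k * Real.exp K := by
      refine (mul_le_mul_of_nonneg_left h6 (by positivity)).trans (le_of_eq ?_)
      calc ((2 * k).factorial * mu ^ k * Real.exp (l * mu)) * (Real.exp (-(l * mu)) * Real.exp K) =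
          (2 * k).factorial * mu ^ k * (Real.exp (-(l * mu)) * Real.exp (l * mu)) * Real.exp K := by ring
        _ = _ := by rw [e5, mul_one]
    linarith
  · have h1 : ∀ S ⊆ J, (S.card : ℝ) ^ k ≤ (k.factorial * mu ^ k) * Real.exp (1 / mu * S.card) := by
      intro S _
      have h2 := Real.pow_div_factorial_le_exp (1 / mu * S.card) (by positivity) k
      have hf : (0 : ℝ) < k.factorial := by exact_mod_cast Nat.factorial_pos _
      rw [div_le_iff₀ hf] at h2
      have h3 : (S.card : ℝ) ^ k = mu ^ k * (1 / mu * S.card) ^ k := by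
        rw [← mul_pow]
        congr 1
        field_simp
      rw [h3]
      refine (mul_le_mul_of_nonneg_left h2 (by positivity)).trans (le_of_eq (by ring))
    have h4 := EL_mono (ps := ps) h1 J (Subset.refl J)
    rw [EL_smul] at h4
    refine h4.trans ?_
    have hlm : 1 / mu ≤ l := by
      have : 1 / mu = l ^ 2 := by
        rw [← hl2]
        field_simp
      rw [this]
      nlinarith
    have h5 := hE (1 / mu) (by rw [abs_of_pos (by positivity)]; exact hlm.trans hlθ)
    have e3 : mu * (1 / mu + K * (1 / mu) ^ 2) = 1 + K * (1 / mu) := by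
      field_simp
    rw [e3] at h5
    have h6 : Real.exp (1 + K * (1 / mu)) ≤ Real.exp (1 + K) := by
      apply Real.exp_le_exp.2
      have : 1 / mu ≤ 1 := (div_le_one hmu0).2 hmu
      nlinarith
    calc (k.factorial * mu ^ k) * EL ps (fun S => Real.exp (1 / mu * S.card)) J ≤
        (k.factorial * mu ^ k) * Real.exp (1 + K) :=
          mul_le_mul_of_nonneg_left (h5.trans h6) (by positivity)
      _ = _ := by ring

end Pool.Agent.L7h6.TX
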