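import Pool.Agent.L7h6.TX.Wts

/-!
# Random sieve (helper6), part 14: small numerical lemmas
-/

set_option autoImplicit false

namespace Pool.Agent.L7h6.TX

open Finset Real
open Pool.Agent.H373R2.T7

lemma num1 {c6 c1 C0 b L Le h ly lz k Jc V : ℝ} (hc6 : 0 < c6) (hc1 : 0 < c1) (hC0 : 0 < C0) (hb : 1 ≤ b) (hL : 0 < L)
    (hLe : 0 < Le) (hk : 0 < k) (hly : 0 < ly) (hlz : 0 < lz) (hh : 0 ≤ h) (h1 : c6 * h / ly ≤ Jc) (h2 : c1 * ly / lz ≤ V)
    (h3 : L * Le ≤ 2 * k * h) (h4 : lz ≤ L / (64 * C0 * b)) : c6 * c1 * 32 * C0 / k * Le ≤ Jc * V := by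
  have hb0 : 0 < b := by linarith
  have e1 : c6 * h / ly * (c1 * ly / lz) ≤ Jc * V :=
    mul_le_mul h1 h2 (by positivity) (le_trans (by positivity) h1)
  refine le_trans ?_ e1
  have e2 : c6 * h / ly * (c1 * ly / lz) = c6 * c1 * h / lz := by field_simp
  rw [e2, le_div_iff₀ hlz]
  have e3 : c6 * c1 * 32 * C0 / k * Le * lz ≤ c6 * c1 * 32 * C0 / k * Le * (L / (64 * C0 * b)) :=
    mul_le_mul_of_nonneg_left h4 (by positivity)
  refine e3.trans ?_
  have e4 : c6 * c1 * 32 * C0 / k * Le * (L / (64 * C0 * b)) = c6 * c1 * (L * Le / (2 * k)) / b := by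
    field_simp
    ring
  rw [e4, div_le_iff₀ hb0]
  have e5 : L * Le / (2 * k) ≤ h := by
    rw [div_le_iff₀ (by positivity)]
    linarith
  have e6 : c6 * c1 * (L * Le / (2 * k)) ≤ c6 * c1 * h := mul_le_mul_of_nonneg_left e5 (by positivity)
  have e7 : c6 * c1 * h ≤ c6 * c1 * h * b := le_mul_of_one_le_right (by positivity) hb
  exact e6.trans e7

lemma num2 {C0 C1 b L Le lL ly lz Jc V : ℝ} (hC1 : 0 < C1) (hC0 : 0 < C0) (hb : 0 < b) (hL : 0 < L)
    (hLe : 0 < Le) (hly : 0 < ly) (hlz : 0 < lz) (hV : 0 ≤ V) (h1 : Jc ≤ L * Le) (h2 : V ≤ C1 * ly / lz) (h3 : ly ≤ lL)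
    (h4 : L / (128 * C0 * b) ≤ lz) : Jc * V ≤ 128 * C0 * C1 * b * lL * Le := by
  have e1 : Jc * V ≤ L * Le * (C1 * ly / lz) := mul_le_mul h1 h2 hV (by positivity)
  refine e1.trans ?_
  rw [← mul_div_assoc, div_le_iff₀ hlz]
  have e2 : L ≤ lz * (128 * C0 * b) := by
    rw [div_le_iff₀ (by positivity)] at h4
    exact h4
  have hlL : 0 < lL := hly.trans_le h3
  calc L * Le * (C1 * ly) ≤ (lz * (128 * C0 * b)) * Le * (C1 * lL) := by
        apply mul_le_mul
        · exact mul_le_mul_of_nonneg_right e2 hLe.le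
        · exact mul_le_mul_of_nonneg_left h3 hC1.le
        · positivity
        · positivity
    _ = _ := by ring

/-- the product of the small primes -/
noncomputable def WW (y : ℕ) : ℕ := ∏ p ∈ pz y, p

lemma WW_pos (y : ℕ) : 1 ≤ WW y := Finset.prod_pos fun p hp => (mem_pz.1 hp).2.pos

lemma WW_le (y : ℕ) : WW y ≤ 4 ^ y := by
  have h1 : WW y = primorial y := by
    unfold WW primorial
    apply Finset.prod_congr _ (fun _ _ => rfl)
    ext p
    rw [mem_pz, mem_filter, mem_range]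
    constructor
    · rintro ⟨h1, h2⟩
      exact ⟨by omega, h2⟩
    · rintro ⟨h1, h2⟩
      exact ⟨by omega, h2⟩
  rw [h1]
  exact primorial_le_four_pow y

lemma WW_dvd {y p : ℕ} (hp : p.Prime) (hy : y < p) : ¬ p ∣ WW y := by
  intro h
  unfold WW at h
  obtain ⟨q, hq, hpq⟩ := (hp.prime.dvd_finset_prod_iff _).1 h
  rw [mem_pz] at hq
  have := (Nat.prime_dvd_prime_iff_eq hp hq.2).1 hpq
  omega

lemma dvd_WW {y p : ℕ} (hp : p ∈ pz y) : p ∣ WW y := dvd_prod_of_mem (fun p => p) hp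

open Classical in
/-- the blocks -/
noncomputable def JB (β y h : ℕ) (i : ℕ) : Finset ℕ := (Ioc (i * h) ((i + 1) * h)).filter (fun j => ∀ p ∈ pz y, ¬ p ∣ β + j)

open Classical in
/-- all the numbers -/
noncomputable def JA (β y H : ℕ) : Finset ℕ := (Icc 1 H).filter (fun j => ∀ p ∈ pz y, ¬ p ∣ β + j)

lemma JB_sub {β y h k i : ℕ} (hi : i < k) : JB β y h i ⊆ JA β y (k * h) := by
  intro j hj
  unfold JB at hj
  unfold JA
  rw [mem_filter, mem_Ioc] at hj
  rw [mem_filter, mem_Icc]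
  have h1 : (i + 1) * h ≤ k * h := Nat.mul_le_mul_right h hi
  exact ⟨⟨by omega, by omega⟩, hj.2⟩

lemma JB_disj {β y h i i' : ℕ} (hi : i ≠ i') : Disjoint (JB β y h i) (JB β y h i') := by
  rw [Finset.disjoint_left]
  intro j hj hj'
  unfold JB at hj hj'
  rw [mem_filter, mem_Ioc] at hj hj'
  rcases Nat.lt_or_gt_of_ne hi with h1 | h1
  · have : (i + 1) * h ≤ i' * h := Nat.mul_le_mul_right h h1
    omega
  · have : (i' + 1) * h ≤ i * h := Nat.mul_le_mul_right h h1
    omega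

open Classical in
lemma JB_card (β y h i : ℕ) : ((Icc 1 h).filter (fun j => ∀ p ∈ pz y, ¬ p ∣ (β + i * h) + j)).card ≤ (JB β y h i).card := by
  apply Finset.card_le_card_of_injOn (fun j => i * h + j)
  · intro j hj
    rw [Finset.mem_coe, mem_filter, mem_Icc] at hj
    unfold JB
    rw [Finset.mem_coe, mem_filter, mem_Ioc]
    refine ⟨⟨?_, ?_⟩, fun p hp => ?_⟩
    · show i * h < i * h + j
      omega
    · show i * h + j ≤ (i + 1) * h
      rw [add_mul, one_mul]
      omega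
    · show ¬ p ∣ β + (i * h + j)
      rw [← add_assoc]
      exact hj.2 p hp
  · intro j _ j' _ hjj
    have h2 : i * h + j = i * h + j' := hjj
    omega

lemma JA_card (β y H : ℕ) : (JA β y H).card ≤ H := by
  unfold JA
  exact (card_filter_le _ _).trans (by rw [Nat.card_Icc]; omega)

/-- the bound for the products over the large primes -/
lemma Xi_bound {z Z n : ℕ} {V c : ℝ} (h : z ≤ Z) (hc : 0 < c) (hV : c ≤ VI (z + 1) (Z - z)) (_hV : V = V) :
    ∏ p ∈ PB z Z, (1 + (n : ℝ) / p) ≤ (1 / c) ^ n := by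
  refine (Xi_le h).trans ?_
  rw [prod_PB h]
  apply pow_le_pow_left₀ (by have := VI_nonneg (z + 1) (Z - z); positivity)
  rw [← one_div]
  exact one_div_le_one_div_of_le hc hV

end Pool.Agent.L7h6.TX
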