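import Pool.Agent.L7h6.TX.Mom
import Pool.Agent.R490.P3a

/-!
# Random sieve (helper6), part 4: the numbers `W l + β + j`
-/

set_option autoImplicit false

namespace Pool.Agent.L7h6.TX

open Finset
open Pool.Agent.H373R2.T7

/-- the `j ∈ J` such that `W l + β + j` has no prime factor in `(y, z]` -/
noncomputable def Sv (W β y z : ℕ) (J : Finset ℕ) (l : ℕ) : Finset ℕ := by
  classical
  exact J.filter (fun j => ∀ p ∈ pz z, y < p → ¬ p ∣ W * l + β + j)

/-- the density -/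
noncomputable def VT (y z : ℕ) (T : Finset ℕ) : ℝ :=
  ∏ p ∈ (Ico (y + 1) (z + 1)).filter Nat.Prime, (1 - (nu T p : ℝ) / p)

lemma dvd_iff_mod {p a j : ℕ} (hp : 0 < p) : p ∣ a + j ↔ j % p = (p - a % p) % p := by
  have : NeZero p := ⟨hp.ne'⟩
  rw [← ZMod.natCast_eq_natCast_iff' j (p - a % p) p, ← ZMod.natCast_eq_zero_iff (a + j) p]
  have h1 : ((p - a % p : ℕ) : ZMod p) = -(a : ZMod p) := by
    rw [Nat.cast_sub (Nat.mod_lt a hp).le, ZMod.natCast_self, zero_sub, ZMod.natCast_mod]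
  rw [h1]
  push_cast
  constructor
  · intro h
    rw [eq_neg_iff_add_eq_zero, add_comm]
    exact h
  · intro h
    rw [h]
    ring

open Classical in
lemma nuB_eq {W β p : ℕ} (hp : p.Prime) (hW : ¬ p ∣ W) (T : Finset ℕ) :
    ((range p).filter (fun r => ∃ j ∈ T, p ∣ W * r + β + j)).card = nu T p := by
  obtain ⟨φ, hφ⟩ : ∃ φ : ℕ → ℕ, φ = fun r => (p - (W * r + β) % p) % p := ⟨_, rfl⟩
  have hd : ∀ r j, p ∣ W * r + β + j ↔ j % p = φ r := fun r j => by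
    rw [hφ]
    exact dvd_iff_mod hp.pos
  have hφp : ∀ r, φ r < p := fun r => by rw [hφ]; exact Nat.mod_lt _ hp.pos
  have hinj : ∀ r ∈ range p, ∀ r' ∈ range p, φ r = φ r' → r = r' := by
    intro r hr r' hr' h
    rw [mem_range] at hr hr'
    have h1 : p ∣ W * r + β + φ r := (hd r _).2 (Nat.mod_eq_of_lt (hφp r))
    have h2 : p ∣ W * r' + β + φ r := by
      rw [hd, h]
      exact Nat.mod_eq_of_lt (hφp r')
    have h3 : W * r + β + φ r ≡ W * r' + β + φ r [MOD p] :=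
      ((Nat.modEq_zero_iff_dvd.2 h1).trans (Nat.modEq_zero_iff_dvd.2 h2).symm)
    have h4 : W * r ≡ W * r' [MOD p] := by
      have h5 := Nat.ModEq.add_right_cancel' (φ r) h3
      exact Nat.ModEq.add_right_cancel' β h5
    have hcop : Nat.gcd p W = 1 := (Nat.Prime.coprime_iff_not_dvd hp).2 hW
    have h5 : r ≡ r' [MOD p] := Nat.ModEq.cancel_left_of_coprime hcop h4
    exact Nat.ModEq.eq_of_lt_of_lt h5 hr hr'
  have himg : (range p).image φ = range p := by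
    apply Finset.eq_of_subset_of_card_le
    · intro a ha
      rw [mem_image] at ha
      obtain ⟨r, _, rfl⟩ := ha
      exact mem_range.2 (hφp r)
    · rw [Finset.card_image_of_injOn (fun r hr r' hr' h => hinj r hr r' hr' h)]
  unfold nu
  rw [← Finset.card_image_of_injOn (s := (range p).filter (fun r => ∃ j ∈ T, p ∣ W * r + β + j)) (f := φ)
    (fun r hr r' hr' h => hinj r (mem_filter.1 hr).1 r' (mem_filter.1 hr').1 h)]
  congr 1
  ext a
  rw [mem_image, mem_image]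
  constructor
  · rintro ⟨r, hr, rfl⟩
    rw [mem_filter] at hr
    obtain ⟨_, j, hj, hj2⟩ := hr
    exact ⟨j, hj, (hd r j).1 hj2⟩
  · rintro ⟨j, hj, rfl⟩
    have h1 : j % p ∈ (range p).image φ := by
      rw [himg]
      exact mem_range.2 (Nat.mod_lt j hp.pos)
    rw [mem_image] at h1
    obtain ⟨r, hr, hr2⟩ := h1
    exact ⟨r, mem_filter.2 ⟨hr, j, hj, (hd r j).2 hr2.symm⟩, hr2⟩

lemma pz_prod (y z : ℕ) (f : ℕ → ℝ) :
    ∏ p ∈ pz z, (if y < p then f p else 1) = ∏ p ∈ (Ico (y + 1) (z + 1)).filter Nat.Prime, f p := by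
  rw [← Finset.prod_filter]
  apply Finset.prod_congr _ (fun _ _ => rfl)
  ext p
  rw [mem_filter, mem_pz, mem_filter, mem_Ico]
  constructor
  · rintro ⟨⟨h1, h2⟩, h3⟩
    exact ⟨⟨by omega, by omega⟩, h2⟩
  · rintro ⟨⟨h1, h2⟩, h3⟩
    exact ⟨⟨by omega, h3⟩, by omega⟩

lemma VT_nonneg (y z : ℕ) (T : Finset ℕ) : 0 ≤ VT y z T := by
  unfold VT
  refine prod_nonneg fun p hp => ?_
  have hp' := (mem_filter.1 hp).2
  have h1 : (0 : ℝ) < p := by exact_mod_cast hp'.pos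
  rw [sub_nonneg]
  refine (div_le_one h1).2 ?_
  exact_mod_cast nu_le T hp'.pos

lemma VT_le_one (y z : ℕ) (T : Finset ℕ) : VT y z T ≤ 1 := by
  unfold VT
  refine prod_le_one (fun p hp => ?_) (fun p hp => ?_)
  · have hp' := (mem_filter.1 hp).2
    have h1 : (0 : ℝ) < p := by exact_mod_cast hp'.pos
    rw [sub_nonneg]
    refine (div_le_one h1).2 ?_
    exact_mod_cast nu_le T hp'.pos
  · have : 0 ≤ (nu T p : ℝ) / p := by positivity
    linarith

open Classical in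
/-- the fundamental lemma for the numbers `W l + β + j`, `j ∈ T`, in a progression -/
theorem cntA (κ : ℕ) (hκ : 1 ≤ κ) : ∃ C0 x0 : ℕ, 1 ≤ C0 ∧ ∀ b : ℕ, C0 ≤ b →
    ∀ x z : ℕ, x0 ≤ z → z ^ (16 * (C0 * b)) ≤ x → ∀ W β y : ℕ, (∀ p : ℕ, p.Prime → y < p → ¬ p ∣ W) →
    ∀ T : Finset ℕ, T.card ≤ κ → ∀ N E a : ℕ, 1 ≤ E → (∀ p : ℕ, p.Prime → p ≤ z → ¬ p ∣ E) →
    |((((Icc 1 N).filter (fun l : ℕ => l ≡ a [MOD E] ∧ ∀ j ∈ T, ∀ p ∈ pz z, y < p → ¬ p ∣ W * l + β + j)).card : ℕ) : ℝ) -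
      (N : ℝ) / E * VT y z T| ≤ (1 / 2) ^ b * ((N : ℝ) / E) + √(x : ℝ) := by
  obtain ⟨C0, x0, hC0, H⟩ := Pool.Agent.R490.P3a.sys_fundE κ hκ
  refine ⟨C0, x0, hC0, fun b hb x z hz hx W β y hW T hT N E a hE hEp => ?_⟩
  obtain ⟨Q, hQ⟩ : ∃ Q : ℕ → ℕ → Prop, Q = fun p n => y < p ∧ ∃ j ∈ T, p ∣ W * n + β + j := ⟨_, rfl⟩
  have hnu : ∀ p : ℕ, p.Prime → nuB Q p = if y < p then nu T p else 0 := by
    intro p hp
    by_cases h : y < p
    · rw [if_pos h]
      unfold nuB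
      rw [← nuB_eq (β := β) hp (hW p hp h) T]
      congr 1
      apply filter_congr
      intro r _
      rw [hQ]
      exact ⟨fun h1 => h1.2, fun h1 => ⟨h, h1⟩⟩
    · rw [if_neg h]
      unfold nuB
      rw [card_eq_zero, filter_eq_empty_iff]
      intro r _ h1
      rw [hQ] at h1
      exact h h1.1
  have hper : PerB Q κ := by
    refine ⟨fun p n => ?_, fun p hp => ?_⟩
    · rw [hQ]
      have h1 : ∀ j, p ∣ W * n + β + j ↔ p ∣ W * (n % p) + β + j := by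
        intro j
        have h2 : W * n + β + j ≡ W * (n % p) + β + j [MOD p] :=
          Nat.ModEq.add_right _ (Nat.ModEq.add_right _ (Nat.ModEq.mul_left _ (Nat.mod_modEq n p).symm))
        exact h2.dvd_iff dvd_rfl
      constructor
      · rintro ⟨g1, j, g2, g3⟩
        exact ⟨g1, j, g2, (h1 j).1 g3⟩
      · rintro ⟨g1, j, g2, g3⟩
        exact ⟨g1, j, g2, (h1 j).2 g3⟩
    · rw [hnu p hp]
      split_ifs
      · exact (nu_le_card T p).trans hT
      · exact Nat.zero_le _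
  have key := H b hb x z hz hx Q hper N E a hE (fun p hp => hEp p (mem_pz.1 hp).2 (mem_pz.1 hp).1)
  have e1 : ∏ p ∈ pz z, (1 - (nuB Q p : ℝ) / p) = VT y z T := by
    unfold VT
    rw [← pz_prod y z (fun p => 1 - (nu T p : ℝ) / p)]
    refine Finset.prod_congr rfl fun p hp => ?_
    rw [hnu p (mem_pz.1 hp).2]
    split_ifs <;> simp
  have e2 : (Icc 1 N).filter (fun n : ℕ => n ≡ a [MOD E] ∧ ∀ p ∈ pz z, ¬ Q p n) =
      (Icc 1 N).filter (fun l : ℕ => l ≡ a [MOD E] ∧ ∀ j ∈ T, ∀ p ∈ pz z, y < p → ¬ p ∣ W * l + β + j) := by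
    apply filter_congr
    intro l _
    rw [hQ]
    constructor
    · rintro ⟨h1, h2⟩
      exact ⟨h1, fun j hj p hp hyp hd => h2 p hp ⟨hyp, j, hj, hd⟩⟩
    · rintro ⟨h1, h2⟩
      exact ⟨h1, fun p hp ⟨hyp, j, hj, hd⟩ => h2 j hj p hp hyp hd⟩
  rw [e1, e2] at key
  refine key.trans ?_
  have hV1 := VT_le_one y z T
  have hE0 : (0 : ℝ) < E := by exact_mod_cast hE
  have h1 : (N : ℝ) / E * VT y z T ≤ (N : ℝ) / E := mul_le_of_le_one_right (by positivity) hV1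
  have h2 : (1 / 2 : ℝ) ^ b * ((N : ℝ) / E * VT y z T) ≤ (1 / 2) ^ b * ((N : ℝ) / E) :=
    mul_le_mul_of_nonneg_left h1 (by positivity)
  linarith

end Pool.Agent.L7h6.TX
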