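import Pool.Agent.L7h6.TX.Gd

/-!
# Random sieve (helper6), part 20: sequences
-/

set_option autoImplicit false

namespace Pool.Agent.L7h6.TX

open Finset Real Filter MeasureTheory

/-- every interval of length `h` starting at distance at most `D` from `y` contains an integer `v ≥ 2` with at most `r`
prime factors, all of them at least `v^(1/r)` -/
def Near (r : ℕ) (h D y : ℝ) : Prop := ∀ u : ℝ, |u - y| ≤ D → ∃ v : ℕ, u ≤ v ∧ (v : ℝ) ≤ u + h ∧ AP r v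

lemma Shells.mono {V V' : ℕ} (h : V ≤ V') {P : ℤ → Prop} (hP : Shells V' P) : Shells V P := by
  obtain ⟨K, hK, H⟩ := hP
  refine ⟨K, hK, fun j => (H j).trans ?_⟩
  apply div_le_div_of_nonneg_left (by positivity) (by positivity)
  exact pow_le_pow_right₀ (by linarith [(Nat.cast_nonneg j : (0 : ℝ) ≤ j)]) h

lemma near_core (r : ℕ) (ε : ℝ) (hε : 0 < ε) (C : ℕ) (b1 b2 : ℝ) (hb1 : 0 < b1) (hb2 : 0 < b2) :
    ∀ᶠ T : ℝ in atTop, ∀ y : ℝ, Gd r (ε / 2) (C + 1) ⌊y⌋ → b1 * T ≤ log (⌊y⌋ : ℝ) → log (⌊y⌋ : ℝ) ≤ b2 * T →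
      0 ≤ y → Near r (T ^ (1 + ε)) (T ^ C) y := by
  have e1 : ∀ᶠ T : ℝ in atTop, T ^ C ≤ exp (b1 * T) := by
    have h := (isLittleO_pow_exp_pos_mul_atTop (k := C) hb1).bound (show (0 : ℝ) < 1 by norm_num)
    filter_upwards [h, eventually_ge_atTop 0] with T hT hT0
    rw [one_mul, norm_of_nonneg (by positivity), norm_of_nonneg (exp_pos _).le] at hT
    exact hT
  have e2 : ∀ᶠ T : ℝ in atTop, b2 ^ (1 + ε / 2) ≤ T ^ (ε / 2) :=
    (tendsto_rpow_atTop (show 0 < ε / 2 by positivity)).eventually_ge_atTop _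
  filter_upwards [e1, e2, eventually_ge_atTop (max 1 (3 / b1 ^ (C + 1)))] with T h1 h2 h3 y hG hy1 hy2 hy0 u hu
  have hT1 : 1 ≤ T := (le_max_left _ _).trans h3
  have hT3 : 3 / b1 ^ (C + 1) ≤ T := (le_max_right _ _).trans h3
  have hT0 : 0 < T := by linarith
  have hk0 : (0 : ℤ) ≤ ⌊y⌋ := Int.floor_nonneg.2 hy0
  have hkp : (0 : ℝ) < (⌊y⌋ : ℝ) := by
    by_contra hne
    have h4 : (⌊y⌋ : ℝ) = 0 := le_antisymm (not_lt.1 hne) (by exact_mod_cast hk0)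
    rw [h4, Real.log_zero] at hy1
    nlinarith
  have hyk : exp (b1 * T) ≤ (⌊y⌋ : ℝ) := by
    calc exp (b1 * T) ≤ exp (log (⌊y⌋ : ℝ)) := exp_le_exp.2 hy1
      _ = _ := exp_log hkp
  have hky : (⌊y⌋ : ℝ) ≤ y := Int.floor_le y
  rw [abs_le] at hu
  have hu0 : 0 ≤ u := by linarith
  have g1 := Nat.floor_le hu0
  have g2 := Nat.lt_floor_add_one u
  have g3 := Int.lt_floor_add_one y
  have hb : T ^ C + 2 ≤ (b1 * T) ^ (C + 1) := by
    have hbp : 0 < b1 ^ (C + 1) := by positivity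
    rw [div_le_iff₀ hbp] at hT3
    rw [mul_pow, pow_succ T]
    have g4 : 1 ≤ T ^ C := one_le_pow₀ hT1
    nlinarith
  have hbk : (b1 * T) ^ (C + 1) ≤ (log (⌊y⌋ : ℝ)) ^ (C + 1) := pow_le_pow_left₀ (by positivity) hy1 _
  obtain ⟨v, v1, v2, v3⟩ := hG hk0 ⌊u⌋₊ (by
    rw [abs_le]
    constructor <;> linarith)
  refine ⟨v, ?_, ?_, v3⟩
  · have : ((⌊u⌋₊ + 1 : ℕ) : ℝ) ≤ v := by exact_mod_cast v1
    push_cast at this
    linarith
  · have h5 : (log (⌊y⌋ : ℝ)) ^ (1 + ε / 2) ≤ T ^ (1 + ε) := by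
      calc (log (⌊y⌋ : ℝ)) ^ (1 + ε / 2) ≤ (b2 * T) ^ (1 + ε / 2) :=
            rpow_le_rpow (le_trans (by positivity) hy1) hy2 (by positivity)
        _ = b2 ^ (1 + ε / 2) * T ^ (1 + ε / 2) := mul_rpow hb2.le hT0.le
        _ ≤ T ^ (ε / 2) * T ^ (1 + ε / 2) := mul_le_mul_of_nonneg_right h2 (by positivity)
        _ = T ^ (1 + ε) := by
            rw [← rpow_add hT0]
            congr 1
            ring
    linarith

lemma fl {x : ℝ} (hx : 0 < x) : ∀ᶠ s : ℝ in atTop, 0 ≤ x * exp s ∧ 1 / 2 * s ≤ log (⌊x * exp s⌋ : ℝ) ∧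
    log (⌊x * exp s⌋ : ℝ) ≤ 2 * s := by
  filter_upwards [eventually_ge_atTop (2 * (|log x| + 2))] with s hs
  have hy : x * exp s = exp (log x + s) := by rw [exp_add, exp_log hx]
  have h1 := neg_abs_le (log x)
  have h2 := le_abs_self (log x)
  have h0 := abs_nonneg (log x)
  have hy2 : 2 ≤ x * exp s := by
    rw [hy]
    calc (2 : ℝ) ≤ 1 + 1 := by norm_num
      _ ≤ exp 1 := add_one_le_exp 1
      _ ≤ _ := exp_le_exp.2 (by linarith)
  have g1 : x * exp s / 2 ≤ (⌊x * exp s⌋ : ℝ) := by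
    have := Int.lt_floor_add_one (x * exp s)
    linarith
  have g2 : (⌊x * exp s⌋ : ℝ) ≤ x * exp s := Int.floor_le _
  have hl2 : log 2 ≤ 1 := by have := Real.log_two_lt_d9; linarith
  refine ⟨by positivity, ?_, ?_⟩
  · have h3 := Real.log_le_log (by positivity) g1
    rw [Real.log_div (by positivity) (by norm_num), hy, Real.log_exp] at h3
    rw [hy]
    linarith
  · have h3 := Real.log_le_log (lt_of_lt_of_le (by positivity) g1) g2
    rw [hy, Real.log_exp] at h3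
    rw [hy]
    linarith

theorem seq_eventually {P : ℤ → Prop} {c : ℝ} (hc : 0 < c) (hP : Shells (⌈2 / (c / 2 / 2)⌉₊ + 2) P) (a : ℕ → ℝ)
    (ha : ∀ᶠ n : ℕ in atTop, exp ((n : ℝ) ^ c) ≤ a n) : ∀ᵐ x : ℝ, 0 < x → ∀ᶠ n : ℕ in atTop, P ⌊x * a n⌋ := by
  have h1 : ∀ m : ℕ, ∀ᵐ x : ℝ, x ∈ Set.Icc (1 / ((m : ℝ) + 1)) (m + 1) → ∀ᶠ n : ℕ in atTop, P ⌊x * a n⌋ := by
    intro m
    have hm1 : (0 : ℝ) < (m : ℝ) + 1 := by positivity
    refine steep_eventually (c := 1 / ((m : ℝ) + 1)) (δ := c / 2) hP (by positivity) (by positivity)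
      (fun n x => x * a n) ?_
    have ht : Tendsto (fun n : ℕ => (n : ℝ) ^ (c / 2)) atTop atTop :=
      (tendsto_rpow_atTop (by positivity)).comp tendsto_natCast_atTop_atTop
    filter_upwards [ha, ht.eventually_ge_atTop (log ((m : ℝ) + 1) + 1), eventually_ge_atTop 1] with n hn1 hn2 hn3 x hx
    have hx0 : 0 < x := lt_of_lt_of_le (by positivity) hx.1
    have ha0 : 0 < a n := lt_of_lt_of_le (exp_pos _) hn1
    have hder : HasDerivAt (fun x : ℝ => x * a n) (a n) x := by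
      have := (hasDerivAt_id x).mul_const (a n)
      rw [one_mul] at this
      exact this
    refine ⟨hder.differentiableAt, ?_, ?_⟩
    · rw [hder.deriv, abs_of_pos (by positivity), abs_of_pos ha0]
      rw [one_div, inv_mul_le_iff₀ hm1]
      exact mul_le_mul_of_nonneg_right hx.2 ha0.le
    · rw [abs_of_pos (by positivity)]
      have hlm : 0 ≤ log ((m : ℝ) + 1) := log_nonneg (by linarith [(Nat.cast_nonneg m : (0 : ℝ) ≤ m)])
      have h2 : (n : ℝ) ^ c = (n : ℝ) ^ (c / 2) * (n : ℝ) ^ (c / 2) := by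
        rw [← rpow_add_of_nonneg (Nat.cast_nonneg _) (by positivity) (by positivity), add_halves]
      have h3 : (n : ℝ) ^ (c / 2) + log ((m : ℝ) + 1) ≤ (n : ℝ) ^ c := by
        rw [h2]
        nlinarith
      calc exp ((n : ℝ) ^ (c / 2)) ≤ exp ((n : ℝ) ^ c - log ((m : ℝ) + 1)) := exp_le_exp.2 (by linarith)
        _ = exp ((n : ℝ) ^ c) * (1 / ((m : ℝ) + 1)) := by rw [exp_sub, exp_log hm1]; ring
        _ ≤ a n * x := mul_le_mul hn1 hx.1 (by positivity) ha0.le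
        _ = _ := mul_comm _ _
  filter_upwards [ae_all_iff.2 h1] with x hx hx1
  obtain ⟨m₁, hm₁⟩ := exists_nat_ge x
  obtain ⟨m₂, hm₂⟩ := exists_nat_one_div_lt hx1
  refine hx (max m₁ m₂) ⟨?_, ?_⟩
  · have h2 : (1 : ℝ) / (((max m₁ m₂ : ℕ) : ℝ) + 1) ≤ 1 / ((m₂ : ℝ) + 1) := by
      refine one_div_le_one_div_of_le (by positivity) ?_
      have : ((m₂ : ℕ) : ℝ) ≤ ((max m₁ m₂ : ℕ) : ℝ) := by exact_mod_cast le_max_right m₁ m₂
      linarith
    linarith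
  · have : ((m₁ : ℕ) : ℝ) ≤ ((max m₁ m₂ : ℕ) : ℝ) := by exact_mod_cast le_max_left m₁ m₂
    linarith

/-- geometric sequences -/
lemma geom {r C : ℕ} {ε B x : ℝ} (hε : 0 < ε) (hB : 1 < B) (hx : 0 < x)
    (h : ∀ᶠ n : ℕ in atTop, Gd r (ε / 2) (C + 1) ⌊x * B ^ n⌋) :
    ∀ᶠ n : ℕ in atTop, Near r ((n : ℝ) ^ (1 + ε)) ((n : ℝ) ^ C) (x * B ^ n) := by
  have hlB : 0 < log B := log_pos hB
  have t1 : Tendsto (fun n : ℕ => (n : ℝ)) atTop atTop := tendsto_natCast_atTop_atTop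
  have t2 : Tendsto (fun n : ℕ => (n : ℝ) * log B) atTop atTop := t1.atTop_mul_const hlB
  filter_upwards [h, t1.eventually (near_core r ε hε C (log B / 2) (2 * log B) (by positivity) (by positivity)),
    t2.eventually (fl hx)] with n h1 h2 h3
  have e1 : exp ((n : ℝ) * log B) = B ^ n := by rw [exp_nat_mul, exp_log (by linarith)]
  rw [e1] at h3
  exact h2 _ h1 (by linarith [h3.2.1]) (by linarith [h3.2.2]) h3.1

theorem main1 (ε : ℝ) (hε : 0 < ε) (C : ℕ) : ∃ r : ℕ,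
    (∀ B : ℝ, 1 < B → ∀ᵐ x : ℝ, 0 < x → ∀ᶠ n : ℕ in atTop,
      Near r ((n : ℝ) ^ (1 + ε)) ((n : ℝ) ^ C) (x * B ^ n)) ∧
    (∀ x : ℝ, 0 < x → ∀ᵐ a : ℝ, 1 < a → ∀ᶠ n : ℕ in atTop,
      Near r ((n : ℝ) ^ (1 + ε)) ((n : ℝ) ^ C) (x * a ^ n)) := by
  obtain ⟨V, hV⟩ : ∃ V, V = max (⌈2 / ((1 / 2 : ℝ) / 2 / 2)⌉₊ + 2) (⌈(2 : ℝ) / (1 / 2 / 2)⌉₊ + 2) := ⟨_, rfl⟩
  obtain ⟨r, hr⟩ := shells (ε / 2) (by positivity) (C + 1) V
  refine ⟨r, fun B hB => ?_, fun x hx => ?_⟩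
  · have hlB : 0 < log B := log_pos hB
    have h1 := seq_eventually (P := Gd r (ε / 2) (C + 1)) (c := 1 / 2) (by norm_num) (hr.mono (by rw [hV]; exact le_max_left _ _))
      (fun n => B ^ n) (by
        have t1 : Tendsto (fun n : ℕ => (n : ℝ) ^ (1 / 2 : ℝ)) atTop atTop :=
          (tendsto_rpow_atTop (by norm_num)).comp tendsto_natCast_atTop_atTop
        filter_upwards [t1.eventually_ge_atTop (1 / log B)] with n hn
        have e1 : exp ((n : ℝ) * log B) = B ^ n := by rw [exp_nat_mul, exp_log (by linarith)]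
        rw [← e1]
        apply exp_le_exp.2
        have h2 : (n : ℝ) = (n : ℝ) ^ (1 / 2 : ℝ) * (n : ℝ) ^ (1 / 2 : ℝ) := by
          rw [← rpow_add_of_nonneg (Nat.cast_nonneg _) (by norm_num) (by norm_num)]
          norm_num
        have h3 : 1 ≤ (n : ℝ) ^ (1 / 2 : ℝ) * log B := by
          rwa [div_le_iff₀ hlB] at hn
        have h4 : 0 ≤ (n : ℝ) ^ (1 / 2 : ℝ) := by positivity
        calc (n : ℝ) ^ (1 / 2 : ℝ) ≤ (n : ℝ) ^ (1 / 2 : ℝ) * ((n : ℝ) ^ (1 / 2 : ℝ) * log B) :=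
              le_mul_of_one_le_right h4 h3
          _ = (n : ℝ) ^ (1 / 2 : ℝ) * (n : ℝ) ^ (1 / 2 : ℝ) * log B := by ring
          _ = _ := by rw [← h2])
    filter_upwards [h1] with x hx hx0
    exact geom hε hB hx0 (hx hx0)
  · have h1 := power_eventually (P := Gd r (ε / 2) (C + 1)) (hr.mono (by rw [hV]; exact le_max_right _ _)) hx.ne'
    filter_upwards [h1] with a ha ha1
    exact geom hε ha1 hx (ha ha1)

theorem main2 (ε : ℝ) (hε : 0 < ε) (C : ℕ) (c : ℝ) (hc : 0 < c) : ∃ r : ℕ, ∀ a : ℕ → ℝ,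
    (∀ᶠ n : ℕ in atTop, exp ((n : ℝ) ^ c) ≤ a n) → ∀ᵐ x : ℝ, 0 < x → ∀ᶠ n : ℕ in atTop,
      Near r ((log (a n)) ^ (1 + ε)) ((log (a n)) ^ C) (x * a n) := by
  obtain ⟨r, hr⟩ := shells (ε / 2) (by positivity) (C + 1) (⌈2 / (c / 2 / 2)⌉₊ + 2)
  refine ⟨r, fun a ha => ?_⟩
  filter_upwards [seq_eventually hc hr a ha] with x hx hx0
  have t0 : Tendsto (fun n : ℕ => (n : ℝ) ^ c) atTop atTop := (tendsto_rpow_atTop hc).comp tendsto_natCast_atTop_atTop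
  have t1 : Tendsto (fun n : ℕ => log (a n)) atTop atTop := by
    apply tendsto_atTop_mono' _ _ t0
    filter_upwards [ha] with n hn
    have := Real.log_le_log (exp_pos _) hn
    rwa [Real.log_exp] at this
  filter_upwards [hx hx0, ha, t1.eventually (near_core r ε hε C (1 / 2) 2 (by norm_num) (by norm_num)),
    t1.eventually (fl hx0)] with n h1 h2 h3 h4
  have ha0 : 0 < a n := lt_of_lt_of_le (exp_pos _) h2
  rw [exp_log ha0] at h4
  exact h3 _ h1 h4.2.1 h4.2.2 h4.1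

end Pool.Agent.L7h6.TX
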