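import Pool.Agent.L7h6.TX.Cnt2

/-!
# Random sieve (helper6), part 7: an index which is alone
-/

set_option autoImplicit false

namespace Pool.Agent.L7h6.TX

open Finset
open Pool.Agent.H373R2.T7
open Pool.Agent.L7h6.EX (wt wt_eq wt_nonneg wt_union sum_sup)

variable {ι : Type} [Fintype ι] [DecidableEq ι]

open Classical in
/-- the main term -/
noncomputable def GG (c : Finset ℕ → ℝ) (U : Finset (Finset ℕ)) (f : ι → ℕ) : ℝ :=
  ∑ g ∈ Fintype.piFinset (fun _ : ι => U), (∏ i, c (g i)) * ((if Comp f g then 1 else 0) * wt (un g))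

lemma abs_prod_le {c : Finset ℕ → ℝ} {U : Finset (Finset ℕ)} {M : ℝ} (hM : ∀ u ∈ U, |c u| ≤ M) (s : Finset ι)
    {g : ι → Finset ℕ} (hg : ∀ i, g i ∈ U) : |∏ i ∈ s, c (g i)| ≤ M ^ s.card := by
  rw [Finset.abs_prod, ← Finset.prod_const]
  exact Finset.prod_le_prod (fun _ _ => abs_nonneg _) (fun i _ => hM _ (hg i))

lemma GG_le {B : Finset ℕ} {U : Finset (Finset ℕ)} {c : Finset ℕ → ℝ} {M : ℝ} (hU : ∀ u ∈ U, u ⊆ B)
    (hM : ∀ u ∈ U, |c u| ≤ M) (hM0 : 0 ≤ M) (f : ι → ℕ) :
    |GG c U f| ≤ M ^ Fintype.card ι * ∏ p ∈ B, (1 + 2 ^ Fintype.card ι / (p : ℝ)) := by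
  classical
  unfold GG
  refine (Finset.abs_sum_le_sum_abs _ _).trans ?_
  have h1 : ∀ g ∈ Fintype.piFinset (fun _ : ι => U),
      |(∏ i, c (g i)) * ((if Comp f g then 1 else 0) * wt (un g))| ≤ M ^ Fintype.card ι * wt (un g) := by
    intro g hg
    rw [abs_mul]
    apply mul_le_mul _ _ (abs_nonneg _) (by positivity)
    · exact abs_prod_le hM univ (fun i => Fintype.mem_piFinset.1 hg i)
    · rw [abs_mul, abs_of_nonneg (wt_nonneg _)]
      split_ifs
      · rw [abs_one, one_mul]
      · rw [abs_zero, zero_mul]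
        exact wt_nonneg _
  refine (Finset.sum_le_sum h1).trans ?_
  rw [← Finset.mul_sum]
  exact mul_le_mul_of_nonneg_left (sum_wt_un hU) (by positivity)

lemma prod_ge_one (B : Finset ℕ) (x : ℝ) (hx : 0 ≤ x) : 1 ≤ ∏ p ∈ B, (1 + x / (p : ℝ)) := by
  have h1 : ∏ _p ∈ B, (1 : ℝ) ≤ ∏ p ∈ B, (1 + x / (p : ℝ)) := by
    refine Finset.prod_le_prod (fun _ _ => zero_le_one) (fun p _ => ?_)
    have : 0 ≤ x / (p : ℝ) := by positivity
    linarith
  rwa [Finset.prod_const_one] at h1

/-- sums over the sets with a given element -/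
lemma sum_mem_wt {B : Finset ℕ} {U : Finset (Finset ℕ)} (hU : ∀ u ∈ U, u ⊆ B) {p z : ℕ} (hp : p ∈ B) (hz : 0 < z)
    (hzp : z < p) : ∑ u ∈ U.filter (fun u => p ∈ u), wt u ≤ 1 / (z : ℝ) * ∏ q ∈ B, (1 + 1 / (q : ℝ)) := by
  classical
  have h1 : ∑ u ∈ U.filter (fun u => p ∈ u), wt u ≤ ∑ u ∈ B.powerset, if {p} ⊆ u then wt u else 0 := by
    rw [← Finset.sum_filter]
    apply Finset.sum_le_sum_of_subset_of_nonneg
    · intro u hu
      rw [mem_filter] at hu
      rw [mem_filter, mem_powerset, singleton_subset_iff]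
      exact ⟨hU u hu.1, hu.2⟩
    · intro u _ _
      exact wt_nonneg u
  refine h1.trans ?_
  rw [sum_sup (singleton_subset_iff.2 hp)]
  have h2 : ∀ R ∈ (B \ {p}).powerset, wt ({p} ∪ R) = 1 / (p : ℝ) * wt R := by
    intro R hR
    rw [mem_powerset] at hR
    rw [wt_union]
    · congr 1
      unfold wt
      rw [Finset.prod_singleton]
    · rw [disjoint_singleton_left]
      intro h
      have := hR h
      rw [mem_sdiff] at this
      exact this.2 (mem_singleton_self p)
  rw [Finset.sum_congr rfl h2, ← Finset.mul_sum]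
  have h3 : ∑ R ∈ (B \ {p}).powerset, wt R = ∏ q ∈ B \ {p}, (1 + 1 / (q : ℝ)) := by
    rw [Finset.prod_one_add]
    rfl
  rw [h3]
  have hz0 : (0 : ℝ) < z := by exact_mod_cast hz
  apply mul_le_mul
  · apply one_div_le_one_div_of_le hz0
    exact_mod_cast hzp.le
  · apply Finset.prod_le_prod_of_subset_of_one_le sdiff_subset
    · intro q _
      positivity
    · intro q _ _
      have : 0 ≤ 1 / (q : ℝ) := by positivity
      linarith
  · exact Finset.prod_nonneg fun q _ => by positivity
  · positivity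

open Classical in
/-- the centred sum over the sets disjoint to `V` -/
lemma sum_disj {B V : Finset ℕ} {U : Finset (Finset ℕ)} {c : Finset ℕ → ℝ} {M : ℝ} {z : ℕ} (hz : 0 < z)
    (hB : ∀ p ∈ B, z < p) (hU : ∀ u ∈ U, u ⊆ B) (hV : V ⊆ B) (hM : ∀ u ∈ U, |c u| ≤ M) (hM0 : 0 ≤ M)
    (hcen : ∑ u ∈ U, c u * wt u = 0) :
    |∑ u ∈ U, if Disjoint u V then c u * wt u else 0| ≤ M * (V.card / (z : ℝ)) * ∏ q ∈ B, (1 + 1 / (q : ℝ)) := by
  have h1 : ∑ u ∈ U, (if Disjoint u V then c u * wt u else 0) = -∑ u ∈ U, (if Disjoint u V then 0 else c u * wt u) := by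
    rw [eq_neg_iff_add_eq_zero, ← Finset.sum_add_distrib]
    refine (Finset.sum_congr rfl fun u _ => ?_).trans hcen
    split_ifs <;> simp
  rw [h1, abs_neg]
  refine (Finset.abs_sum_le_sum_abs _ _).trans ?_
  have h2 : ∀ u ∈ U, |if Disjoint u V then 0 else c u * wt u| ≤ ∑ p ∈ V, (if p ∈ u then M * wt u else 0) := by
    intro u hu
    have hw := wt_nonneg u
    split_ifs with h
    · rw [abs_zero]
      refine Finset.sum_nonneg fun p _ => ?_
      split_ifs
      · positivity
      · exact le_rfl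
    · rw [Finset.not_disjoint_iff] at h
      obtain ⟨p, hp, hpV⟩ := h
      rw [abs_mul, abs_of_nonneg hw]
      calc |c u| * wt u ≤ M * wt u := mul_le_mul_of_nonneg_right (hM u hu) hw
        _ = (if p ∈ u then M * wt u else 0) := by rw [if_pos hp]
        _ ≤ _ := by
          apply Finset.single_le_sum (f := fun p => if p ∈ u then M * wt u else 0) _ hpV
          intro q _
          show 0 ≤ if q ∈ u then M * wt u else 0
          split_ifs
          · positivity
          · exact le_rfl
  refine (Finset.sum_le_sum h2).trans ?_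
  rw [Finset.sum_comm]
  have h3 : ∀ p ∈ V, ∑ u ∈ U, (if p ∈ u then M * wt u else 0) ≤ M * (1 / (z : ℝ) * ∏ q ∈ B, (1 + 1 / (q : ℝ))) := by
    intro p hp
    rw [← Finset.sum_filter, ← Finset.mul_sum]
    exact mul_le_mul_of_nonneg_left (sum_mem_wt hU (hV hp) hz (hB p (hV hp))) hM0
  refine (Finset.sum_le_sum h3).trans (le_of_eq ?_)
  rw [Finset.sum_const, nsmul_eq_mul]
  ring

/-- an index which is alone makes the main term small -/
theorem GG_single {B : Finset ℕ} {U : Finset (Finset ℕ)} {c : Finset ℕ → ℝ} {M : ℝ} {z L2 : ℕ} (hz : 0 < z)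
    (hB : ∀ p ∈ B, z < p) (hU : ∀ u ∈ U, u ⊆ B) (hU0 : ∅ ∈ U) (hUL : ∀ u ∈ U, u.card ≤ L2)
    (hM : ∀ u ∈ U, |c u| ≤ M) (hM0 : 0 ≤ M) (hcen : ∑ u ∈ U, c u * wt u = 0) (f : ι → ℕ) (i0 : ι)
    (hi0 : ∀ i, i ≠ i0 → f i ≠ f i0) :
    |GG c U f| ≤ M ^ Fintype.card ι * ((Fintype.card ι * L2 : ℝ) / z) *
      (∏ p ∈ B, (1 + 2 ^ Fintype.card ι / (p : ℝ))) ^ 2 := by
  classical
  obtain ⟨Ξ, hΞ⟩ : ∃ Ξ, Ξ = ∏ p ∈ B, (1 + 2 ^ Fintype.card ι / (p : ℝ)) := ⟨_, rfl⟩
  have hΞ1 : 1 ≤ Ξ := by rw [hΞ]; exact prod_ge_one B _ (by positivity)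
  have hz0 : (0 : ℝ) < z := by exact_mod_cast hz
  obtain ⟨Pi, hPi⟩ : ∃ Pi, Pi = Fintype.piFinset (fun _ : ι => U) := ⟨_, rfl⟩
  have hmem : ∀ g, g ∈ Pi ↔ ∀ i, g i ∈ U := fun g => by rw [hPi, Fintype.mem_piFinset]
  obtain ⟨F, hF⟩ : ∃ F : (ι → Finset ℕ) → ℝ, F = fun g => (∏ i, c (g i)) * ((if Comp f g then 1 else 0) * wt (un g)) :=
    ⟨_, rfl⟩
  have e1 : GG c U f = ∑ g ∈ Pi, F g := by
    rw [hPi, hF]
    rfl
  have e2 : ∑ g ∈ Pi, F g = ∑ x ∈ (Pi.filter (fun g => g i0 = ∅)) ×ˢ U, F (Function.update x.1 i0 x.2) := by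
    refine Finset.sum_nbij' (fun g => (Function.update g i0 ∅, g i0)) (fun x => Function.update x.1 i0 x.2) ?_ ?_ ?_ ?_ ?_
    · intro g hg
      rw [mem_product, mem_filter, hmem]
      rw [hmem] at hg
      refine ⟨⟨fun i => ?_, by simp⟩, hg i0⟩
      by_cases h : i = i0
      · subst h
        simpa using hU0
      · simpa [Function.update_of_ne h] using hg i
    · intro x hx
      rw [mem_product, mem_filter, hmem] at hx
      rw [hmem]
      intro i
      by_cases h : i = i0
      · subst h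
        simpa using hx.2
      · simpa [Function.update_of_ne h] using hx.1.1 i
    · intro g _
      simp
    · intro x hx
      rw [mem_product, mem_filter] at hx
      ext1
      · show Function.update (Function.update x.1 i0 x.2) i0 ∅ = x.1
        rw [Function.update_idem, ← hx.1.2, Function.update_eq_self]
      · simp
    · intro g _
      simp
  have hfac : ∀ g ∈ Pi.filter (fun g => g i0 = ∅), ∀ u ∈ U, F (Function.update g i0 u) =
      ((∏ i ∈ univ.erase i0, c (g i)) * ((if Comp f g then 1 else 0) * wt (un g))) *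
        (if Disjoint u (un g) then c u * wt u else 0) := by
    intro g hg u _
    rw [mem_filter] at hg
    have hun : un (Function.update g i0 u) = u ∪ un g := by
      ext p
      rw [mem_un, mem_union, mem_un]
      constructor
      · rintro ⟨i, hi⟩
        by_cases h : i = i0
        · subst h
          left
          simpa using hi
        · right
          exact ⟨i, by simpa [Function.update_of_ne h] using hi⟩
      · rintro (h | ⟨i, hi⟩)
        · exact ⟨i0, by simpa using h⟩
        · have h : i ≠ i0 := by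
            rintro rfl
            rw [hg.2] at hi
            simp at hi
          exact ⟨i, by simpa [Function.update_of_ne h] using hi⟩
    have hco : Comp f (Function.update g i0 u) ↔ Comp f g ∧ Disjoint u (un g) := by
      constructor
      · intro h
        refine ⟨fun i i' p hp hp' => ?_, ?_⟩
        · have h1 : i ≠ i0 := by
            rintro rfl
            rw [hg.2] at hp
            simp at hp
          have h2 : i' ≠ i0 := by
            rintro rfl
            rw [hg.2] at hp'
            simp at hp'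
          exact h i i' p (by simpa [Function.update_of_ne h1] using hp) (by simpa [Function.update_of_ne h2] using hp')
        · rw [Finset.disjoint_left]
          intro p hp hp'
          obtain ⟨i, hi⟩ := mem_un.1 hp'
          have h1 : i ≠ i0 := by
            rintro rfl
            rw [hg.2] at hi
            simp at hi
          exact hi0 i h1 (h i i0 p (by simpa [Function.update_of_ne h1] using hi) (by simpa using hp))
      · rintro ⟨h, hd⟩ i i' p hp hp'
        rw [Finset.disjoint_left] at hd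
        by_cases h1 : i = i0
        · by_cases h2 : i' = i0
          · rw [h1, h2]
          · exfalso
            rw [h1] at hp
            rw [Function.update_of_ne h2] at hp'
            rw [Function.update_self] at hp
            exact hd hp (mem_un.2 ⟨i', hp'⟩)
        · by_cases h2 : i' = i0
          · exfalso
            rw [h2, Function.update_self] at hp'
            rw [Function.update_of_ne h1] at hp
            exact hd hp' (mem_un.2 ⟨i, hp⟩)
          · rw [Function.update_of_ne h1] at hp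
            rw [Function.update_of_ne h2] at hp'
            exact h i i' p hp hp'
    have hpr : ∏ i, c (Function.update g i0 u i) = c u * ∏ i ∈ univ.erase i0, c (g i) := by
      rw [← Finset.mul_prod_erase univ _ (mem_univ i0), Function.update_self]
      congr 1
      refine Finset.prod_congr rfl fun i hi => ?_
      rw [Function.update_of_ne (mem_erase.1 hi).1]
    rw [hF]
    simp only []
    rw [hpr, hun]
    by_cases hd : Disjoint u (un g)
    · rw [if_pos hd, wt_union hd]
      by_cases hcf : Comp f g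
      · rw [if_pos (hco.2 ⟨hcf, hd⟩), if_pos hcf]
        ring
      · rw [if_neg (fun h => hcf (hco.1 h).1), if_neg hcf]
        ring
    · rw [if_neg hd, if_neg (fun h => hd (hco.1 h).2)]
      ring
  rw [e1, e2, Finset.sum_product]
  have e3 : ∀ g ∈ Pi.filter (fun g => g i0 = ∅), ∑ u ∈ U, F (Function.update g i0 u) =
      ((∏ i ∈ univ.erase i0, c (g i)) * ((if Comp f g then 1 else 0) * wt (un g))) *
        ∑ u ∈ U, (if Disjoint u (un g) then c u * wt u else 0) := by
    intro g hg
    rw [Finset.sum_congr rfl (hfac g hg), ← Finset.mul_sum]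
  rw [Finset.sum_congr rfl e3]
  refine (Finset.abs_sum_le_sum_abs _ _).trans ?_
  have hprod1 : ∏ q ∈ B, (1 + 1 / (q : ℝ)) ≤ Ξ := by
    rw [hΞ]
    refine Finset.prod_le_prod (fun _ _ => by positivity) (fun q _ => ?_)
    have : 1 / (q : ℝ) ≤ 2 ^ Fintype.card ι / (q : ℝ) := by
      apply div_le_div_of_nonneg_right _ (Nat.cast_nonneg q)
      exact one_le_pow₀ (by norm_num)
    linarith
  have h4 : ∀ g ∈ Pi.filter (fun g => g i0 = ∅),
      |((∏ i ∈ univ.erase i0, c (g i)) * ((if Comp f g then 1 else 0) * wt (un g))) *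
        ∑ u ∈ U, (if Disjoint u (un g) then c u * wt u else 0)| ≤
      (M ^ Fintype.card ι * ((Fintype.card ι * L2 : ℝ) / z) * Ξ) * wt (un g) := by
    intro g hg
    rw [mem_filter, hmem] at hg
    have hunB : un g ⊆ B := by
      intro p hp
      obtain ⟨i, hi⟩ := mem_un.1 hp
      exact hU _ (hg.1 i) hi
    have g1 := sum_disj hz hB hU hunB hM hM0 hcen
    have g2 : ((un g).card : ℝ) ≤ Fintype.card ι * L2 := by
      have h5 : (un g).card ≤ ∑ i : ι, (g i).card := card_biUnion_le
      have h6 : ∑ i : ι, (g i).card ≤ ∑ _i : ι, L2 := Finset.sum_le_sum fun i _ => hUL _ (hg.1 i)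
      rw [Finset.sum_const, card_univ, smul_eq_mul] at h6
      exact_mod_cast h5.trans h6
    have g3 : M * ((un g).card / (z : ℝ)) * ∏ q ∈ B, (1 + 1 / (q : ℝ)) ≤ M * ((Fintype.card ι * L2 : ℝ) / z) * Ξ := by
      apply mul_le_mul _ hprod1 (Finset.prod_nonneg fun q _ => by positivity) (by positivity)
      exact mul_le_mul_of_nonneg_left (div_le_div_of_nonneg_right g2 hz0.le) hM0
    have g4 : |(∏ i ∈ univ.erase i0, c (g i)) * ((if Comp f g then 1 else 0) * wt (un g))| ≤
        M ^ (univ.erase i0).card * wt (un g) := by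
      rw [abs_mul]
      apply mul_le_mul _ _ (abs_nonneg _) (by positivity)
      · exact abs_prod_le hM _ hg.1
      · rw [abs_mul, abs_of_nonneg (wt_nonneg _)]
        split_ifs
        · rw [abs_one, one_mul]
        · rw [abs_zero, zero_mul]
          exact wt_nonneg _
    rw [abs_mul]
    have hw := wt_nonneg (un g)
    calc _ ≤ (M ^ (univ.erase i0).card * wt (un g)) * (M * ((Fintype.card ι * L2 : ℝ) / z) * Ξ) :=
          mul_le_mul g4 (g1.trans g3) (abs_nonneg _) (by positivity)
      _ = (M ^ (univ.erase i0).card * M) * ((Fintype.card ι * L2 : ℝ) / z) * Ξ * wt (un g) := by ring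
      _ = _ := by
        rw [← pow_succ, card_erase_add_one (mem_univ i0), card_univ]
  refine (Finset.sum_le_sum h4).trans ?_
  rw [← Finset.mul_sum]
  have h5 : ∑ g ∈ Pi.filter (fun g => g i0 = ∅), wt (un g) ≤ Ξ := by
    refine (Finset.sum_le_sum_of_subset_of_nonneg (filter_subset _ _) (fun g _ _ => wt_nonneg _)).trans ?_
    rw [hPi, hΞ]
    exact sum_wt_un hU
  calc (M ^ Fintype.card ι * ((Fintype.card ι * L2 : ℝ) / z) * Ξ) * ∑ g ∈ Pi.filter (fun g => g i0 = ∅), wt (un g) ≤
      (M ^ Fintype.card ι * ((Fintype.card ι * L2 : ℝ) / z) * Ξ) * Ξ :=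
        mul_le_mul_of_nonneg_left h5 (by positivity)
    _ = _ := by rw [← hΞ]; ring

end Pool.Agent.L7h6.TX
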