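import Pool.Agent.L7h6.TX.Single

/-!
# Random sieve (helper6), part 8: products of centred sums over blocks
-/

set_option autoImplicit false

namespace Pool.Agent.L7h6.TX

open Finset
open Pool.Agent.H373R2.T7
open Pool.Agent.L7h6.EX (wt wt_eq wt_nonneg wt_union sum_sup)

open Classical in
/-- the weight -/
noncomputable def ww (c : Finset ℕ → ℝ) (U : Finset (Finset ℕ)) (v : ℕ) : ℝ :=
  ∑ u ∈ U, c u * (if (∏ p ∈ u, p) ∣ v then 1 else 0)

/-- the weight of `W l + β + j`, if this number has no small prime factors -/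
noncomputable def YY (W β y z : ℕ) (c : Finset ℕ → ℝ) (U : Finset (Finset ℕ)) (J : Finset ℕ) (j l : ℕ) : ℝ := by
  classical
  exact if j ∈ Sv W β y z J l then ww c U (W * l + β + j) else 0

section

variable {ι : Type} [Fintype ι] [DecidableEq ι]

open Classical in
/-- the expansion -/
lemma expand (N W β y z : ℕ) (c : Finset ℕ → ℝ) (U : Finset (Finset ℕ)) {J : Finset ℕ} (f : ι → ℕ) (hf : ∀ i, f i ∈ J) :
    ∑ l ∈ Icc 1 N, ∏ i, YY W β y z c U J (f i) l = ∑ g ∈ Fintype.piFinset (fun _ : ι => U), (∏ i, c (g i)) *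
      ((((Icc 1 N).filter (fun l => (∀ i, (∏ p ∈ g i, p) ∣ W * l + β + f i) ∧
        ∀ j ∈ univ.image f, ∀ p ∈ pz z, y < p → ¬ p ∣ W * l + β + j)).card : ℕ) : ℝ) := by
  have h1 : ∀ l ∈ Icc 1 N, ∏ i, YY W β y z c U J (f i) l = ∑ g ∈ Fintype.piFinset (fun _ : ι => U), (∏ i, c (g i)) *
      (if (∀ i, (∏ p ∈ g i, p) ∣ W * l + β + f i) ∧
        ∀ j ∈ univ.image f, ∀ p ∈ pz z, y < p → ¬ p ∣ W * l + β + j then 1 else 0) := by
    intro l _
    have h2 : ∀ i ∈ (univ : Finset ι), YY W β y z c U J (f i) l =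
        ∑ u ∈ U, c u * (if (∏ p ∈ u, p) ∣ W * l + β + f i ∧ f i ∈ Sv W β y z J l then 1 else 0) := by
      intro i _
      unfold YY ww
      split_ifs with h
      · refine Finset.sum_congr rfl fun u _ => ?_
        simp [h]
      · symm
        refine Finset.sum_eq_zero fun u _ => ?_
        simp [h]
    rw [Finset.prod_congr rfl h2, Finset.prod_univ_sum]
    refine Finset.sum_congr rfl fun g _ => ?_
    rw [Finset.prod_mul_distrib, Finset.prod_boole]
    congr 1
    have h3 : (∀ i ∈ (univ : Finset ι), (∏ p ∈ g i, p) ∣ W * l + β + f i ∧ f i ∈ Sv W β y z J l) ↔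
        ((∀ i, (∏ p ∈ g i, p) ∣ W * l + β + f i) ∧
          ∀ j ∈ univ.image f, ∀ p ∈ pz z, y < p → ¬ p ∣ W * l + β + j) := by
      constructor
      · intro h
        refine ⟨fun i => (h i (mem_univ i)).1, ?_⟩
        intro j hj
        rw [mem_image] at hj
        obtain ⟨i, _, rfl⟩ := hj
        have h4 := (h i (mem_univ i)).2
        unfold Sv at h4
        exact (mem_filter.1 h4).2
      · rintro ⟨g1, g2⟩ i _
        refine ⟨g1 i, ?_⟩
        unfold Sv
        exact mem_filter.2 ⟨hf i, g2 (f i) (mem_image_of_mem f (mem_univ i))⟩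
    simp only [h3]
  rw [Finset.sum_congr rfl h1, Finset.sum_comm]
  refine Finset.sum_congr rfl fun g _ => ?_
  rw [← Finset.mul_sum, ← Finset.sum_filter, Finset.sum_const, nsmul_eq_mul, mul_one]

/-- the means of the products -/
theorem mean_prod {N W β y z κ H : ℕ} {η e M : ℝ} (hC : Cnt N W β y z κ η e) (hη : 0 ≤ η) (he : 0 ≤ e) (hM0 : 0 ≤ M)
    {B : Finset ℕ} (hB : ∀ p ∈ B, p.Prime ∧ z < p ∧ H < p ∧ ¬ p ∣ W) {c : Finset ℕ → ℝ} {U : Finset (Finset ℕ)}
    (hU : ∀ u ∈ U, u ⊆ B) (hM : ∀ u ∈ U, |c u| ≤ M) {J : Finset ℕ} (hJ : ∀ j ∈ J, j ≤ H) (f : ι → ℕ)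
    (hf : ∀ i, f i ∈ J) (hκ : Fintype.card ι ≤ κ) :
    |∑ l ∈ Icc 1 N, ∏ i, YY W β y z c U J (f i) l - N * VT y z (univ.image f) * GG c U f| ≤
      M ^ Fintype.card ι * (η * N * ∏ p ∈ B, (1 + 2 ^ Fintype.card ι / (p : ℝ)) + e * (U.card : ℝ) ^ Fintype.card ι) := by
  classical
  rw [expand N W β y z c U f hf]
  unfold GG
  rw [Finset.mul_sum, ← Finset.sum_sub_distrib]
  refine (Finset.abs_sum_le_sum_abs _ _).trans ?_
  have h1 : ∀ g ∈ Fintype.piFinset (fun _ : ι => U), |(∏ i, c (g i)) *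
      ((((Icc 1 N).filter (fun l => (∀ i, (∏ p ∈ g i, p) ∣ W * l + β + f i) ∧
        ∀ j ∈ univ.image f, ∀ p ∈ pz z, y < p → ¬ p ∣ W * l + β + j)).card : ℕ) : ℝ) -
      N * VT y z (univ.image f) * ((∏ i, c (g i)) * ((if Comp f g then 1 else 0) * wt (un g)))| ≤
      M ^ Fintype.card ι * (η * N * wt (un g) + e) := by
    intro g hg
    rw [Fintype.mem_piFinset] at hg
    have h2 := cnt2 hC hη he hB f (fun i => hJ _ (hf i)) hκ g (fun i => hU _ (hg i))
    have e1 : (∏ i, c (g i)) * ((((Icc 1 N).filter (fun l => (∀ i, (∏ p ∈ g i, p) ∣ W * l + β + f i) ∧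
        ∀ j ∈ univ.image f, ∀ p ∈ pz z, y < p → ¬ p ∣ W * l + β + j)).card : ℕ) : ℝ) -
      N * VT y z (univ.image f) * ((∏ i, c (g i)) * ((if Comp f g then 1 else 0) * wt (un g))) =
      (∏ i, c (g i)) * (((((Icc 1 N).filter (fun l => (∀ i, (∏ p ∈ g i, p) ∣ W * l + β + f i) ∧
        ∀ j ∈ univ.image f, ∀ p ∈ pz z, y < p → ¬ p ∣ W * l + β + j)).card : ℕ) : ℝ) -
      N * VT y z (univ.image f) * ((if Comp f g then 1 else 0) * wt (un g))) := by ring
    rw [e1, abs_mul]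
    exact mul_le_mul (abs_prod_le hM univ hg) h2 (abs_nonneg _) (by positivity)
  refine (Finset.sum_le_sum h1).trans ?_
  rw [← Finset.mul_sum, Finset.sum_add_distrib, ← Finset.mul_sum, Finset.sum_const, Fintype.card_piFinset,
    Finset.prod_const, card_univ, nsmul_eq_mul]
  apply mul_le_mul_of_nonneg_left _ (by positivity)
  apply add_le_add
  · exact mul_le_mul_of_nonneg_left (sum_wt_un hU) (by positivity)
  · push_cast
    rw [mul_comm]

end

/-- the blocks -/
theorem blocks {N W β y z κ H L2 k : ℕ} {η e M : ℝ} (hC : Cnt N W β y z κ η e) (hη : 0 ≤ η) (he : 0 ≤ e) (hM0 : 0 ≤ M)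
    (hyz : y ≤ z) (hz : 0 < z)
    {B : Finset ℕ} (hB : ∀ p ∈ B, p.Prime ∧ z < p ∧ H < p ∧ ¬ p ∣ W) {c : Finset ℕ → ℝ} {U : Finset (Finset ℕ)}
    (hU : ∀ u ∈ U, u ⊆ B) (hU0 : ∅ ∈ U) (hUL : ∀ u ∈ U, u.card ≤ L2) (hM : ∀ u ∈ U, |c u| ≤ M)
    (hcen : ∑ u ∈ U, c u * wt u = 0) {J : Finset ℕ} (hJ : ∀ j ∈ J, j ≤ H) (Jb : Fin k → Finset ℕ)
    (hJb : ∀ i, Jb i ⊆ J) (hdis : ∀ i i', i ≠ i' → Disjoint (Jb i) (Jb i')) (hκ : 2 * k ≤ κ) :
    ∑ l ∈ Icc 1 N, ∏ i, (∑ j ∈ Jb i, YY W β y z c U J j l) ^ 2 ≤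
      M ^ (2 * k) * ((∏ p ∈ B, (1 + 2 ^ (2 * k) / (p : ℝ))) * N *
        EL (Lst (y + 1) (z - y)) (fun S => (S.card : ℝ) ^ k) J +
        (J.card : ℝ) ^ (2 * k) * (N * ((2 * k * L2 : ℝ) / z) * (∏ p ∈ B, (1 + 2 ^ (2 * k) / (p : ℝ))) ^ 2 +
          η * N * (∏ p ∈ B, (1 + 2 ^ (2 * k) / (p : ℝ))) + e * (U.card : ℝ) ^ (2 * k))) := by
  classical
  obtain ⟨Ξ, hΞ⟩ : ∃ Ξ, Ξ = ∏ p ∈ B, (1 + 2 ^ (2 * k) / (p : ℝ)) := ⟨_, rfl⟩
  have hΞ1 : 1 ≤ Ξ := by rw [hΞ]; exact prod_ge_one B _ (by positivity)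
  rw [← hΞ]
  have hcard : Fintype.card (Fin k × Bool) = 2 * k := by
    rw [Fintype.card_prod, Fintype.card_fin, Fintype.card_bool, mul_comm]
  obtain ⟨ff, hff⟩ : ∃ ff : (Fin k → ℕ × ℕ) → (Fin k × Bool) → ℕ,
    ff = fun F x => if x.2 then (F x.1).1 else (F x.1).2 := ⟨_, rfl⟩
  obtain ⟨P2, hP2⟩ : ∃ P2, P2 = Fintype.piFinset (fun i => Jb i ×ˢ Jb i) := ⟨_, rfl⟩
  have hmem : ∀ F, F ∈ P2 ↔ ∀ i, (F i).1 ∈ Jb i ∧ (F i).2 ∈ Jb i := by
    intro F
    rw [hP2, Fintype.mem_piFinset]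
    simp only [mem_product]
  have e1 : ∑ l ∈ Icc 1 N, ∏ i, (∑ j ∈ Jb i, YY W β y z c U J j l) ^ 2 =
      ∑ F ∈ P2, ∑ l ∈ Icc 1 N, ∏ x, YY W β y z c U J (ff F x) l := by
    rw [Finset.sum_comm]
    refine Finset.sum_congr rfl fun l _ => ?_
    have h1 : ∀ i ∈ (univ : Finset (Fin k)), (∑ j ∈ Jb i, YY W β y z c U J j l) ^ 2 =
        ∑ x ∈ Jb i ×ˢ Jb i, YY W β y z c U J x.1 l * YY W β y z c U J x.2 l := by
      intro i _
      rw [sq, Finset.sum_mul_sum, Finset.sum_product]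
    rw [Finset.prod_congr rfl h1, Finset.prod_univ_sum, hP2]
    refine Finset.sum_congr rfl fun F _ => ?_
    rw [Fintype.prod_prod_type]
    refine Finset.prod_congr rfl fun i _ => ?_
    rw [Fintype.prod_bool, hff]
    simp
  rw [e1]
  obtain ⟨Er, hEr⟩ : ∃ Er, Er = M ^ (2 * k) * (N * ((2 * k * L2 : ℝ) / z) * Ξ ^ 2 + η * N * Ξ + e * (U.card : ℝ) ^ (2 * k)) :=
    ⟨_, rfl⟩
  have key : ∀ F ∈ P2, ∑ l ∈ Icc 1 N, ∏ x, YY W β y z c U J (ff F x) l ≤
      (M ^ (2 * k) * Ξ * N) * (if ∀ i, (F i).1 = (F i).2 then VT y z (univ.image (fun i => (F i).1)) else 0) + Er := by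
    intro F hF
    rw [hmem] at hF
    have hfJ : ∀ x, ff F x ∈ J := by
      intro x
      rw [hff]
      simp only []
      split_ifs
      · exact hJb _ (hF x.1).1
      · exact hJb _ (hF x.1).2
    have h1 := mean_prod hC hη he hM0 hB hU hM hJ (ff F) hfJ (by rw [hcard]; exact hκ)
    rw [hcard, ← hΞ] at h1
    have h2 := (abs_le.1 h1).2
    have hV0 := VT_nonneg y z (univ.image (ff F))
    have hV1 := VT_le_one y z (univ.image (ff F))
    have hz0 : (0 : ℝ) < z := by exact_mod_cast hz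
    have hL : (0 : ℝ) ≤ (2 * k * L2 : ℝ) / z := by positivity
    split_ifs with hd
    · have h3 := GG_le hU hM hM0 (ff F)
      rw [hcard, ← hΞ] at h3
      have h4 : univ.image (ff F) = univ.image (fun i => (F i).1) := by
        ext a
        rw [mem_image, mem_image]
        constructor
        · rintro ⟨x, _, rfl⟩
          refine ⟨x.1, mem_univ _, ?_⟩
          rw [hff]
          simp only []
          split_ifs
          · rfl
          · exact hd x.1
        · rintro ⟨i, _, rfl⟩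
          refine ⟨(i, true), mem_univ _, ?_⟩
          rw [hff]
          simp
      rw [h4] at h2 hV0
      have h5 : (N : ℝ) * VT y z (univ.image (fun i => (F i).1)) * GG c U (ff F) ≤
          N * VT y z (univ.image (fun i => (F i).1)) * (M ^ (2 * k) * Ξ) :=
        mul_le_mul_of_nonneg_left ((le_abs_self _).trans h3) (by positivity)
      have h6 : 0 ≤ M ^ (2 * k) * (N * ((2 * k * L2 : ℝ) / z) * Ξ ^ 2) := by positivity
      rw [hEr]
      nlinarith
    · push Not at hd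
      obtain ⟨i, hi⟩ := hd
      have h3 := GG_single hz (fun p hp => (hB p hp).2.1) hU hU0 hUL hM hM0 hcen (ff F) (i, true) (by
        rintro ⟨i', b⟩ hne heq
        rw [hff] at heq
        simp only [if_true] at heq
        by_cases hii : i' = i
        · subst hii
          cases b with
          | true => exact hne rfl
          | false =>
            simp only [Bool.false_eq_true, if_false] at heq
            exact hi heq.symm
        · have h7 := hdis i' i hii
          rw [Finset.disjoint_left] at h7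
          have h8 : (if b then (F i').1 else (F i').2) ∈ Jb i' := by
            split_ifs
            · exact (hF i').1
            · exact (hF i').2
          exact h7 h8 (by rw [heq]; exact (hF i).1))
      rw [hcard, ← hΞ] at h3
      have h5 : (N : ℝ) * VT y z (univ.image (ff F)) * GG c U (ff F) ≤
          N * 1 * (M ^ (2 * k) * (((2 * k : ℕ) * L2 : ℝ) / z) * Ξ ^ 2) := by
        calc (N : ℝ) * VT y z (univ.image (ff F)) * GG c U (ff F) ≤
            N * VT y z (univ.image (ff F)) * (M ^ (2 * k) * (((2 * k : ℕ) * L2 : ℝ) / z) * Ξ ^ 2) :=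
              mul_le_mul_of_nonneg_left ((le_abs_self _).trans h3) (by positivity)
          _ ≤ _ := by
            apply mul_le_mul_of_nonneg_right _ (by positivity)
            exact mul_le_mul_of_nonneg_left hV1 (Nat.cast_nonneg _)
      push_cast at h5
      rw [hEr]
      rw [mul_zero, zero_add]
      have h9 : (N : ℝ) * 1 * (M ^ (2 * k) * ((2 * (k : ℝ) * L2) / z) * Ξ ^ 2) =
          M ^ (2 * k) * (N * ((2 * k * L2 : ℝ) / z) * Ξ ^ 2) := by ring
      rw [h9] at h5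
      have h10 : M ^ (2 * k) * (N * ((2 * k * L2 : ℝ) / z) * Ξ ^ 2 + η * N * Ξ + e * (U.card : ℝ) ^ (2 * k)) =
          M ^ (2 * k) * (N * ((2 * k * L2 : ℝ) / z) * Ξ ^ 2) + M ^ (2 * k) * (η * N * Ξ + e * (U.card : ℝ) ^ (2 * k)) := by
        ring
      rw [h10]
      linarith
  refine (Finset.sum_le_sum key).trans ?_
  rw [Finset.sum_add_distrib, ← Finset.mul_sum, Finset.sum_const, nsmul_eq_mul]
  -- the diagonal
  have hdiag : ∑ F ∈ P2, (if ∀ i, (F i).1 = (F i).2 then VT y z (univ.image (fun i => (F i).1)) else 0) ≤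
      EL (Lst (y + 1) (z - y)) (fun S => (S.card : ℝ) ^ k) J := by
    have h1 : ∑ F ∈ P2, (if ∀ i, (F i).1 = (F i).2 then VT y z (univ.image (fun i => (F i).1)) else 0) =
        ∑ h ∈ Fintype.piFinset Jb, VT y z (univ.image h) := by
      rw [← Finset.sum_filter]
      refine Finset.sum_nbij' (fun F i => (F i).1) (fun h i => (h i, h i)) ?_ ?_ ?_ ?_ ?_
      · intro F hF
        rw [mem_filter, hmem] at hF
        rw [Fintype.mem_piFinset]
        exact fun i => (hF.1 i).1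
      · intro h hh
        rw [Fintype.mem_piFinset] at hh
        rw [mem_filter, hmem]
        exact ⟨fun i => ⟨hh i, hh i⟩, fun i => rfl⟩
      · intro F hF
        rw [mem_filter] at hF
        funext i
        exact Prod.ext rfl (hF.2 i)
      · intro h _
        rfl
      · intro F _
        rfl
    rw [h1]
    have h2 : ∀ h ∈ Fintype.piFinset Jb, VT y z (univ.image h) =
        1 * EL (Lst (y + 1) (z - y)) (fun S => if univ.image h ⊆ S then 1 else 0) J := by
      intro h hh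
      rw [Fintype.mem_piFinset] at hh
      rw [one_mul, EL_VT hyz]
      intro x hx
      rw [mem_image] at hx
      obtain ⟨i, _, rfl⟩ := hx
      exact hJb i (hh i)
    rw [Finset.sum_congr rfl h2, ← EL_lin]
    apply EL_mono (J := J) _ J (Subset.refl J)
    intro S hS
    rw [card_pow hS]
    have h3 : Fintype.piFinset Jb ⊆ Fintype.piFinset (fun _ : Fin k => J) := by
      intro h hh
      rw [Fintype.mem_piFinset] at hh ⊢
      exact fun i => hJb i (hh i)
    simp only [one_mul]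
    apply Finset.sum_le_sum_of_subset_of_nonneg h3
    intro h _ _
    split_ifs <;> norm_num
  have hcardP : (P2.card : ℝ) ≤ (J.card : ℝ) ^ (2 * k) := by
    have h1 : P2.card ≤ (J.card ^ 2) ^ k := by
      rw [hP2, Fintype.card_piFinset]
      calc ∏ i, (Jb i ×ˢ Jb i).card ≤ ∏ _i : Fin k, J.card ^ 2 := by
            refine Finset.prod_le_prod' fun i _ => ?_
            rw [card_product, sq]
            exact Nat.mul_le_mul (card_le_card (hJb i)) (card_le_card (hJb i))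
        _ = _ := by rw [Finset.prod_const, card_univ, Fintype.card_fin]
    rw [← pow_mul] at h1
    exact_mod_cast h1
  have hz0 : (0 : ℝ) < z := by exact_mod_cast hz
  have hEr0 : 0 ≤ Er := by rw [hEr]; positivity
  have g1 : (M ^ (2 * k) * Ξ * N) * ∑ F ∈ P2, (if ∀ i, (F i).1 = (F i).2 then VT y z (univ.image (fun i => (F i).1)) else 0) ≤
      (M ^ (2 * k) * Ξ * N) * EL (Lst (y + 1) (z - y)) (fun S => (S.card : ℝ) ^ k) J :=
    mul_le_mul_of_nonneg_left hdiag (by positivity)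
  have g2 : (P2.card : ℝ) * Er ≤ (J.card : ℝ) ^ (2 * k) * Er := mul_le_mul_of_nonneg_right hcardP hEr0
  calc _ ≤ (M ^ (2 * k) * Ξ * N) * EL (Lst (y + 1) (z - y)) (fun S => (S.card : ℝ) ^ k) J +
        (J.card : ℝ) ^ (2 * k) * Er := add_le_add g1 g2
    _ = _ := by rw [hEr]; ring

end Pool.Agent.L7h6.TX
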