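import Pool.Agent.L7h6.TX.Real

/-!
# Random sieve (helper6), part 5: the centred moments of the numbers without small prime factors
-/

set_option autoImplicit false

namespace Pool.Agent.L7h6.TX

open Finset
open Pool.Agent.H373R2.T7

open Classical in
/-- the counts are as expected -/
def Cnt (N W β y z κ : ℕ) (η e : ℝ) : Prop :=
  ∀ T : Finset ℕ, T.card ≤ κ → ∀ E a : ℕ, 1 ≤ E → (∀ p : ℕ, p.Prime → p ≤ z → ¬ p ∣ E) →
    |((((Icc 1 N).filter (fun l : ℕ => l ≡ a [MOD E] ∧ ∀ j ∈ T, ∀ p ∈ pz z, y < p → ¬ p ∣ W * l + β + j)).card : ℕ) : ℝ) -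
      (N : ℝ) / E * VT y z T| ≤ η * ((N : ℝ) / E) + e

lemma Sv_sub (W β y z : ℕ) (J : Finset ℕ) (l : ℕ) : Sv W β y z J l ⊆ J := by
  unfold Sv
  exact filter_subset _ _

lemma sub_Sv {W β y z : ℕ} {J T : Finset ℕ} {l : ℕ} (hT : T ⊆ J) :
    T ⊆ Sv W β y z J l ↔ ∀ j ∈ T, ∀ p ∈ pz z, y < p → ¬ p ∣ W * l + β + j := by
  classical
  unfold Sv
  constructor
  · intro h j hj
    exact (mem_filter.1 (h hj)).2
  · intro h j hj
    exact mem_filter.2 ⟨hT hj, h j hj⟩

open Classical in
lemma EL_VT {y z : ℕ} (hyz : y ≤ z) {T J : Finset ℕ} (hT : T ⊆ J) :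
    EL (Lst (y + 1) (z - y)) (fun S => if T ⊆ S then 1 else 0) J = VT y z T := by
  rw [EL_sub (fun p hp => (mem_Lst.1 hp).1.pos), if_pos hT, Lst_prod]
  unfold VT
  rw [show y + 1 + (z - y) = z + 1 by omega]

open Classical in
/-- powers of the number of elements -/
lemma card_pow {S J : Finset ℕ} (hS : S ⊆ J) (i : ℕ) :
    (S.card : ℝ) ^ i = ∑ f ∈ Fintype.piFinset (fun _ : Fin i => J), if univ.image f ⊆ S then 1 else 0 := by
  rw [← Finset.sum_filter, Finset.sum_const, nsmul_eq_mul, mul_one]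
  have h1 : (Fintype.piFinset (fun _ : Fin i => J)).filter (fun f => univ.image f ⊆ S) =
      Fintype.piFinset (fun _ : Fin i => S) := by
    ext f
    rw [mem_filter, Fintype.mem_piFinset, Fintype.mem_piFinset]
    constructor
    · rintro ⟨_, h⟩ a
      exact h (mem_image_of_mem f (mem_univ a))
    · intro h
      refine ⟨fun a => hS (h a), ?_⟩
      intro x hx
      rw [mem_image] at hx
      obtain ⟨a, _, rfl⟩ := hx
      exact h a
  rw [h1, Fintype.card_piFinset_const]
  push_cast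
  rfl

open Classical in
lemma polyrep {S J : Finset ℕ} (hS : S ⊆ J) (mu : ℝ) (m : ℕ) :
    ((S.card : ℝ) - mu) ^ m = ∑ i ∈ range (m + 1), ∑ f ∈ Fintype.piFinset (fun _ : Fin i => J),
      ((-mu) ^ (m - i) * (m.choose i : ℝ)) * (if univ.image f ⊆ S then 1 else 0) := by
  rw [sub_eq_add_neg, add_pow]
  refine Finset.sum_congr rfl fun i _ => ?_
  rw [← Finset.mul_sum, ← card_pow hS]
  ring

/-- the transfer -/
theorem tr1 {N W β y z κ : ℕ} {η e : ℝ} (hyz : y ≤ z) (hC : Cnt N W β y z κ η e) (J : Finset ℕ) {mu : ℝ}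
    (hmu : 0 ≤ mu) {m : ℕ} (hm : m ≤ κ) :
    ∑ l ∈ Icc 1 N, (((Sv W β y z J l).card : ℝ) - mu) ^ m ≤
      N * EL (Lst (y + 1) (z - y)) (fun S => ((S.card : ℝ) - mu) ^ m) J + ((J.card : ℝ) + mu) ^ m * (η * N + e) := by
  classical
  obtain ⟨a, ha⟩ : ∃ a : ℕ → ℝ, a = fun i => (-mu) ^ (m - i) * (m.choose i : ℝ) := ⟨_, rfl⟩
  -- the ideal side
  have e1 : EL (Lst (y + 1) (z - y)) (fun S => ((S.card : ℝ) - mu) ^ m) J =
      ∑ i ∈ range (m + 1), ∑ f ∈ Fintype.piFinset (fun _ : Fin i => J), a i * VT y z (univ.image f) := by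
    have h1 : EL (Lst (y + 1) (z - y)) (fun S => ((S.card : ℝ) - mu) ^ m) J =
        EL (Lst (y + 1) (z - y)) (fun S => ∑ i ∈ range (m + 1), (1 : ℝ) *
          ∑ f ∈ Fintype.piFinset (fun _ : Fin i => J), a i * (if univ.image f ⊆ S then 1 else 0)) J := by
      apply le_antisymm
      · apply EL_mono (J := J) _ J (Subset.refl J)
        intro S hS
        rw [polyrep hS]
        apply le_of_eq
        refine Finset.sum_congr rfl fun i _ => ?_
        rw [one_mul, ha]
      · apply EL_mono (J := J) _ J (Subset.refl J)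
        intro S hS
        rw [polyrep hS]
        apply le_of_eq
        refine Finset.sum_congr rfl fun i _ => ?_
        rw [one_mul, ha]
    rw [h1, EL_lin]
    refine Finset.sum_congr rfl fun i _ => ?_
    rw [one_mul, EL_lin]
    refine Finset.sum_congr rfl fun f hf => ?_
    rw [EL_VT hyz]
    intro x hx
    rw [mem_image] at hx
    obtain ⟨b, _, rfl⟩ := hx
    exact Fintype.mem_piFinset.1 hf b
  -- the real side
  have e2 : ∑ l ∈ Icc 1 N, (((Sv W β y z J l).card : ℝ) - mu) ^ m =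
      ∑ i ∈ range (m + 1), ∑ f ∈ Fintype.piFinset (fun _ : Fin i => J),
        a i * (((Icc 1 N).filter (fun l => univ.image f ⊆ Sv W β y z J l)).card : ℝ) := by
    rw [Finset.sum_congr rfl fun l _ => polyrep (Sv_sub W β y z J l) mu m, Finset.sum_comm]
    refine Finset.sum_congr rfl fun i _ => ?_
    rw [Finset.sum_comm]
    refine Finset.sum_congr rfl fun f _ => ?_
    rw [← Finset.mul_sum, ← Finset.sum_filter, Finset.sum_const, nsmul_eq_mul, mul_one, ha]
  have e3 : ∀ i ∈ range (m + 1), ∀ f ∈ Fintype.piFinset (fun _ : Fin i => J),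
      a i * (((Icc 1 N).filter (fun l => univ.image f ⊆ Sv W β y z J l)).card : ℝ) ≤
        a i * (N * VT y z (univ.image f)) + |a i| * (η * N + e) := by
    intro i hi f hf
    rw [mem_range] at hi
    have hTJ : univ.image f ⊆ J := by
      intro x hx
      rw [mem_image] at hx
      obtain ⟨b, _, rfl⟩ := hx
      exact Fintype.mem_piFinset.1 hf b
    have hcard : (univ.image f).card ≤ κ := by
      refine card_image_le.trans ?_
      rw [card_univ, Fintype.card_fin]
      omega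
    have h1 := hC (univ.image f) hcard 1 0 le_rfl (fun p hp _ h => hp.one_lt.ne' (Nat.dvd_one.1 h))
    have h2 : (Icc 1 N).filter (fun l : ℕ => l ≡ 0 [MOD 1] ∧ ∀ j ∈ univ.image f, ∀ p ∈ pz z, y < p → ¬ p ∣ W * l + β + j) =
        (Icc 1 N).filter (fun l => univ.image f ⊆ Sv W β y z J l) := by
      apply filter_congr
      intro l _
      rw [sub_Sv hTJ]
      exact ⟨fun h => h.2, fun h => ⟨Nat.modEq_one, h⟩⟩
    rw [h2, Nat.cast_one, div_one] at h1
    have h3 : |a i * ((((Icc 1 N).filter (fun l => univ.image f ⊆ Sv W β y z J l)).card : ℝ) - N * VT y z (univ.image f))| ≤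
        |a i| * (η * N + e) := by
      rw [abs_mul]
      exact mul_le_mul_of_nonneg_left h1 (abs_nonneg _)
    have h4 := (abs_le.1 h3).2
    linarith
  rw [e1, e2]
  refine (Finset.sum_le_sum fun i hi => Finset.sum_le_sum (e3 i hi)).trans ?_
  have e4 : ∑ i ∈ range (m + 1), ∑ f ∈ Fintype.piFinset (fun _ : Fin i => J),
      (a i * (N * VT y z (univ.image f)) + |a i| * (η * N + e)) =
      N * (∑ i ∈ range (m + 1), ∑ f ∈ Fintype.piFinset (fun _ : Fin i => J), a i * VT y z (univ.image f)) +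
        ∑ i ∈ range (m + 1), ∑ f ∈ Fintype.piFinset (fun _ : Fin i => J), |a i| * (η * N + e) := by
    rw [Finset.mul_sum, ← Finset.sum_add_distrib]
    refine Finset.sum_congr rfl fun i _ => ?_
    rw [Finset.mul_sum, ← Finset.sum_add_distrib]
    refine Finset.sum_congr rfl fun f _ => ?_
    ring
  rw [e4]
  apply add_le_add le_rfl
  apply le_of_eq
  rw [add_pow, Finset.sum_mul]
  refine Finset.sum_congr rfl fun i _ => ?_
  rw [Finset.sum_const, Fintype.card_piFinset_const, nsmul_eq_mul, ha]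
  have : |(-mu) ^ (m - i) * (m.choose i : ℝ)| = mu ^ (m - i) * (m.choose i : ℝ) := by
    rw [abs_mul, abs_pow, abs_neg, abs_of_nonneg hmu, abs_of_nonneg (Nat.cast_nonneg _ : (0 : ℝ) ≤ (m.choose i : ℝ))]
  rw [this]
  push_cast
  ring

end Pool.Agent.L7h6.TX
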