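import Pool.Agent.L7h6.TX.Den
import Pool.Agent.Y882.FLW

/-!
# Random sieve (helper6), part 12: the weights for the large primes
-/

set_option autoImplicit false

namespace Pool.Agent.L7h6.TX

open Finset
open Pool.Agent.L7h6.EX (wt wt_eq wt_nonneg)
open Pool.Agent.Y882 (VV flw)

/-- the primes in `(z, Z]` -/
noncomputable def PB (z Z : ℕ) : Finset ℕ := (Ico (z + 1) (Z + 1)).filter Nat.Prime

lemma mem_PB {z Z p : ℕ} : p ∈ PB z Z ↔ p.Prime ∧ z < p ∧ p ≤ Z := by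
  unfold PB
  rw [mem_filter, mem_Ico]
  constructor
  · rintro ⟨⟨h1, h2⟩, h3⟩
    exact ⟨h3, by omega, by omega⟩
  · rintro ⟨h1, h2, h3⟩
    exact ⟨⟨by omega, by omega⟩, h1⟩

lemma prod_PB {z Z : ℕ} (h : z ≤ Z) : ∏ p ∈ PB z Z, (1 - 1 / (p : ℝ)) = VI (z + 1) (Z - z) := by
  unfold PB VI
  rw [show z + 1 + (Z - z) = Z + 1 by omega]

open Classical in
lemma VV_ww {B : Finset ℕ} (hB : ∀ p ∈ B, p.Prime) {cL : Finset ℕ → ℝ} {Lv : ℕ}
    (hc : ∀ T ⊆ B, cL T ≠ 0 → ∏ p ∈ T, p ≤ Lv) (v : ℕ) :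
    VV B cL (fun p => if p ∣ v then 1 else 0) = ww cL (B.powerset.filter (fun u => ∏ p ∈ u, p ≤ Lv)) v := by
  unfold VV ww
  rw [Finset.sum_filter]
  refine Finset.sum_congr rfl fun T hT => ?_
  rw [mem_powerset] at hT
  have h1 : ∏ p ∈ T, (if p ∣ v then (1 : ℝ) else 0) = if (∏ p ∈ T, p) ∣ v then 1 else 0 := by
    rw [Finset.prod_boole]
    have h2 : (∀ p ∈ T, p ∣ v) ↔ (∏ p ∈ T, p) ∣ v := by
      constructor
      · intro h
        exact Finset.prod_primes_dvd v (fun p hp => (hB p (hT hp)).prime) h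
      · intro h p hp
        exact (dvd_prod_of_mem (fun p => p) hp).trans h
    simp only [h2]
  rw [h1]
  by_cases h3 : ∏ p ∈ T, p ≤ Lv
  · simp only [if_pos h3]
  · have h4 : cL T = 0 := by
      by_contra h5
      exact h3 (hc T hT h5)
    simp only [if_neg h3]
    rw [h4, zero_mul]

open Classical in
lemma VV_wt {B : Finset ℕ} {cL : Finset ℕ → ℝ} {Lv : ℕ} (hc : ∀ T ⊆ B, cL T ≠ 0 → ∏ p ∈ T, p ≤ Lv) :
    VV B cL (fun p => 1 / (p : ℝ)) = ∑ u ∈ B.powerset.filter (fun u => ∏ p ∈ u, p ≤ Lv), cL u * wt u := by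
  unfold VV
  rw [Finset.sum_filter]
  refine Finset.sum_congr rfl fun T hT => ?_
  rw [mem_powerset] at hT
  split_ifs with h3
  · rfl
  · have h4 : cL T = 0 := by
      by_contra h5
      exact h3 (hc T hT h5)
    rw [h4, zero_mul]

theorem wts : ∃ Cf : ℕ, 1 ≤ Cf ∧ ∀ J2 z : ℕ, 2 * Cf ≤ z → z ≤ 2 ^ 2 ^ J2 → ∃ (cL : Finset ℕ → ℝ) (U : Finset (Finset ℕ)) (ρ : ℝ),
    (∀ u ∈ U, u ⊆ PB z (2 ^ 2 ^ J2)) ∧ ∅ ∈ U ∧ (∀ u ∈ U, u.card ≤ Nat.log 2 ((2 ^ 2 ^ J2) ^ (Cf * (2 * Cf)))) ∧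
    (∀ u ∈ U, |cL u| + |ρ| ≤ J2 + 3) ∧ ρ = ∑ u ∈ U, cL u * wt u ∧ 1 / 2 * VI (z + 1) (2 ^ 2 ^ J2 - z) ≤ ρ ∧
    (∀ v : ℕ, ww cL U v ≤ (by classical exact if ∀ p ∈ PB z (2 ^ 2 ^ J2), ¬ p ∣ v then 1 else 0)) ∧
    U.card ≤ (2 ^ 2 ^ J2) ^ (Cf * (2 * Cf)) := by
  classical
  obtain ⟨Cf, hCf, H⟩ := flw
  refine ⟨Cf, hCf, fun J2 z hz hzZ => ?_⟩
  obtain ⟨Z, hZ⟩ : ∃ Z, Z = 2 ^ 2 ^ J2 := ⟨_, rfl⟩
  obtain ⟨cU, cL, h1, h2, h3, h4⟩ := H 1 (2 * Cf) J2 z (PB z Z) (by omega) (by omega) (fun p hp => by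
    rw [mem_PB] at hp
    rw [← hZ]
    exact hp)
  rw [← hZ] at h2 ⊢
  rw [← hZ] at hzZ
  obtain ⟨Lv, hLv⟩ : ∃ Lv, Lv = Z ^ (Cf * (2 * Cf)) := ⟨_, rfl⟩
  rw [← hLv] at h2 ⊢
  have hZ1 : 1 ≤ Z := by rw [hZ]; exact Nat.one_le_two_pow
  have hLv1 : 1 ≤ Lv := by rw [hLv]; exact Nat.one_le_pow _ _ hZ1
  have hBp : ∀ p ∈ PB z Z, p.Prime := fun p hp => (mem_PB.1 hp).1
  have hc : ∀ T ⊆ PB z Z, cL T ≠ 0 → ∏ p ∈ T, p ≤ Lv := fun T hT h => h2 T hT (Or.inr h)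
  obtain ⟨g1, g2, g3, g4⟩ := h4 (fun p => 1 / (p : ℝ)) (fun p hp => by
    have hp2 : (2 : ℝ) ≤ p := by exact_mod_cast (hBp p hp).two_le
    refine ⟨by positivity, ?_⟩
    rw [Nat.cast_one]
    exact one_div_le_one_div_of_le (by linarith) (by linarith))
  rw [prod_PB hzZ] at g1 g3 g4
  have hV0 := VI_nonneg (z + 1) (Z - z)
  have hV1 := VI_le_one (z + 1) (Z - z)
  have hb : (1 / 2 : ℝ) ^ (2 * Cf) ≤ 1 / 2 := by
    calc (1 / 2 : ℝ) ^ (2 * Cf) ≤ (1 / 2) ^ 1 := pow_le_pow_of_le_one (by norm_num) (by norm_num) (by omega)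
      _ = 1 / 2 := pow_one _
  have hb0 : 0 < (1 / 2 : ℝ) ^ (2 * Cf) := by positivity
  obtain ⟨ρ, hρ⟩ : ∃ ρ, ρ = VV (PB z Z) cL (fun p => 1 / (p : ℝ)) := ⟨_, rfl⟩
  rw [← hρ] at g1 g2
  have hρ1 : 1 / 2 * VI (z + 1) (Z - z) ≤ ρ := by nlinarith
  have hρ2 : ρ ≤ 2 := by nlinarith
  have hρ0 : 0 ≤ ρ := le_trans (by positivity) hρ1
  refine ⟨cL, (PB z Z).powerset.filter (fun u => ∏ p ∈ u, p ≤ Lv), ρ, ?_, ?_, ?_, ?_, ?_, hρ1, ?_, ?_⟩
  · intro u hu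
    rw [mem_filter, mem_powerset] at hu
    exact hu.1
  · rw [mem_filter, mem_powerset, prod_empty]
    exact ⟨empty_subset _, hLv1⟩
  · intro u hu
    rw [mem_filter, mem_powerset] at hu
    apply Nat.le_log_of_pow_le (by norm_num)
    refine le_trans ?_ hu.2
    exact Finset.pow_card_le_prod (s := u) (f := fun p => p) (n := 2) (fun p hp => (hBp p (hu.1 hp)).two_le)
  · intro u _
    have := (h1 u).2
    rw [abs_of_nonneg hρ0]
    linarith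
  · rw [hρ]
    exact VV_wt hc
  · intro v
    rw [← VV_ww hBp hc]
    refine (h3 v).1.trans (le_of_eq ?_)
    congr!
  · calc ((PB z Z).powerset.filter (fun u => ∏ p ∈ u, p ≤ Lv)).card ≤ (Icc 1 Lv).card := by
          apply Finset.card_le_card_of_injOn (fun u => ∏ p ∈ u, p)
          · intro u hu
            rw [Finset.mem_coe, mem_filter, mem_powerset] at hu
            rw [Finset.mem_coe, mem_Icc]
            exact ⟨Finset.prod_pos fun p hp => (hBp p (hu.1 hp)).pos, hu.2⟩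
          · intro u hu v hv huv
            rw [Finset.mem_coe, mem_filter, mem_powerset] at hu hv
            have e1 := Nat.primeFactors_prod (s := u) (fun p hp => hBp p (hu.1 hp))
            have e2 := Nat.primeFactors_prod (s := v) (fun p hp => hBp p (hv.1 hp))
            simp only [] at huv
            rw [← e1, huv, e2]
      _ = Lv := by rw [Nat.card_Icc]; omega

/-- the products over the large primes -/
lemma Xi_le {z Z n : ℕ} (_h : z ≤ Z) : ∏ p ∈ PB z Z, (1 + (n : ℝ) / p) ≤ ((∏ p ∈ PB z Z, (1 - 1 / (p : ℝ)))⁻¹) ^ n := by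
  rw [← Finset.prod_inv_distrib, ← Finset.prod_pow]
  refine Finset.prod_le_prod (fun _ _ => by positivity) (fun p hp => ?_)
  have hp2 : (2 : ℝ) ≤ p := by exact_mod_cast (mem_PB.1 hp).1.two_le
  have h1 : 1 + (n : ℝ) / p ≤ (1 + 1 / (p : ℝ)) ^ n := by
    have := one_add_mul_le_pow (show (-2 : ℝ) ≤ 1 / p by have : 0 ≤ 1 / (p : ℝ) := by positivity
                                                         linarith) n
    calc 1 + (n : ℝ) / p = 1 + n * (1 / p) := by ring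
      _ ≤ _ := this
  refine h1.trans ?_
  apply pow_le_pow_left₀ (by positivity)
  have h2 : 0 < 1 - 1 / (p : ℝ) := by
    have : 1 / (p : ℝ) ≤ 1 / 2 := one_div_le_one_div_of_le (by norm_num) hp2
    linarith
  rw [← one_div, le_div_iff₀ h2]
  have h3 : (1 + 1 / (p : ℝ)) * (1 - 1 / p) = 1 - (1 / (p : ℝ)) ^ 2 := by ring
  rw [h3]
  have := sq_nonneg (1 / (p : ℝ))
  linarith

end Pool.Agent.L7h6.TX
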